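import Pool.Agent.HEZ.St
import Pool.Agent.Stark.PDefs

/-!
# The Artin `L`-series of the trivial character of `Gal(F/F)`
-/

open NumberField NumberField.InfinitePlace NumberField.Units Module IsDedekindDomain
open scoped Real nonZeroDivisors ENNReal Classical

namespace HEZ

/-- The interface: for every number field `F` the Artin `L`-series of the trivial character of
`Gal(F/F)` has a meromorphic continuation with trailing coefficient `-h R / w` at `0`. -/
def S_ZETA0 : Prop := ∀ (F : Type) [Field F] [NumberField F], ∃ Z : ℂ → ℂ,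
  StarkP.IsArtinL (K := F) (L := F) (fun _ => (1 : ℂ)) ∅ Z ∧
    meromorphicTrailingCoeffAt Z 0 = -(((classNumber F : ℝ) * regulator F / torsionOrder F : ℝ) : ℂ)

namespace LNK

variable (F : Type) [Field F] [NumberField F]

theorem frob (w : HeightOneSpectrum (𝓞 F)) (m : ℕ) (g : F ≃ₐ[F] F) :
    StarkP.FrobPow F w (Ideal.absNorm w.asIdeal ^ m) g := by
  intro x y hxy
  have hg : ∀ x : F, g x = x := fun x => by
    have := g.commutes x
    simpa using this
  rw [hg] at hxy
  have hy : y = x := by exact_mod_cast hxy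
  subst hy
  -- the residue field has `absNorm` elements
  rw [← Ideal.Quotient.eq]
  have hfin : Finite (𝓞 F ⧸ w.asIdeal) := Ideal.finiteQuotientOfFreeOfNeBot _ w.ne_bot
  have := Fintype.ofFinite (𝓞 F ⧸ w.asIdeal)
  have hmax : w.asIdeal.IsMaximal := w.isMaximal
  let _ : Field (𝓞 F ⧸ w.asIdeal) := Ideal.Quotient.field _
  have hcard : Ideal.absNorm w.asIdeal = Fintype.card (𝓞 F ⧸ w.asIdeal) := by
    rw [Ideal.absNorm_apply, Submodule.cardQuot_apply, Nat.card_eq_fintype_card]
  rw [map_pow, hcard, FiniteField.pow_card_pow]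

theorem coef (v : HeightOneSpectrum (𝓞 F)) (m : ℕ) :
    StarkP.artinCoef (K := F) (L := F) (fun _ => (1 : ℂ)) v m = 1 := by
  have hun : ∀ w : HeightOneSpectrum (𝓞 F), HeightOneSpectrum.under (𝓞 F) w = w := by
    intro w
    apply HeightOneSpectrum.ext
    ext x
    change algebraMap (𝓞 F) (𝓞 F) x ∈ w.asIdeal ↔ x ∈ w.asIdeal
    rfl
  have hab : StarkP.above F F v = {v} := by
    ext w
    constructor
    · intro h
      exact (hun w).symm.trans h
    · intro h
      exact (hun w).trans h
  have hloc : ∀ w : HeightOneSpectrum (𝓞 F), StarkP.localTrace (K := F) (L := F)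
      (fun _ => (1 : ℂ)) w (Ideal.absNorm w.asIdeal ^ m) = 1 := by
    intro w
    unfold StarkP.localTrace
    have h1 : Finset.univ.filter (fun g : F ≃ₐ[F] F =>
        StarkP.FrobPow F w (Ideal.absNorm w.asIdeal ^ m) g) = Finset.univ := by
      ext g
      simp only [Finset.mem_filter, Finset.mem_univ, true_and, iff_true]
      exact frob F w m g
    have h2 : Finset.univ.filter (fun g : F ≃ₐ[F] F => StarkP.FrobPow F w 1 g) = Finset.univ := by
      ext g
      simp only [Finset.mem_filter, Finset.mem_univ, true_and, iff_true]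
      have := frob F w 0 g
      simpa using this
    rw [h1, h2, Finset.sum_const, nsmul_eq_mul, mul_one]
    have : ((Finset.univ : Finset (F ≃ₐ[F] F)).card : ℂ) ≠ 0 := by
      have : 0 < (Finset.univ : Finset (F ≃ₐ[F] F)).card := Finset.card_pos.mpr ⟨1, Finset.mem_univ _⟩
      exact_mod_cast this.ne'
    exact div_self this
  unfold StarkP.artinCoef
  rw [hab]
  rw [finsum_mem_singleton, Set.ncard_singleton, Nat.cast_one, div_one]
  exact hloc v

theorem logL_eq (s : ℂ) : StarkP.logL (K := F) (L := F) (fun _ => (1 : ℂ)) ∅ s =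
    ∑' p : HeightOneSpectrum (𝓞 F) × ℕ,
      1 / (((p.2 + 1 : ℕ) : ℂ) * (Ideal.absNorm p.1.asIdeal : ℂ) ^ (((p.2 + 1 : ℕ) : ℂ) * s)) := by
  unfold StarkP.logL
  refine tsum_congr fun p => ?_
  rw [if_neg (Set.notMem_empty _), coef]

end LNK

theorem lnk (h : S_END) : S_ZETA0 := by
  intro F _ _
  obtain ⟨Z, h1, -, h3, h4⟩ := h F
  exact ⟨Z, ⟨h1, fun s hs => by rw [LNK.logL_eq]; exact h3 s hs⟩, h4⟩

end HEZ
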