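import Pool.Agent.HEZ.St

/-!
# The change of variables `(τ, u) ↦ τ + ∑ 2 u_i log |ε_i|_w`
-/

open NumberField NumberField.InfinitePlace NumberField.Units Module MeasureTheory Matrix
open scoped Real nonZeroDivisors ENNReal

namespace HEZ

namespace CHV

variable (K : Type) [Field K] [NumberField K]

open Classical in
/-- The numbering of the places. -/
noncomputable def f : Fin (rank K + 1) ≃ InfinitePlace K :=
  (finSuccEquiv _).trans
    ((Equiv.optionSubtype (dirichletUnitTheorem.w₀ (K := K))).symm (equivFinRank K)).val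

theorem f_zero : f K 0 = dirichletUnitTheorem.w₀ := by
  unfold f
  simp

theorem f_succ (i : Fin (rank K)) : f K i.succ = (equivFinRank K i).1 := by
  unfold f
  simp

/-- The matrix of the change of variables. -/
noncomputable def M : Matrix (InfinitePlace K) (InfinitePlace K) ℝ :=
  Matrix.of fun w i => Fin.cases (motive := fun _ => ℝ) 1
    (fun j => 2 * Real.log (w (fundSystem K j : K))) ((f K).symm i)

theorem M_zero (w : InfinitePlace K) : M K w (f K 0) = 1 := by
  unfold M
  simp

theorem M_succ (w : InfinitePlace K) (j : Fin (rank K)) :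
    M K w (f K j.succ) = 2 * Real.log (w (fundSystem K j : K)) := by
  unfold M
  simp

open Classical in
theorem det_M : 2 ^ nrComplexPlaces K * |(M K).det| =
    finrank ℚ K * 2 ^ rank K * regulator K := by
  have h := finrank_mul_regulator_eq_det (K := K) dirichletUnitTheorem.w₀ (equivFinRank K).symm
  set N : Matrix (InfinitePlace K) (InfinitePlace K) ℝ := Matrix.of
    (fun i w : InfinitePlace K => if h : i = dirichletUnitTheorem.w₀ then (w.mult : ℝ)
      else w.mult * (w (fundSystem K ((equivFinRank K).symm ⟨i, h⟩))).log) with hN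
  have h1 : Matrix.diagonal (fun w : InfinitePlace K => (w.mult : ℝ)) * M K =
      (Matrix.diagonal (fun i : InfinitePlace K =>
        if i = dirichletUnitTheorem.w₀ then (1 : ℝ) else 2) * N)ᵀ := by
    ext w i
    rw [Matrix.diagonal_mul, Matrix.transpose_apply, Matrix.diagonal_mul]
    obtain ⟨k, rfl⟩ := (f K).surjective i
    refine Fin.cases ?_ (fun j => ?_) k
    · rw [M_zero, f_zero, hN, Matrix.of_apply, if_pos rfl, dif_pos rfl]
      ring
    · have hj : f K j.succ ≠ dirichletUnitTheorem.w₀ := by
        rw [f_succ]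
        exact (equivFinRank K j).2
      rw [M_succ, hN, Matrix.of_apply, if_neg hj, dif_neg hj]
      have h2 : (equivFinRank K).symm ⟨f K j.succ, hj⟩ = j := by
        rw [Equiv.symm_apply_eq]
        exact Subtype.ext (f_succ K j)
      rw [h2]
      ring
  have h3 := congrArg (fun A => |Matrix.det A|) h1
  simp only [Matrix.det_mul, Matrix.det_diagonal, Matrix.det_transpose, abs_mul] at h3
  have h4 : ∏ w : InfinitePlace K, (w.mult : ℝ) = 2 ^ nrComplexPlaces K := by
    have h6 : ∀ w : InfinitePlace K, (w.mult : ℝ) = if IsReal w then 1 else 2 := by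
      intro w
      unfold mult
      split_ifs <;> simp
    simp only [h6]
    rw [Finset.prod_ite, Finset.prod_const_one, one_mul, Finset.prod_const]
    congr 1
    rw [nrComplexPlaces, Fintype.card_subtype]
    congr 1
    ext w
    simp [not_isReal_iff_isComplex]
  have h5 : ∏ i : InfinitePlace K, (if i = dirichletUnitTheorem.w₀ then (1 : ℝ) else 2) =
      2 ^ rank K := by
    rw [← (f K).prod_comp, Fin.prod_univ_succ, if_pos (f_zero K), one_mul]
    rw [Finset.prod_congr rfl (fun j _ => if_neg (by
      rw [f_succ]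
      exact (equivFinRank K j).2))]
    simp
  rw [h4, h5, ← h] at h3
  rw [abs_of_nonneg (show (0 : ℝ) ≤ 2 ^ nrComplexPlaces K by positivity),
    abs_of_nonneg (show (0 : ℝ) ≤ 2 ^ Units.rank K by positivity)] at h3
  rw [h3]
  ring

/-- The parameters. -/
noncomputable def Φ : ℝ × (Fin (rank K) → ℝ) ≃ᵐ (InfinitePlace K → ℝ) :=
  (MeasurableEquiv.piFinSuccAbove (fun _ : Fin (rank K + 1) => ℝ) 0).symm.trans
    (MeasurableEquiv.piCongrLeft (fun _ : InfinitePlace K => ℝ) (f K))

theorem Φ_pres : MeasurePreserving (Φ K) volume volume :=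
  (volume_measurePreserving_piCongrLeft (fun _ : InfinitePlace K => ℝ) (f K)).comp
    ((volume_preserving_piFinSuccAbove (fun _ : Fin (rank K + 1) => ℝ) 0).symm _)

theorem Φ_apply (p : ℝ × (Fin (rank K) → ℝ)) (k : Fin (rank K + 1)) :
    Φ K p (f K k) = Fin.cons (α := fun _ => ℝ) p.1 p.2 k := by
  unfold Φ
  rw [MeasurableEquiv.trans_apply, MeasurableEquiv.coe_piCongrLeft,
    Equiv.piCongrLeft_apply_apply]
  change (0 : Fin (Units.rank K + 1)).insertNth (α := fun _ => ℝ) p.1 p.2 k = _
  rw [Fin.insertNth_zero]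
  rfl

theorem mulVec_Φ (p : ℝ × (Fin (rank K) → ℝ)) (w : InfinitePlace K) :
    (M K).mulVec (Φ K p) w = p.1 + ∑ i, 2 * p.2 i * Real.log (w (fundSystem K i : K)) := by
  rw [Matrix.mulVec, dotProduct, ← (f K).sum_comp, Fin.sum_univ_succ, M_zero, Φ_apply,
    Fin.cons_zero, one_mul]
  congr 1
  refine Finset.sum_congr rfl fun i _ => ?_
  rw [M_succ, Φ_apply, Fin.cons_succ]
  ring

end CHV

open CHV in
theorem chv : S_CHV := by
  classical
  intro K _ _ g hg
  have hn : (0 : ℝ) < finrank ℚ K := by
    exact_mod_cast Module.finrank_pos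
  have hR := regulator_pos K
  have hdet := det_M K
  have hpos : 0 < |(M K).det| := by
    have h1 : (0 : ℝ) < finrank ℚ K * 2 ^ Units.rank K * regulator K := by positivity
    rw [← hdet] at h1
    exact (pos_iff_pos_of_mul_pos h1).1 (by positivity)
  have hne : (M K).det ≠ 0 := abs_pos.1 hpos
  have hcst : |(M K).det⁻¹| = cst K := by
    unfold cst
    rw [abs_inv, ← hdet]
    field_simp
  have hG : Measurable fun v : InfinitePlace K → ℝ => g ((M K).mulVec v) :=
    hg.comp (Matrix.toLin' (M K)).continuous_of_finiteDimensional.measurable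
  calc ∫⁻ τ : ℝ, ∫⁻ u : Fin (Units.rank K) → ℝ,
        g (fun w => τ + ∑ i, 2 * u i * Real.log (w (fundSystem K i : K)))
      = ∫⁻ τ : ℝ, ∫⁻ u : Fin (Units.rank K) → ℝ, g ((M K).mulVec (Φ K (τ, u))) := by
        refine lintegral_congr fun τ => lintegral_congr fun u => ?_
        congr 1
        ext w
        exact (mulVec_Φ K (τ, u) w).symm
    _ = ∫⁻ p : ℝ × (Fin (Units.rank K) → ℝ), g ((M K).mulVec (Φ K p)) := by
        rw [Measure.volume_eq_prod, lintegral_prod]
        exact (hG.comp (Φ K).measurable).aemeasurable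
    _ = ∫⁻ v : InfinitePlace K → ℝ, g ((M K).mulVec v) :=
        (Φ_pres K).lintegral_comp hG
    _ = ∫⁻ y, g y ∂(Measure.map (Matrix.toLin' (M K)) volume) := by
        rw [lintegral_map hg (Matrix.toLin' (M K)).continuous_of_finiteDimensional.measurable]
        rfl
    _ = ENNReal.ofReal (cst K) * ∫⁻ s : InfinitePlace K → ℝ, g s := by
        rw [Real.map_matrix_volume_pi_eq_smul_volume_pi hne, lintegral_smul_measure, hcst,
          smul_eq_mul]

end HEZ
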