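import Pool.Agent.HEZ.St

/-!
# The ideals by ideal classes
-/

open NumberField NumberField.InfinitePlace NumberField.Units Module MeasureTheory IsDedekindDomain
open scoped Real nonZeroDivisors ENNReal

namespace HEZ

namespace CLS

theorem isPrincipal_iff (K : Type) [Field K] [NumberField K] (I : Ideal (𝓞 K))
    (hI : I ∈ (Ideal (𝓞 K))⁰) (J : (Ideal (𝓞 K))⁰) :
    Submodule.IsPrincipal (I * (J : Ideal (𝓞 K))) ↔
      ClassGroup.mk0 J = (ClassGroup.mk0 ⟨I, hI⟩)⁻¹ := by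
  have h1 : I * (J : Ideal (𝓞 K)) ∈ (Ideal (𝓞 K))⁰ := mul_mem hI J.2
  have h2 := ClassGroup.mk0_eq_one_iff h1
  have h3 : (⟨I * (J : Ideal (𝓞 K)), h1⟩ : (Ideal (𝓞 K))⁰) = ⟨I, hI⟩ * J := rfl
  rw [h3, map_mul] at h2
  rw [eq_inv_iff_mul_eq_one, mul_comm (ClassGroup.mk0 J)]
  exact h2.symm

end CLS

open CLS Classical in
theorem cls : HEZ.S_CLS := by
  intro K _ _ J hJ F
  have hL : ∑' I : {I : Ideal (𝓞 K) // I ≠ ⊥}, F I =
      ∑' I : Ideal (𝓞 K), Set.indicator {I : Ideal (𝓞 K) | I ≠ ⊥} F I :=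
    tsum_subtype {I : Ideal (𝓞 K) | I ≠ ⊥} F
  have hR : ∀ C : ClassGroup (𝓞 K), ∑' I : Cls K (J C : Ideal (𝓞 K)), F I.1 =
      ∑' I : Ideal (𝓞 K), Set.indicator
        {I : Ideal (𝓞 K) | I ≠ ⊥ ∧ Submodule.IsPrincipal (I * (J C : Ideal (𝓞 K)))} F I :=
    fun C => tsum_subtype
      {I : Ideal (𝓞 K) | I ≠ ⊥ ∧ Submodule.IsPrincipal (I * (J C : Ideal (𝓞 K)))} F
  rw [hL, Finset.sum_congr rfl fun C _ => hR C,
    ← Summable.tsum_finsetSum fun C _ => ENNReal.summable]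
  congr 1
  funext I
  by_cases hI : I = ⊥
  · rw [Set.indicator_of_notMem (by simp [hI])]
    refine (Finset.sum_eq_zero fun C _ => ?_).symm
    exact Set.indicator_of_notMem (fun h => h.1 hI) F
  · have hI' : I ∈ (Ideal (𝓞 K))⁰ := mem_nonZeroDivisors_iff_ne_zero.2 hI
    rw [Set.indicator_of_mem (by exact hI),
      Finset.sum_eq_single ((ClassGroup.mk0 ⟨I, hI'⟩)⁻¹ : ClassGroup (𝓞 K))]
    · rw [Set.indicator_of_mem]
      exact ⟨hI, (isPrincipal_iff K I hI' _).2 (hJ _)⟩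
    · intro C _ hC
      refine Set.indicator_of_notMem (fun h => hC ?_) F
      have h2 := (isPrincipal_iff K I hI' (J C)).1 h.2
      rw [hJ] at h2
      exact h2
    · intro h
      exact absurd (Finset.mem_univ _) h

end HEZ
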