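import Pool.Agent.HEZ.St
import Pool.Agent.Lib_helper28.FROB.Zeta

/-!
# The Dedekind zeta function at real points `z > 1` (module DED)
-/

open NumberField NumberField.InfinitePlace NumberField.Units Module MeasureTheory IsDedekindDomain
open scoped Real nonZeroDivisors ENNReal

namespace HEZ

theorem ded : S_DED := by
  intro K _ _ z _ _
  have h1 : (Pool.Agent.Lib_helper28.FROB.Z K z).toReal =
      ∑' I : {I : Ideal (𝓞 K) // I ≠ ⊥}, (Ideal.absNorm I.1 : ℝ) ^ (-z) := by
    unfold Pool.Agent.Lib_helper28.FROB.Z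
    rw [ENNReal.tsum_toReal_eq (fun I => by
      unfold Pool.Agent.Lib_helper28.FROB.F
      exact ENNReal.ofReal_ne_top)]
    refine tsum_congr fun I => ?_
    unfold Pool.Agent.Lib_helper28.FROB.F
    exact ENNReal.toReal_ofReal (Real.rpow_nonneg (Nat.cast_nonneg _) _)
  rw [Pool.Agent.Lib_helper28.FROB.zeta_eq, h1]

end HEZ
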