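import Pool.Agent.HEZ.St

/-!
# The dual of a lattice stable under units is stable under units
-/

open NumberField NumberField.InfinitePlace NumberField.Units Module MeasureTheory
open scoped Real nonZeroDivisors ENNReal

namespace HEZ

namespace DUS

lemma lat_dualB {K : Type} [Field K] [NumberField K] {ι : Type} [Fintype ι] [DecidableEq ι]
    (b : Basis ι ℚ K) :
    lat (dualB b) = (Algebra.traceForm ℚ K).dualSubmodule (lat b) := by
  unfold lat dualB
  exact ((Algebra.traceForm ℚ K).dualSubmodule_span_of_basis (R := ℤ)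
    (traceForm_nondegenerate ℚ K) b).symm

end DUS

theorem dus : S_DUS := by
  intro K _ _ ι _ _ b h e y hy
  rw [DUS.lat_dualB, LinearMap.BilinForm.mem_dualSubmodule] at hy ⊢
  intro x hx
  have h1 := hy _ (h e x hx)
  rw [Algebra.traceForm_apply] at h1 ⊢
  have h2 : (((e : 𝓞 K) : K)) * y * x = y * ((((e : 𝓞 K) : K)) * x) := by ring
  rw [h2]
  exact h1

end HEZ
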