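import Pool.Agent.HEZ.St

/-!
# The logarithm of the Euler product is analytic for `Re s > 1`
-/

open NumberField NumberField.InfinitePlace NumberField.Units Module MeasureTheory
open IsDedekindDomain
open scoped Real nonZeroDivisors ENNReal

namespace HEZ

namespace EAN

variable {K : Type} [Field K] [NumberField K]

theorem norm_pos (p : HeightOneSpectrum (𝓞 K)) : 0 < Ideal.absNorm p.asIdeal := by
  rw [Nat.pos_iff_ne_zero]
  intro h
  exact p.ne_bot (Ideal.absNorm_eq_zero_iff.1 h)

end EAN

open EAN in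
theorem ean (h1 : S_EUR) : S_EAN := by
  intro K _ _ s hs
  set z₀ : ℝ := (1 + s.re) / 2 with hz
  have hz0 : 1 < z₀ := by rw [hz]; linarith
  have hz1 : z₀ < s.re := by rw [hz]; linarith
  have hU : IsOpen {s : ℂ | z₀ < s.re} := isOpen_lt continuous_const Complex.continuous_re
  obtain ⟨hsum, -⟩ := h1 K z₀ hz0
  have hd : DifferentiableOn ℂ (fun s : ℂ => ∑' p : HeightOneSpectrum (𝓞 K) × ℕ,
      1 / (((p.2 + 1 : ℕ) : ℂ) * (Ideal.absNorm p.1.asIdeal : ℂ) ^ (((p.2 + 1 : ℕ) : ℂ) * s)))
      {s : ℂ | z₀ < s.re} := by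
    refine Complex.differentiableOn_tsum_of_summable_norm hsum ?_ hU ?_
    · intro p
      have hN : (Ideal.absNorm p.1.asIdeal : ℂ) ≠ 0 := by
        exact_mod_cast (norm_pos p.1).ne'
      have hm : ((p.2 + 1 : ℕ) : ℂ) ≠ 0 := by
        exact_mod_cast p.2.succ_ne_zero
      intro w _
      refine DifferentiableAt.differentiableWithinAt ?_
      refine DifferentiableAt.div (differentiableAt_const _) ?_ ?_
      · refine (differentiableAt_const _).mul ?_
        exact DifferentiableAt.const_cpow ((differentiableAt_const _).mul differentiableAt_id)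
          (Or.inl hN)
      · refine mul_ne_zero hm ?_
        rw [Complex.cpow_ne_zero_iff]
        exact Or.inl hN
    · intro p w hw
      have hN : 0 < (Ideal.absNorm p.1.asIdeal : ℝ) := by
        exact_mod_cast norm_pos p.1
      have hN1 : 1 ≤ (Ideal.absNorm p.1.asIdeal : ℝ) := by
        exact_mod_cast norm_pos p.1
      have hm : (0 : ℝ) < ((p.2 + 1 : ℕ) : ℝ) := by
        exact_mod_cast p.2.succ_pos
      rw [norm_div, norm_one, norm_mul, Complex.norm_natCast]
      have h2 : ‖(Ideal.absNorm p.1.asIdeal : ℂ) ^ (((p.2 + 1 : ℕ) : ℂ) * w)‖ =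
          (Ideal.absNorm p.1.asIdeal : ℝ) ^ (((p.2 + 1 : ℕ) : ℝ) * w.re) := by
        rw [Complex.norm_natCast_cpow_of_pos (norm_pos p.1)]
        congr 1
        simp
      rw [h2]
      refine one_div_le_one_div_of_le (by positivity) ?_
      refine mul_le_mul_of_nonneg_left ?_ hm.le
      refine Real.rpow_le_rpow_of_exponent_le hN1 ?_
      exact mul_le_mul_of_nonneg_left (le_of_lt hw) hm.le
  exact (hd.analyticAt (hU.mem_nhds hz1))

end HEZ
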