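import Pool.Agent.HEZ.St

/-!
# The leading term of the Dedekind zeta function at `s = 0`
-/

open NumberField NumberField.InfinitePlace NumberField.Units Module MeasureTheory IsDedekindDomain
open scoped Real nonZeroDivisors ENNReal

namespace HEZ

namespace END

variable (K : Type) [Field K] [NumberField K]

theorem cst_pos : 0 < cst K := by
  unfold cst
  have := regulator_pos K
  have h2 : (0 : ℝ) < finrank ℚ K := by exact_mod_cast finrank_pos
  positivity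

theorem gam_pos {z : ℝ} (hz : 0 < z) : 0 < gam K z := by
  unfold gam
  have h1 := Real.Gamma_pos_of_pos hz
  have h2 := Real.Gamma_pos_of_pos (half_pos hz)
  positivity

theorem real_point (hMEL : S_MEL) (hCLS : S_CLS) (hDED : S_DED)
    (J : ClassGroup (𝓞 K) → (Ideal (𝓞 K))⁰) (hJ : ∀ C, ClassGroup.mk0 (J C) = C)
    (P : ClassGroup (𝓞 K) → WeakFEPair ℂ) (hP : ∀ C, IsPair K (J C : Ideal (𝓞 K)) (P C))
    (hgam : ∀ z : ℝ, gamC K (z : ℂ) = ((gam K z : ℝ) : ℂ))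
    (Z : ℂ → ℂ) (hZ : ∀ z, Z z = (torsionOrder K * cst K * gamC K z : ℂ)⁻¹ *
      ∑ C, ((Ideal.absNorm (J C : Ideal (𝓞 K)) : ℂ) ^ z * (P C).Λ ((finrank ℚ K : ℂ) * z / 2)))
    (z : ℝ) (hz : 1 < z) : Z z = dedekindZeta K z := by
  have hJ0 : ∀ C, (J C : Ideal (𝓞 K)) ≠ ⊥ := fun C => nonZeroDivisors.coe_ne_zero (J C)
  have hM := fun C => hMEL K (J C : Ideal (𝓞 K)) (hJ0 C) (P C) (hP C) z hz
  -- the sum over all ideals
  have hsum : ∑' I : {I : Ideal (𝓞 K) // I ≠ ⊥}, ENNReal.ofReal ((Ideal.absNorm I.1 : ℝ) ^ (-z)) =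
      ∑ C : ClassGroup (𝓞 K), ENNReal.ofReal (∑' I : Cls K (J C : Ideal (𝓞 K)),
        (Ideal.absNorm I.1 : ℝ) ^ (-z)) := by
    rw [hCLS K J hJ (fun I => ENNReal.ofReal ((Ideal.absNorm I : ℝ) ^ (-z)))]
    refine Finset.sum_congr rfl fun C _ => ?_
    rw [ENNReal.ofReal_tsum_of_nonneg (fun I => by positivity) (hM C).1]
  have hfin : ∑' I : {I : Ideal (𝓞 K) // I ≠ ⊥},
      ENNReal.ofReal ((Ideal.absNorm I.1 : ℝ) ^ (-z)) ≠ ∞ := by
    rw [hsum]
    exact ENNReal.sum_ne_top.mpr fun C _ => ENNReal.ofReal_ne_top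
  have hS : Summable fun I : {I : Ideal (𝓞 K) // I ≠ ⊥} => (Ideal.absNorm I.1 : ℝ) ^ (-z) := by
    have h1 := ENNReal.summable_toReal hfin
    refine h1.congr fun I => ?_
    rw [ENNReal.toReal_ofReal (by positivity)]
  rw [hDED K z hz hS]
  have hreal : ∑' I : {I : Ideal (𝓞 K) // I ≠ ⊥}, (Ideal.absNorm I.1 : ℝ) ^ (-z) =
      ∑ C : ClassGroup (𝓞 K), ∑' I : Cls K (J C : Ideal (𝓞 K)), (Ideal.absNorm I.1 : ℝ) ^ (-z) := by
    have h1 := congrArg ENNReal.toReal hsum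
    rw [ENNReal.tsum_toReal_eq (fun I => ENNReal.ofReal_ne_top),
      ENNReal.toReal_sum (fun C _ => ENNReal.ofReal_ne_top)] at h1
    calc _ = ∑' I : {I : Ideal (𝓞 K) // I ≠ ⊥},
          (ENNReal.ofReal ((Ideal.absNorm I.1 : ℝ) ^ (-z))).toReal :=
          tsum_congr fun I => (ENNReal.toReal_ofReal (by positivity)).symm
      _ = _ := h1
      _ = _ := Finset.sum_congr rfl fun C _ =>
          ENNReal.toReal_ofReal (tsum_nonneg fun I => by positivity)
  rw [hreal, hZ, hgam]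
  have hw : (0 : ℝ) < torsionOrder K := by exact_mod_cast torsionOrder_pos K
  have hc := cst_pos K
  have hg := gam_pos K (z := z) (by linarith)
  have hA : ∀ C, (Ideal.absNorm (J C : Ideal (𝓞 K)) : ℂ) ^ (z : ℂ) *
      (P C).Λ ((finrank ℚ K : ℂ) * z / 2) =
      ((torsionOrder K * cst K * gam K z * ∑' I : Cls K (J C : Ideal (𝓞 K)),
        (Ideal.absNorm I.1 : ℝ) ^ (-z) : ℝ) : ℂ) := by
    intro C
    have h1 : ((finrank ℚ K : ℂ) * z / 2) = (((finrank ℚ K : ℝ) * z / 2 : ℝ) : ℂ) := by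
      push_cast; ring
    have hN : (0 : ℝ) < Ideal.absNorm (J C : Ideal (𝓞 K)) := by
      have := Ideal.absNorm_ne_zero_of_nonZeroDivisors (J C)
      exact_mod_cast Nat.pos_of_ne_zero this
    have h2 : (Ideal.absNorm (J C : Ideal (𝓞 K)) : ℂ) ^ (z : ℂ) =
        (((Ideal.absNorm (J C : Ideal (𝓞 K)) : ℝ) ^ z : ℝ) : ℂ) := by
      rw [Complex.ofReal_cpow hN.le]
      simp
    rw [h1, (hM C).2, h2, ← Complex.ofReal_mul]
    congr 1
    rw [Real.rpow_neg hN.le]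
    have h3 : (Ideal.absNorm (J C : Ideal (𝓞 K)) : ℝ) ^ z ≠ 0 := (Real.rpow_pos_of_pos hN z).ne'
    field_simp
  rw [Finset.sum_congr rfl fun C _ => hA C, ← Complex.ofReal_sum, ← Finset.mul_sum]
  push_cast
  have h1 : ((torsionOrder K : ℂ) * (cst K : ℂ) * (gam K z : ℂ)) ≠ 0 := by
    have : (0 : ℝ) < torsionOrder K * cst K * gam K z := by positivity
    exact_mod_cast this.ne'
  rw [← mul_assoc, inv_mul_cancel₀ h1, one_mul]

end END

theorem the_end (hWFE : S_WFE) (hMEL : S_MEL) (hCLS : S_CLS) (hDED : S_DED) (hDAN : S_DAN)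
    (hEUL : S_EUL) (hLEA : S_LEA) : S_END := by
  intro K _ _
  have hsur := ClassGroup.mk0_surjective (R := 𝓞 K)
  choose J hJ using hsur
  have hJ0 : ∀ C, (J C : Ideal (𝓞 K)) ≠ ⊥ := fun C => nonZeroDivisors.coe_ne_zero (J C)
  choose P hP using fun C => hWFE K (J C : Ideal (𝓞 K)) (hJ0 C)
  obtain ⟨h1, h2, h3, h4⟩ := hLEA K J P hP (fun z => (torsionOrder K * cst K * gamC K z : ℂ)⁻¹ *
      ∑ C, ((Ideal.absNorm (J C : Ideal (𝓞 K)) : ℂ) ^ z * (P C).Λ ((finrank ℚ K : ℂ) * z / 2)))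
      (fun z => rfl)
  set Z : ℂ → ℂ := fun z => (torsionOrder K * cst K * gamC K z : ℂ)⁻¹ *
      ∑ C, ((Ideal.absNorm (J C : Ideal (𝓞 K)) : ℂ) ^ z * (P C).Λ ((finrank ℚ K : ℂ) * z / 2))
    with hZdef
  have hreal := END.real_point K hMEL hCLS hDED J hJ P hP h3 Z (fun z => rfl)
  have key : ∀ s : ℂ, 1 < s.re → Z s = dedekindZeta K s := by
    let U : Set ℂ := {s | 1 < s.re}
    have hU : IsPreconnected U := (convex_halfSpace_re_gt 1).isPreconnected
    have ha : AnalyticOnNhd ℂ Z U := fun s hs => h2 s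
      (fun h => by rw [h] at hs; simp [U] at hs; linarith)
      (fun h => by rw [h] at hs; simp [U] at hs)
    have hb : AnalyticOnNhd ℂ (dedekindZeta K) U := fun s hs => hDAN K s hs
    have hfreq : ∃ᶠ z in nhdsWithin (2 : ℂ) {2}ᶜ, Z z = dedekindZeta K z := by
      rw [Filter.frequently_iff]
      intro V hV
      rw [mem_nhdsWithin] at hV
      obtain ⟨W, hW, h2W, hWV⟩ := hV
      obtain ⟨ε, hε, hball⟩ := Metric.isOpen_iff.mp hW 2 h2W
      refine ⟨((2 + ε / 2 : ℝ) : ℂ), hWV ⟨hball ?_, ?_⟩, hreal _ (by linarith)⟩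
      · rw [Metric.mem_ball, dist_eq_norm]
        have : ((2 + ε / 2 : ℝ) : ℂ) - 2 = ((ε / 2 : ℝ) : ℂ) := by push_cast; ring
        rw [this, Complex.norm_real, Real.norm_of_nonneg (by linarith)]
        linarith
      · intro h
        have h5 : ((2 + ε / 2 : ℝ) : ℂ) = ((2 : ℝ) : ℂ) := by simpa using h
        have := Complex.ofReal_injective h5
        linarith
    have heq := ha.eqOn_of_preconnected_of_frequently_eq hb hU
      (show (2 : ℂ) ∈ U by simp [U]) hfreq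
    exact fun s hs => heq hs
  exact ⟨Z, h1, key, fun s hs => (key s hs).trans (hEUL K s hs), h4⟩

end HEZ
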