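import Pool.Agent.HEZ.St

/-!
# HEZ, module EUL: the Euler product for complex `s` (helper10)
-/

open NumberField NumberField.InfinitePlace NumberField.Units Module MeasureTheory IsDedekindDomain
open scoped Real nonZeroDivisors ENNReal Topology

namespace HEZ

namespace EUL

variable (K : Type) [Field K] [NumberField K]

/-- the terms at a real point -/
lemma term_real (z : ℝ) (p : HeightOneSpectrum (𝓞 K) × ℕ) :
    1 / (((p.2 + 1 : ℕ) : ℂ) * (Ideal.absNorm p.1.asIdeal : ℂ) ^ (((p.2 + 1 : ℕ) : ℂ) * (z : ℂ))) =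
      ((1 / (((p.2 + 1 : ℕ) : ℝ) *
        (Ideal.absNorm p.1.asIdeal : ℝ) ^ (((p.2 + 1 : ℕ) : ℝ) * z)) : ℝ) : ℂ) := by
  rw [Complex.ofReal_div, Complex.ofReal_one, Complex.ofReal_mul,
    Complex.ofReal_cpow (Nat.cast_nonneg _), Complex.ofReal_mul, Complex.ofReal_natCast,
    Complex.ofReal_natCast]

/-- the set of real points accumulates at `2` -/
lemma freq (P : ℂ → Prop) (h : ∀ z : ℝ, 1 < z → P z) : ∃ᶠ s in 𝓝[≠] (2 : ℂ), P s := by
  have h1 : Filter.Tendsto (fun x : ℝ => (x : ℂ)) (𝓝[≠] (2 : ℝ)) (𝓝[≠] (2 : ℂ)) := by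
    refine tendsto_nhdsWithin_of_tendsto_nhds_of_eventually_within _ ?_ ?_
    · have h2 := (Complex.continuous_ofReal.tendsto (2 : ℝ)).mono_left
        (nhdsWithin_le_nhds (s := {2}ᶜ))
      simpa using h2
    · filter_upwards [self_mem_nhdsWithin] with x hx
      intro h3
      apply hx
      have h4 : (x : ℂ) = ((2 : ℝ) : ℂ) := by
        rw [Set.mem_singleton_iff] at h3
        rw [h3]
        norm_num
      exact Complex.ofReal_injective h4
  refine h1.frequently (Filter.Eventually.frequently ?_)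
  have h5 : ∀ᶠ x : ℝ in 𝓝[≠] (2 : ℝ), 1 < x :=
    nhdsWithin_le_nhds (lt_mem_nhds (by norm_num : (1 : ℝ) < 2))
  exact h5.mono fun x hx => h x hx

end EUL

open EUL in
theorem eul (h1 : S_EUR) (h2 : S_EAN) (h3 : S_DAN) : S_EUL := by
  intro K _ _ s hs
  have hU : IsPreconnected {s : ℂ | 1 < s.re} := (convex_halfSpace_re_gt 1).isPreconnected
  have hf : AnalyticOnNhd ℂ (dedekindZeta K) {s : ℂ | 1 < s.re} := fun z hz => h3 K z hz
  have hg : AnalyticOnNhd ℂ (fun s : ℂ => Complex.exp (∑' p : HeightOneSpectrum (𝓞 K) × ℕ,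
      1 / (((p.2 + 1 : ℕ) : ℂ) *
        (Ideal.absNorm p.1.asIdeal : ℂ) ^ (((p.2 + 1 : ℕ) : ℂ) * s)))) {s : ℂ | 1 < s.re} :=
    fun z hz => (h2 K z hz).cexp
  have h4 := hf.eqOn_of_preconnected_of_frequently_eq hg hU
    (show (2 : ℂ) ∈ {s : ℂ | 1 < s.re} by norm_num) (freq _ fun z hz => ?_)
  · exact h4 hs
  · rw [(h1 K z hz).2, Complex.ofReal_exp, Complex.ofReal_tsum]
    congr 1
    exact tsum_congr fun p => (term_real K z p).symm

end HEZ
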