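import Pool.Agent.HEZ.St
import Pool.Agent.Lib_helper28.FROB.Zeta

/-!
# HEZ, module EUR: the Euler product of the Dedekind zeta function at real points
-/

set_option autoImplicit false

open NumberField IsDedekindDomain Ideal Filter Topology
open scoped ENNReal

namespace HEZ

namespace EUR

open Pool.Agent.Lib_helper28.FROB

variable {K : Type} [Field K] [NumberField K]

theorem lower_aux (s : ℝ) (t : Finset (HeightOneSpectrum (𝓞 K))) :
    ∏ v ∈ t, (1 - F s v.asIdeal)⁻¹ ≤ ∑' I : AS t, F s I.1 := by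
  classical
  induction t using Finset.induction_on with
  | empty =>
    let e : AS (∅ : Finset (HeightOneSpectrum (𝓞 K))) :=
      ⟨1, one_ne_zero, fun v hv => absurd (isUnit_of_dvd_one hv) v.prime.not_isUnit⟩
    rw [Finset.prod_empty, ← F_one (K := K) s]
    exact ENNReal.le_tsum (f := fun I : AS (∅ : Finset (HeightOneSpectrum (𝓞 K))) => F s I.1) e
  | insert v t hv ih =>
    rw [Finset.prod_insert hv]
    let φ : AS t × ℕ → AS (insert v t) := fun p => ⟨p.1.1 * v.asIdeal ^ p.2, by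
      refine ⟨?_, ?_⟩
      · exact mul_ne_zero (M₀ := Ideal (𝓞 K)) p.1.2.1 (pow_ne_zero _ v.ne_bot)
      · intro w hw
        rcases w.prime.dvd_or_dvd hw with h | h
        · exact Finset.mem_insert_of_mem (p.1.2.2 w h)
        · rw [dvd_asIdeal (w.prime.dvd_of_dvd_pow h)]
          exact Finset.mem_insert_self _ _⟩
    have hφ : Function.Injective φ := by
      rintro ⟨J, k⟩ ⟨J', k'⟩ h
      have h1 : J.1 * v.asIdeal ^ k = J'.1 * v.asIdeal ^ k' := congrArg Subtype.val h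
      have hnd : ∀ J : AS t, ¬ v.asIdeal ∣ J.1 := fun J hd => hv (J.2.2 v hd)
      have key : ∀ (J J' : AS t) (k k' : ℕ), J.1 * v.asIdeal ^ k = J'.1 * v.asIdeal ^ k' →
          k ≤ k' := by
        intro J J' k k' h1
        by_contra hlt
        push Not at hlt
        obtain ⟨d, rfl⟩ : ∃ d, k = k' + 1 + d := ⟨k - k' - 1, by omega⟩
        have h2 : J.1 * v.asIdeal ^ (d + 1) = J'.1 := by
          have h3 : (J.1 * v.asIdeal ^ (d + 1)) * v.asIdeal ^ k' = J'.1 * v.asIdeal ^ k' := by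
            rw [← h1, mul_assoc, ← pow_add]
            congr 2
            omega
          exact mul_right_cancel₀ (pow_ne_zero (M₀ := Ideal (𝓞 K)) _ v.ne_bot) h3
        apply hnd J'
        rw [← h2, pow_succ, ← mul_assoc]
        exact Dvd.intro_left _ rfl
      have hk : k = k' := le_antisymm (key J J' k k' h1) (key J' J k' k h1.symm)
      subst hk
      have h2 : J.1 = J'.1 := mul_right_cancel₀ (pow_ne_zero (M₀ := Ideal (𝓞 K)) _ v.ne_bot) h1
      rw [Subtype.ext h2]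
    refine le_trans ?_ (ENNReal.tsum_comp_le_tsum_of_injective hφ _)
    have h2 : ∀ p : AS t × ℕ, F s (φ p).1 = F s p.1.1 * F s v.asIdeal ^ p.2 := by
      intro p
      show F s (p.1.1 * v.asIdeal ^ p.2) = _
      rw [F_mul, F_pow]
    rw [tsum_congr h2, ENNReal.tsum_prod']
    simp_rw [ENNReal.tsum_mul_left, ENNReal.tsum_mul_right, ENNReal.tsum_geometric]
    rw [mul_comm]
    gcongr

theorem lower (s : ℝ) (t : Finset (HeightOneSpectrum (𝓞 K))) :
    ∏ v ∈ t, (1 - F s v.asIdeal)⁻¹ ≤ Z K s := by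
  refine (lower_aux s t).trans ?_
  let ψ : AS t → {I : Ideal (𝓞 K) // I ≠ ⊥} := fun I => ⟨I.1, I.2.1⟩
  have hψ : Function.Injective ψ := by
    intro a b h
    exact Subtype.ext (congrArg (fun I : {I : Ideal (𝓞 K) // I ≠ ⊥} => I.1) h)
  exact ENNReal.tsum_comp_le_tsum_of_injective hψ (fun I : {I : Ideal (𝓞 K) // I ≠ ⊥} => F s I.1)

/-- the terms of the logarithm -/
noncomputable def tm (K : Type) [Field K] [NumberField K] (z : ℝ)
    (p : HeightOneSpectrum (𝓞 K) × ℕ) : ℝ :=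
  1 / (((p.2 + 1 : ℕ) : ℝ) * (Ideal.absNorm p.1.asIdeal : ℝ) ^ (((p.2 + 1 : ℕ) : ℝ) * z))

lemma tm_eq (z : ℝ) (p : HeightOneSpectrum (𝓞 K) × ℕ) :
    tm K z p = x z p.1 ^ (p.2 + 1) / ((p.2 : ℝ) + 1) := by
  have h0 : (0 : ℝ) ≤ absNorm p.1.asIdeal := Nat.cast_nonneg _
  have h1 : (0 : ℝ) < absNorm p.1.asIdeal := by linarith [norm_ge' p.1]
  unfold tm x
  rw [← Real.rpow_natCast, ← Real.rpow_mul h0]
  have h2 : -z * ((p.2 + 1 : ℕ) : ℝ) = -(((p.2 + 1 : ℕ) : ℝ) * z) := by ring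
  rw [h2, Real.rpow_neg h0]
  have h3 : (0 : ℝ) < (absNorm p.1.asIdeal : ℝ) ^ (((p.2 + 1 : ℕ) : ℝ) * z) :=
    Real.rpow_pos_of_pos h1 _
  push_cast
  field_simp

lemma x_lt {z : ℝ} (hz : 1 < z) (v : HeightOneSpectrum (𝓞 K)) : x z v < 1 := by
  linarith [x_le hz.le v]

lemma tm_nonneg (z : ℝ) (p : HeightOneSpectrum (𝓞 K) × ℕ) : 0 ≤ tm K z p := by
  rw [tm_eq]
  have := (x_pos z p.1).le
  positivity

lemma tm_le {z : ℝ} (hz : 1 < z) (p : HeightOneSpectrum (𝓞 K) × ℕ) :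
    tm K z p ≤ x z p.1 * (1 / 2) ^ p.2 := by
  rw [tm_eq]
  have h1 := (x_pos z p.1).le
  have h2 : x z p.1 ^ p.2 ≤ (1 / 2) ^ p.2 := pow_le_pow_left₀ h1 (x_le hz.le p.1) _
  calc x z p.1 ^ (p.2 + 1) / ((p.2 : ℝ) + 1) ≤ x z p.1 ^ (p.2 + 1) := by
        apply div_le_self (by positivity)
        have : (0 : ℝ) ≤ p.2 := Nat.cast_nonneg _
        linarith
    _ = x z p.1 * x z p.1 ^ p.2 := by ring
    _ ≤ x z p.1 * (1 / 2) ^ p.2 := mul_le_mul_of_nonneg_left h2 h1

lemma summable_tm {z : ℝ} (hz : 1 < z) : Summable (tm K z) := by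
  have h1 : Summable (fun v : HeightOneSpectrum (𝓞 K) => x z v) := summable_x hz
  have h2 : Summable (fun n : ℕ => ((1 : ℝ) / 2) ^ n) := summable_geometric_two
  have h3 : Summable (fun p : HeightOneSpectrum (𝓞 K) × ℕ => x z p.1 * (1 / 2) ^ p.2) :=
    h1.mul_of_nonneg h2 (fun v => (x_pos z v).le) (fun n => by positivity)
  exact Summable.of_nonneg_of_le (tm_nonneg z) (tm_le hz) h3

lemma tsum_tm {z : ℝ} (hz : 1 < z) (v : HeightOneSpectrum (𝓞 K)) :
    HasSum (fun m : ℕ => tm K z (v, m)) (-Real.log (1 - x z v)) := by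
  have h1 : |x z v| < 1 := by
    rw [abs_of_pos (x_pos z v)]
    exact x_lt hz v
  have h2 := Real.hasSum_pow_div_log_of_abs_lt_one h1
  refine h2.congr_fun ?_
  intro m
  exact tm_eq z (v, m)

lemma hasSum_log {z : ℝ} (hz : 1 < z) :
    HasSum (fun v : HeightOneSpectrum (𝓞 K) => -Real.log (1 - x z v)) (∑' p, tm K z p) :=
  (summable_tm hz).hasSum.prod_fiberwise (tsum_tm hz)

lemma F_inv {z : ℝ} (hz : 1 < z) (v : HeightOneSpectrum (𝓞 K)) :
    (1 - F z v.asIdeal)⁻¹ = ENNReal.ofReal (Real.exp (-Real.log (1 - x z v))) := by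
  have h1 : 0 < 1 - x z v := by linarith [x_lt hz v]
  rw [F_eq, Real.exp_neg, Real.exp_log h1, ENNReal.ofReal_inv_of_pos h1, ENNReal.ofReal_sub _
    (x_pos z v).le, ENNReal.ofReal_one]

lemma prod_eq {z : ℝ} (hz : 1 < z) (t : Finset (HeightOneSpectrum (𝓞 K))) :
    ∏ v ∈ t, (1 - F z v.asIdeal)⁻¹ =
      ENNReal.ofReal (Real.exp (∑ v ∈ t, -Real.log (1 - x z v))) := by
  rw [Real.exp_sum, ENNReal.ofReal_prod_of_nonneg fun v _ => (Real.exp_pos _).le]
  exact Finset.prod_congr rfl fun v _ => F_inv hz v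

lemma log_nonneg {z : ℝ} (hz : 1 < z) (v : HeightOneSpectrum (𝓞 K)) :
    0 ≤ -Real.log (1 - x z v) := by
  have h1 : 0 < 1 - x z v := by linarith [x_lt hz v]
  have h2 := Real.log_nonpos h1.le (by linarith [x_pos z v])
  linarith

theorem Z_exp {z : ℝ} (hz : 1 < z) : Z K z = ENNReal.ofReal (Real.exp (∑' p, tm K z p)) := by
  apply le_antisymm
  · refine euler_upper z _ fun t => ?_
    rw [prod_eq hz]
    apply ENNReal.ofReal_le_ofReal
    apply Real.exp_le_exp.2
    exact sum_le_hasSum t (fun v _ => log_nonneg hz v) (hasSum_log hz)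
  · have h1 : Tendsto (fun t : Finset (HeightOneSpectrum (𝓞 K)) =>
        ENNReal.ofReal (Real.exp (∑ v ∈ t, -Real.log (1 - x z v)))) atTop
        (𝓝 (ENNReal.ofReal (Real.exp (∑' p, tm K z p)))) :=
      ENNReal.tendsto_ofReal ((Real.continuous_exp.tendsto _).comp (hasSum_log hz))
    refine le_of_tendsto h1 (Eventually.of_forall fun t => ?_)
    rw [← prod_eq hz]
    exact lower z t

end EUR

open Pool.Agent.Lib_helper28.FROB in
/-- The Euler product at real points. -/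
theorem eur : S_EUR := by
  intro K _ _ z hz
  refine ⟨EUR.summable_tm hz, ?_⟩
  rw [zeta_eq, EUR.Z_exp hz, ENNReal.toReal_ofReal (Real.exp_pos _).le]
  rfl

end HEZ
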