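import Pool.Agent.HEZ.St

/-!
# The functional equation of the averaged theta series
-/

open NumberField NumberField.InfinitePlace NumberField.Units Module MeasureTheory IsDedekindDomain
open scoped Real nonZeroDivisors ENNReal

namespace HEZ

namespace FEQ

theorem integral_box_reflect {r : ℕ} (g : (Fin r → ℝ) → ℝ) :
    ∫ u in Set.Icc (0 : Fin r → ℝ) 1, g (1 - u) = ∫ u in Set.Icc (0 : Fin r → ℝ) 1, g u := by
  have hm : MeasurableSet (Set.Icc (0 : Fin r → ℝ) 1) := measurableSet_Icc
  rw [← integral_indicator hm, ← integral_indicator hm,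
    ← integral_sub_left_eq_self (fun u => (Set.Icc (0 : Fin r → ℝ) 1).indicator g u) volume 1]
  congr 1
  funext u
  by_cases h : u ∈ Set.Icc (0 : Fin r → ℝ) 1
  · have h' : 1 - u ∈ Set.Icc (0 : Fin r → ℝ) 1 :=
      ⟨sub_nonneg.2 h.2, sub_le_self _ h.1⟩
    rw [Set.indicator_of_mem h, Set.indicator_of_mem h']
  · have h' : 1 - u ∉ Set.Icc (0 : Fin r → ℝ) 1 := by
      intro h1
      refine h ⟨?_, sub_nonneg.1 h1.1⟩
      have h2 : 1 - u ≤ 1 := h1.2
      exact (sub_le_self_iff _).1 h2
    rw [Set.indicator_of_notMem h, Set.indicator_of_notMem h']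

theorem yy_pos (K : Type) [Field K] [NumberField K] (u : Fin (rank K) → ℝ)
    (w : InfinitePlace K) : 0 < yy K u w := Real.exp_pos _

end FEQ

open FEQ in
theorem feq (h1 : HEZ.S_THI) (h2 : HEZ.S_DUS) (h3 : HEZ.S_YYP) (h4 : HEZ.S_UPE) : HEZ.S_FEQ := by
  intro K _ _ ι _ _ b hb
  obtain ⟨-, ε, hε, hth⟩ := h1 K ι b
  obtain ⟨hy1, hy2, -, -⟩ := h3 K
  refine ⟨ε, hε, fun t ht => ?_⟩
  have key : ∀ u : Fin (rank K) → ℝ,
      theta K (lat b) (fun w => 1 / t * yy K u w) =
        ε * t ^ ((finrank ℚ K : ℝ) / 2) *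
          theta K (lat (dualB b)) (fun w => t * yy K (1 - u) w) := by
    intro u
    have hc : ∀ w, 0 < t * yy K (-u) w := fun w => mul_pos ht (yy_pos K (-u) w)
    have h5 := hth (fun w => t * yy K (-u) w) hc
    have h6 : (fun w => t * yy K (-u) w)⁻¹ = fun w => 1 / t * yy K u w := by
      funext w
      have h7 := congrFun (hy2 u) w
      simp only [Pi.inv_apply] at h7 ⊢
      rw [h7, mul_inv, inv_inv, one_div]
    have h8 : ∏ w : InfinitePlace K, (t * yy K (-u) w) ^ ((w.mult : ℝ) / 2) =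
        t ^ ((finrank ℚ K : ℝ) / 2) := by
      have h9 : ∀ w : InfinitePlace K, (t * yy K (-u) w) ^ ((w.mult : ℝ) / 2) =
          t ^ ((w.mult : ℝ) / 2) * yy K (-u) w ^ ((w.mult : ℝ) / 2) := fun w =>
        Real.mul_rpow ht.le (yy_pos K (-u) w).le
      rw [Finset.prod_congr rfl fun w _ => h9 w, Finset.prod_mul_distrib, hy1 (-u), mul_one,
        ← Real.rpow_sum_of_pos ht, ← Finset.sum_div]
      congr 2
      rw [← NumberField.InfinitePlace.sum_mult_eq]
      push_cast
      rfl
    have h10 : theta K (lat (dualB b)) (fun w => t * yy K (1 - u) w) =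
        theta K (lat (dualB b)) (fun w => t * yy K (-u) w) := by
      have h11 := h4 K (lat (dualB b)) (h2 K ι b hb) (-u) (fun _ => 1) t
      rw [← h11]
      congr 1
      funext w
      congr 2
      funext i
      simp only [Pi.sub_apply, Pi.one_apply, Pi.neg_apply, Int.cast_one]
      ring
    rw [h6, h8] at h5
    rw [h5, h10]
  unfold ff
  simp only [key]
  rw [integral_const_mul, integral_box_reflect (fun u =>
    theta K (lat (dualB b)) (fun w => t * yy K u w))]

end HEZ
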