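import Pool.Agent.HEZ.St

/-!
# HEZ_FIN: integrability, monotonicity and decay of the averaged theta series
-/

open NumberField NumberField.InfinitePlace NumberField.Units Module MeasureTheory IsDedekindDomain
open scoped Real nonZeroDivisors ENNReal

namespace HEZ

namespace FIN

lemma yy_pos (K : Type) [Field K] [NumberField K] (u : Fin (rank K) → ℝ) (w : InfinitePlace K) :
    0 < yy K u w := Real.exp_pos _

lemma box_vol (r : ℕ) : volume (Set.Icc (0 : Fin r → ℝ) 1) = 1 := by
  rw [Real.volume_Icc_pi]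
  simp

lemma box_const (r : ℕ) (c : ℝ) : ∫ _ in Set.Icc (0 : Fin r → ℝ) 1, c = c := by
  rw [setIntegral_const, Measure.real, box_vol]
  simp

lemma box_int (r : ℕ) (c : ℝ) :
    IntegrableOn (fun _ : Fin r → ℝ => c) (Set.Icc (0 : Fin r → ℝ) 1) := by
  refine integrableOn_const (hs := ?_)
  rw [box_vol]
  exact ENNReal.one_ne_top

end FIN

open FIN in
theorem fin (h1 : S_YYP) (_ : S_THI) (h3 : S_THM) (h4 : S_THD) (h5 : S_MEA) : S_FIN := by
  intro K _ _ ι _ _ b
  obtain ⟨-, -, -, c0, hc0, hc⟩ := h1 K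
  have hbd : ∀ t : ℝ, 0 < t → ∀ u ∈ Set.Icc (0 : Fin (rank K) → ℝ) 1,
      theta K (lat b) (fun w => t * yy K u w) ≤ theta K (lat b) (fun _ => t * c0) := by
    intro t ht u hu
    exact (h3 K ι b _ _ (fun w => mul_pos ht hc0)
      (fun w => mul_le_mul_of_nonneg_left (hc u hu w) ht.le)).2
  have hone : ∀ t : ℝ, 0 < t → ∀ u, 1 ≤ theta K (lat b) (fun w => t * yy K u w) := by
    intro t ht u
    exact (h3 K ι b _ _ (fun w => mul_pos ht (yy_pos K u w)) (fun w => le_rfl)).1
  have hint : ∀ t : ℝ, 0 < t → IntegrableOn (fun u => theta K (lat b) (fun w => t * yy K u w))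
      (Set.Icc (0 : Fin (rank K) → ℝ) 1) := by
    intro t ht
    refine Measure.integrableOn_of_bounded (M := theta K (lat b) (fun _ => t * c0)) ?_ ?_ ?_
    · rw [box_vol]
      exact ENNReal.one_ne_top
    · exact (h5 K ι b t ht).aestronglyMeasurable
    · rw [ae_restrict_iff' measurableSet_Icc]
      refine Filter.Eventually.of_forall fun u hu => ?_
      rw [Real.norm_eq_abs, abs_of_nonneg (by linarith [hone t ht u])]
      exact hbd t ht u hu
  refine ⟨hint, ?_, ?_, ?_⟩
  · intro t ht t' ht' htt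
    unfold ff
    refine setIntegral_mono (hint t' ht') (hint t ht) fun u => ?_
    exact (h3 K ι b _ _ (fun w => mul_pos ht (yy_pos K u w))
      (fun w => mul_le_mul_of_nonneg_right htt (yy_pos K u w).le)).2
  · intro t ht
    unfold ff
    rw [← box_const (rank K) 1]
    exact setIntegral_mono (box_int _ _) (hint t ht) fun u => hone t ht u
  · obtain ⟨C, δ, hδ, hC⟩ := h4 K ι b c0 hc0
    refine ⟨C, δ, hδ, fun t ht => ?_⟩
    have ht0 : 0 < t := by linarith
    rw [sub_le_iff_le_add, ← box_const (rank K) (C * Real.exp (-δ * t) + 1)]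
    unfold ff
    refine setIntegral_mono_on (hint t ht0) (box_int _ _) measurableSet_Icc fun u hu => ?_
    have := hC t ht (yy K u) (hc u hu)
    linarith

end HEZ
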