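import Pool.Agent.HEZ.St

/-!
# HEZ, module GAM: the Gamma integral in logarithmic coordinates (helper56)
-/

set_option autoImplicit false

open MeasureTheory Set
open scoped ENNReal

namespace HEZ

/-- the Gamma integral in logarithmic coordinates -/
theorem gam_thm : S_GAM := by
  intro a b ha hb
  have h1 : ∫ t in Ioi (0 : ℝ), t ^ (b - 1) * Real.exp (-(a * t)) = (1 / a) ^ b * Real.Gamma b :=
    Real.integral_rpow_mul_exp_neg_mul_Ioi hb ha
  have hpos : 0 < (1 / a) ^ b * Real.Gamma b :=
    mul_pos (Real.rpow_pos_of_pos (one_div_pos.2 ha) _) (Real.Gamma_pos_of_pos hb)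
  have hint : Integrable (fun t : ℝ => t ^ (b - 1) * Real.exp (-(a * t)))
      (volume.restrict (Ioi (0 : ℝ))) := by
    by_contra h
    rw [integral_undef h] at h1
    exact hpos.ne h1
  have hnn : 0 ≤ᵐ[volume.restrict (Ioi (0 : ℝ))]
      fun t : ℝ => t ^ (b - 1) * Real.exp (-(a * t)) := by
    filter_upwards [ae_restrict_mem measurableSet_Ioi] with t ht
    exact mul_nonneg (Real.rpow_nonneg (le_of_lt ht) _) (Real.exp_pos _).le
  have h2 := ofReal_integral_eq_lintegral_ofReal hint hnn
  rw [h1] at h2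
  have himg : Real.exp '' univ = Ioi (0 : ℝ) := by
    rw [image_univ, Real.range_exp]
  have h3 := lintegral_image_eq_lintegral_abs_deriv_mul (s := univ) (f := Real.exp)
    (f' := Real.exp) MeasurableSet.univ
    (fun x _ => (Real.hasDerivAt_exp x).hasDerivWithinAt) (Real.exp_injective.injOn)
    (fun t : ℝ => ENNReal.ofReal (t ^ (b - 1) * Real.exp (-(a * t))))
  rw [himg, Measure.restrict_univ] at h3
  have h4 : a ^ (-b) = (1 / a) ^ b := by
    rw [one_div, Real.inv_rpow ha.le, Real.rpow_neg ha.le]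
  rw [h4, h2, h3]
  refine lintegral_congr fun s => ?_
  rw [abs_of_pos (Real.exp_pos s), ← ENNReal.ofReal_mul (Real.exp_pos s).le,
    ← Real.exp_mul, ← Real.exp_add, ← Real.exp_add]
  congr 2
  ring

end HEZ
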