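import Pool.Agent.HEZ.St

/-!
# The determinant of the Gram matrix
-/

open NumberField NumberField.InfinitePlace NumberField.Units Module MeasureTheory
open scoped Real nonZeroDivisors ENNReal ComplexConjugate

namespace HEZ

namespace GDE

variable {K : Type} [Field K] [NumberField K]

open Classical in
lemma sum_fiber (F : (K →+* ℂ) → ℝ) (G : InfinitePlace K → ℝ)
    (h : ∀ φ, F φ = G (InfinitePlace.mk φ)) :
    ∑ φ, F φ = ∑ w, (w.mult : ℝ) * G w := by
  rw [← Finset.sum_fiberwise Finset.univ (fun φ : K →+* ℂ => InfinitePlace.mk φ) F]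
  refine Finset.sum_congr rfl fun w _ => ?_
  rw [Finset.sum_congr rfl (g := fun _ => G w)]
  · rw [Finset.sum_const, card_filter_mk_eq, nsmul_eq_mul]
  · intro φ hφ
    rw [h, (Finset.mem_filter.1 hφ).2]

open Classical in
lemma prod_fiber (c : InfinitePlace K → ℝ) :
    ∏ φ : K →+* ℂ, c (InfinitePlace.mk φ) = ∏ w, c w ^ w.mult := by
  rw [← Finset.prod_fiberwise Finset.univ (fun φ : K →+* ℂ => InfinitePlace.mk φ)]
  refine Finset.prod_congr rfl fun w _ => ?_
  rw [Finset.prod_congr rfl (g := fun _ => c w)]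
  · rw [Finset.prod_const, card_filter_mk_eq]
  · intro φ hφ
    rw [(Finset.mem_filter.1 hφ).2]

omit [NumberField K] in
/-- The real part of `φ x * conj (φ y)` depends only on the place. -/
lemma re_mk (x y : K) (φ : K →+* ℂ) :
    (φ x * conj (φ y)).re =
      ((InfinitePlace.mk φ).embedding x * conj ((InfinitePlace.mk φ).embedding y)).re := by
  have h : InfinitePlace.mk φ = InfinitePlace.mk ((InfinitePlace.mk φ).embedding) :=
    (mk_embedding _).symm
  rcases mk_eq_iff.1 h with h | h
  · rw [← h]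
  · rw [← h]
    simp only [ComplexEmbedding.conjugate_coe_eq, Complex.conj_conj]
    simp [Complex.mul_re]

lemma im_zero (c : InfinitePlace K → ℝ) (x y : K) :
    ∑ φ : K →+* ℂ, c (InfinitePlace.mk φ) * (φ x * conj (φ y)).im = 0 := by
  have h := Equiv.sum_comp (ComplexEmbedding.involutive_conjugate K).toPerm
    (fun φ : K →+* ℂ => c (InfinitePlace.mk φ) * (φ x * conj (φ y)).im)
  have h2 : ∀ φ : K →+* ℂ, c (InfinitePlace.mk (ComplexEmbedding.conjugate φ)) *
      (ComplexEmbedding.conjugate φ x * conj (ComplexEmbedding.conjugate φ y)).im =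
      - (c (InfinitePlace.mk φ) * (φ x * conj (φ y)).im) := by
    intro φ
    rw [mk_conjugate_eq]
    simp only [ComplexEmbedding.conjugate_coe_eq, Complex.conj_conj]
    simp [Complex.mul_im]
    ring
  simp only [Function.Involutive.coe_toPerm] at h
  rw [Finset.sum_congr rfl (fun φ _ => h2 φ), Finset.sum_neg_distrib] at h
  linarith

/-- The entries of the Gram matrix as sums over the embeddings. -/
lemma gram_apply {ι : Type} (b : Basis ι ℚ K) (c : InfinitePlace K → ℝ) (i j : ι) :
    ((gram b c i j : ℝ) : ℂ) =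
      ∑ φ : K →+* ℂ, φ (b i) * ((c (InfinitePlace.mk φ) : ℝ) : ℂ) * conj (φ (b j)) := by
  apply Complex.ext
  · rw [Complex.ofReal_re, Complex.re_sum]
    unfold gram
    rw [Matrix.of_apply]
    rw [← sum_fiber (fun φ : K →+* ℂ => (φ (b i) * ((c (InfinitePlace.mk φ) : ℝ) : ℂ) *
      conj (φ (b j))).re)]
    intro φ
    rw [← re_mk]
    simp [Complex.mul_re]
    ring
  · rw [Complex.ofReal_im, Complex.im_sum, ← im_zero c (b i) (b j)]
    refine Finset.sum_congr rfl fun φ _ => ?_
    simp [Complex.mul_im]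
    ring

end GDE

theorem gde : S_GDE := by
  classical
  intro K _ _ ι _ _ b
  have hcard : Fintype.card ι = Fintype.card (K →ₐ[ℚ] ℂ) := by
    rw [AlgHom.card, ← Module.finrank_eq_card_basis b]
  obtain ⟨e⟩ : Nonempty (ι ≃ (K →ₐ[ℚ] ℂ)) := ⟨Fintype.equivOfCardEq hcard⟩
  set e' : ι ≃ (K →+* ℂ) := e.trans (RingHom.equivRatAlgHom K ℂ).symm with he'
  set B : Matrix ι ι ℂ := Matrix.of fun i k => e' k (b i) with hB
  have hBe : B = Algebra.embeddingsMatrixReindex ℚ ℂ b e := by
    ext i k
    rfl
  have hdet : B.det ≠ 0 := by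
    intro h0
    have h1 := Algebra.discr_eq_det_embeddingsMatrixReindex_pow_two ℚ ℂ b e
    rw [← hBe, h0] at h1
    have h2 := Algebra.discr_not_zero_of_basis ℚ b
    apply h2
    apply (algebraMap ℚ ℂ).injective
    rw [h1]
    simp
  refine ⟨Complex.normSq B.det, Complex.normSq_pos.2 hdet, fun c _ => ?_⟩
  have hmat : (gram b c).map ((↑) : ℝ → ℂ) =
      B * Matrix.diagonal (fun k => ((c (InfinitePlace.mk (e' k)) : ℝ) : ℂ)) *
        (B.map conj).transpose := by
    ext i j
    rw [Matrix.map_apply, GDE.gram_apply, Matrix.mul_apply, ← Equiv.sum_comp e']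
    refine Finset.sum_congr rfl fun k _ => ?_
    rw [Matrix.mul_diagonal]
    rfl
  have h1 : (((gram b c).det : ℝ) : ℂ) = ((gram b c).map ((↑) : ℝ → ℂ)).det := by
    have := RingHom.map_det Complex.ofRealHom (gram b c)
    exact this
  have h2 : (B.map conj).det = conj B.det := by
    have := RingHom.map_det (starRingEnd ℂ) B
    rw [this]
    rfl
  have h3 : (((gram b c).det : ℝ) : ℂ) =
      ((Complex.normSq B.det * ∏ w, c w ^ w.mult : ℝ) : ℂ) := by
    rw [h1, hmat, Matrix.det_mul, Matrix.det_mul, Matrix.det_diagonal, Matrix.det_transpose, h2]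
    rw [← GDE.prod_fiber c, ← Equiv.prod_comp e']
    push_cast
    rw [← Complex.mul_conj]
    ring
  exact_mod_cast h3

end HEZ
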