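import Pool.Agent.HEZ.St

/-!
# HEZ, module GFT (helper20): the Fourier transform of a Gaussian on `ℝ^n`
-/

open MeasureTheory Matrix
open scoped Real ComplexOrder MatrixOrder

namespace HEZ

namespace GFT

variable {ι : Type} [Fintype ι] [DecidableEq ι]

/-- factorisation of a positive definite matrix -/
lemma fac (A : Matrix ι ι ℝ) (hA : A.PosDef) :
    ∃ B : Matrix ι ι ℝ, A = Bᵀ * B ∧ B.det ≠ 0 := by
  obtain ⟨B, hB⟩ := CStarAlgebra.nonneg_iff_eq_star_mul_self.mp hA.posSemidef.nonneg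
  have h1 : A = Bᵀ * B := by
    rw [hB, star_eq_conjTranspose, conjTranspose_eq_transpose_of_trivial]
  refine ⟨B, h1, fun h0 => ?_⟩
  have h2 := hA.det_pos
  rw [h1, det_mul, h0, mul_zero] at h2
  exact lt_irrefl _ h2

omit [DecidableEq ι] in
/-- the standard Gaussian -/
lemma std (c : ι → ℝ) : ∫ y : ι → ℝ, Complex.exp (-2 * π * Complex.I *
    (∑ i, (c i : ℂ) * (y i : ℂ))) * ((Real.exp (-π * ∑ i, y i ^ 2) : ℝ) : ℂ) =
      ((Real.exp (-π * ∑ i, c i ^ 2) : ℝ) : ℂ) := by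
  have h := GaussianFourier.integral_cexp_neg_mul_sum_add (ι := ι) (b := (π : ℂ))
    (by simpa using Real.pi_pos) (fun i => -2 * π * Complex.I * (c i : ℂ))
  have hpi : (π : ℂ) ≠ 0 := by exact_mod_cast Real.pi_ne_zero
  rw [div_self hpi, Complex.one_cpow, one_mul] at h
  have h1 : ∀ y : ι → ℝ, Complex.exp (-2 * π * Complex.I *
      (∑ i, (c i : ℂ) * (y i : ℂ))) * ((Real.exp (-π * ∑ i, y i ^ 2) : ℝ) : ℂ) =
      Complex.exp (-(π : ℂ) * ∑ i, (y i : ℂ) ^ 2 +
        ∑ i, -2 * π * Complex.I * (c i : ℂ) * (y i : ℂ)) := by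
    intro y
    rw [Complex.ofReal_exp, ← Complex.exp_add]
    congr 1
    push_cast
    rw [Finset.mul_sum, add_comm]
    congr 1
    exact Finset.sum_congr rfl fun i _ => by ring
  simp_rw [h1]
  rw [h, Complex.ofReal_exp]
  congr 1
  push_cast
  rw [Finset.mul_sum, Finset.sum_div]
  refine Finset.sum_congr rfl fun i _ => ?_
  field_simp
  ring_nf
  rw [Complex.I_sq]
  ring

end GFT

open GFT in
theorem gft : S_GFT := by
  intro ι _ _ A hA k
  obtain ⟨B, hB, hdet⟩ := fac A hA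
  have hu : IsUnit B.det := isUnit_iff_ne_zero.2 hdet
  have huT : IsUnit (Bᵀ).det := by rw [det_transpose]; exact hu
  have hmeas : Measurable (toLin' B : (ι → ℝ) → ι → ℝ) :=
    (LinearMap.continuous_of_finiteDimensional (toLin' B)).measurable
  obtain ⟨c, hc⟩ : ∃ c : ι → ℝ, c = (Bᵀ)⁻¹.mulVec k := ⟨_, rfl⟩
  have hk : k = Bᵀ.mulVec c := by
    rw [hc, mulVec_mulVec, mul_nonsing_inv _ huT, one_mulVec]
  let G : (ι → ℝ) → ℂ := fun y => Complex.exp (-2 * π * Complex.I *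
    (∑ i, (c i : ℂ) * (y i : ℂ))) * ((Real.exp (-π * ∑ i, y i ^ 2) : ℝ) : ℂ)
  have hG : Continuous G := by
    unfold G
    fun_prop
  have hGx : ∀ x : ι → ℝ, Complex.exp (-2 * π * Complex.I * (∑ i, (k i : ℂ) * (x i : ℂ))) *
      ((Real.exp (-π * qf A x) : ℝ) : ℂ) = G (toLin' B x) := by
    intro x
    have e1 : (∑ i, (k i : ℂ) * (x i : ℂ)) = ∑ i, (c i : ℂ) * ((toLin' B x i : ℝ) : ℂ) := by
      have e2 : ∑ i, k i * x i = ∑ i, c i * toLin' B x i := by
        have e3 : k ⬝ᵥ x = c ⬝ᵥ (B.mulVec x) := by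
          rw [hk, mulVec_transpose, ← dotProduct_mulVec]
        rw [toLin'_apply]
        exact e3
      exact_mod_cast congrArg (fun r : ℝ => (r : ℂ)) e2
    have e4 : qf A x = ∑ i, (toLin' B x i) ^ 2 := by
      unfold qf
      rw [hB, ← mulVec_mulVec, dotProduct_mulVec, vecMul_transpose, toLin'_apply]
      simp only [dotProduct, sq]
    rw [e1, e4]
  simp_rw [hGx]
  have h1 : ∫ x : ι → ℝ, G (toLin' B x) = ∫ y, G y ∂(Measure.map (toLin' B) volume) := by
    rw [integral_map hmeas.aemeasurable hG.aestronglyMeasurable]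
  rw [h1, Real.map_matrix_volume_pi_eq_smul_volume_pi hdet, integral_smul_measure]
  have h2 : ∫ y, G y = ((Real.exp (-π * ∑ i, c i ^ 2) : ℝ) : ℂ) := std c
  rw [h2, ENNReal.toReal_ofReal (abs_nonneg _)]
  have h3 : Real.sqrt A.det = |B.det| := by
    rw [hB, det_mul, det_transpose, ← sq, Real.sqrt_sq_eq_abs]
  have h4 : qf A⁻¹ k = ∑ i, c i ^ 2 := by
    unfold qf
    rw [hB, Matrix.mul_inv_rev, ← mulVec_mulVec, ← hc, dotProduct_mulVec]
    have h5 : k ᵥ* B⁻¹ = c := by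
      rw [hc, ← vecMul_transpose, transpose_nonsing_inv, transpose_transpose]
    rw [h5]
    simp only [dotProduct, sq]
  rw [h3, h4, abs_inv]
  simp

end HEZ
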