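import Pool.Agent.HEZ.St

/-!
# The Gram matrix of the dual basis is the inverse
-/

open NumberField NumberField.InfinitePlace Module
open scoped Real

namespace HEZ

namespace GIN

variable {K : Type} [Field K] [NumberField K]

/-- The sum over the embeddings of a function which depends only on the place. -/
theorem sum_mk (g : InfinitePlace K → ℝ) :
    ∑ τ : K →+* ℂ, g (InfinitePlace.mk τ) = ∑ w : InfinitePlace K, (w.mult : ℝ) * g w := by
  classical
  rw [← Finset.sum_fiberwise (s := Finset.univ) (g := fun τ : K →+* ℂ => InfinitePlace.mk τ)]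
  refine Finset.sum_congr rfl fun w _ => ?_
  rw [Finset.sum_congr rfl (g := fun _ => g w) (fun τ hτ => by
    rw [(Finset.mem_filter.1 hτ).2])]
  rw [Finset.sum_const, card_filter_mk_eq, nsmul_eq_mul]

omit [NumberField K] in
/-- The real part of `τ(x) conj τ(y)` depends only on the place of `τ`. -/
theorem re_mk (x y : K) (τ : K →+* ℂ) :
    (τ x * starRingEnd ℂ (τ y)).re =
      ((InfinitePlace.mk τ).embedding x * starRingEnd ℂ ((InfinitePlace.mk τ).embedding y)).re := by
  have h : InfinitePlace.mk τ = InfinitePlace.mk (InfinitePlace.mk τ).embedding :=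
    (mk_embedding _).symm
  rcases mk_eq_iff.1 h with h1 | h1
  · rw [← h1]
  · rw [← h1]
    simp only [ComplexEmbedding.conjugate_coe_eq]
    rw [← map_mul, Complex.conj_re]

/-- The Gram matrix as a sum over the embeddings. -/
theorem gram_eq {ι : Type} (b : Basis ι ℚ K) (c : InfinitePlace K → ℝ) (i j : ι) :
    ((gram b c i j : ℝ) : ℂ) =
      ∑ τ : K →+* ℂ, (c (InfinitePlace.mk τ) : ℂ) * (τ (b i) * starRingEnd ℂ (τ (b j))) := by
  have h1 : gram b c i j = ∑ τ : K →+* ℂ,
      c (InfinitePlace.mk τ) * (τ (b i) * starRingEnd ℂ (τ (b j))).re := by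
    rw [gram, Matrix.of_apply, ← sum_mk (fun w => c w *
      (w.embedding (b i) * starRingEnd ℂ (w.embedding (b j))).re)]
    exact Finset.sum_congr rfl fun τ _ => by rw [← re_mk]
  have h2 : ∀ F : (K →+* ℂ) → ℂ, (∀ τ, F (ComplexEmbedding.conjugate τ) = starRingEnd ℂ (F τ)) →
      ∑ τ : K →+* ℂ, F τ = ((∑ τ : K →+* ℂ, (F τ).re : ℝ) : ℂ) := by
    intro F hF
    have h3 : ∑ τ : K →+* ℂ, F τ = ∑ τ : K →+* ℂ, starRingEnd ℂ (F τ) := by
      have hinv : Function.Involutive (fun τ : K →+* ℂ => ComplexEmbedding.conjugate τ) := by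
        intro τ
        ext x
        simp
      rw [← Equiv.sum_comp hinv.toPerm]
      exact Finset.sum_congr rfl fun τ _ => hF τ
    apply Complex.ext
    · rw [Complex.re_sum, Complex.ofReal_re]
    · rw [Complex.ofReal_im]
      have h4 := congrArg Complex.im h3
      rw [Complex.im_sum, Complex.im_sum] at h4
      simp only [Complex.conj_im, Finset.sum_neg_distrib] at h4
      rw [Complex.im_sum]
      linarith
  rw [h2, h1]
  · push_cast
    refine Finset.sum_congr rfl fun τ _ => ?_
    rw [Complex.re_ofReal_mul]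
    push_cast
    rfl
  · intro τ
    have hmk : InfinitePlace.mk (ComplexEmbedding.conjugate τ) = InfinitePlace.mk τ :=
      mk_conjugate_eq τ
    rw [hmk]
    simp only [ComplexEmbedding.conjugate_coe_eq, map_mul, Complex.conj_ofReal]

end GIN

/-- The Gram matrix of the dual basis is the inverse. -/
theorem gin : S_GIN := by
  intro K _ _ ι _ _ b c hc
  classical
  apply Matrix.inv_eq_right_inv
  -- the matrices of the embeddings
  set B : Matrix (K →+* ℂ) ι ℂ := Matrix.of fun τ i => τ (b i) with hB
  set B' : Matrix (K →+* ℂ) ι ℂ := Matrix.of fun τ i => τ (dualB b i) with hB'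
  have hBB : B.transpose * B' = 1 := by
    ext i j
    rw [Matrix.mul_apply]
    have h1 : ∑ τ : K →+* ℂ, B.transpose i τ * B' τ j = ∑ τ : K →+* ℂ, τ (b i * dualB b j) :=
      Finset.sum_congr rfl fun τ _ => by simp [hB, hB']
    rw [h1]
    have h2 : algebraMap ℚ ℂ (Algebra.trace ℚ K (b i * dualB b j)) =
        ∑ τ : K →+* ℂ, τ (b i * dualB b j) := by
      rw [trace_eq_sum_embeddings ℂ]
      exact Fintype.sum_equiv (RingHom.equivRatAlgHom (R := K) (S := ℂ)).symm _ _ (fun σ => rfl)
    rw [← h2]
    have h3 : Algebra.trace ℚ K (b i * dualB b j) = if i = j then 1 else 0 := by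
      have := LinearMap.BilinForm.apply_dualBasis_right (B := Algebra.traceForm ℚ K)
        (traceForm_nondegenerate ℚ K) (Algebra.traceForm_isSymm ℚ) b i j
      rw [Algebra.traceForm_apply] at this
      exact this
    rw [h3, Matrix.one_apply]
    split_ifs <;> simp
  have hcard : Fintype.card ι = Fintype.card (K →+* ℂ) := by
    rw [NumberField.Embeddings.card K ℂ, ← Module.finrank_eq_card_basis b]
  obtain ⟨e⟩ := Fintype.card_eq.1 hcard
  have hBB2 : B' * B.transpose = 1 := (Matrix.mul_eq_one_comm_of_equiv e).1 hBB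
  -- the product, after the extension of scalars to `ℂ`
  have key : (gram b c⁻¹ * gram (dualB b) c).map (fun x : ℝ => (x : ℂ)) = 1 := by
    have hg1 : (gram b c⁻¹).map (fun x : ℝ => (x : ℂ)) =
        B.transpose * (Matrix.diagonal fun τ : K →+* ℂ => (((c (InfinitePlace.mk τ))⁻¹ : ℝ) : ℂ)) *
          B.map (starRingEnd ℂ) := by
      ext i j
      rw [Matrix.map_apply, GIN.gram_eq, Matrix.mul_apply]
      refine Finset.sum_congr rfl fun τ _ => ?_
      rw [Matrix.mul_diagonal, Matrix.map_apply, Pi.inv_apply, Matrix.transpose_apply, hB,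
        Matrix.of_apply, Matrix.of_apply]
      ring
    have hg2 : (gram (dualB b) c).map (fun x : ℝ => (x : ℂ)) =
        (B'.map (starRingEnd ℂ)).transpose *
          (Matrix.diagonal fun τ : K →+* ℂ => ((c (InfinitePlace.mk τ) : ℝ) : ℂ)) * B' := by
      ext i j
      rw [Matrix.map_apply, ← Complex.conj_ofReal, GIN.gram_eq, Matrix.mul_apply, map_sum]
      refine Finset.sum_congr rfl fun τ _ => ?_
      rw [Matrix.mul_diagonal, Matrix.transpose_apply, Matrix.map_apply, hB',
        Matrix.of_apply, Matrix.of_apply, map_mul, map_mul, Complex.conj_conj, Complex.conj_ofReal]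
      ring
    have hg3 : B.map (starRingEnd ℂ) * (B'.map (starRingEnd ℂ)).transpose = 1 := by
      have h1 : B * B'.transpose = 1 := by
        rw [← Matrix.transpose_transpose B, ← Matrix.transpose_mul, hBB2, Matrix.transpose_one]
      rw [← Matrix.transpose_map, ← Matrix.map_mul, h1]
      exact Matrix.map_one _ (map_zero _) (map_one _)
    have hg4 : (Matrix.diagonal fun τ : K →+* ℂ => (((c (InfinitePlace.mk τ))⁻¹ : ℝ) : ℂ)) *
        (Matrix.diagonal fun τ : K →+* ℂ => ((c (InfinitePlace.mk τ) : ℝ) : ℂ)) = 1 := by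
      rw [Matrix.diagonal_mul_diagonal, ← Matrix.diagonal_one]
      congr 1
      funext τ
      rw [← Complex.ofReal_mul, inv_mul_cancel₀ (hc _).ne', Complex.ofReal_one]
    have hmap : (gram b c⁻¹ * gram (dualB b) c).map (fun x : ℝ => (x : ℂ)) =
        (gram b c⁻¹).map (fun x : ℝ => (x : ℂ)) *
          (gram (dualB b) c).map (fun x : ℝ => (x : ℂ)) :=
      Matrix.map_mul (f := Complex.ofRealHom)
    rw [hmap, hg1, hg2]
    calc _ = B.transpose *
        (Matrix.diagonal fun τ : K →+* ℂ => (((c (InfinitePlace.mk τ))⁻¹ : ℝ) : ℂ)) *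
        (B.map (starRingEnd ℂ) * (B'.map (starRingEnd ℂ)).transpose) *
        (Matrix.diagonal fun τ : K →+* ℂ => ((c (InfinitePlace.mk τ) : ℝ) : ℂ)) * B' := by
          simp only [Matrix.mul_assoc]
      _ = B.transpose *
        ((Matrix.diagonal fun τ : K →+* ℂ => (((c (InfinitePlace.mk τ))⁻¹ : ℝ) : ℂ)) *
        (Matrix.diagonal fun τ : K →+* ℂ => ((c (InfinitePlace.mk τ) : ℝ) : ℂ))) * B' := by
          rw [hg3]
          simp only [Matrix.mul_assoc, Matrix.one_mul]
      _ = 1 := by rw [hg4, Matrix.mul_one, hBB]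
  ext i j
  have := congrFun (congrFun key i) j
  rw [Matrix.map_apply, Matrix.one_apply] at this
  rw [Matrix.one_apply]
  split_ifs at this ⊢ with h
  · exact_mod_cast this
  · exact_mod_cast this

end HEZ
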