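import Pool.Agent.HEZ.St

/-!
# The Gram matrix is positive definite and represents the weighted trace form
-/

set_option autoImplicit false

open NumberField NumberField.InfinitePlace NumberField.Units Module MeasureTheory
open scoped Real nonZeroDivisors ENNReal

namespace HEZ

namespace GRA

lemma normSq_sum {ι : Type} [Fintype ι] (x : ι → ℝ) (e : ι → ℂ) :
    Complex.normSq (∑ i, (x i : ℂ) * e i) =
      ∑ i, ∑ j, x i * ((e i * starRingEnd ℂ (e j)).re * x j) := by
  have h : ((Complex.normSq (∑ i, (x i : ℂ) * e i) : ℝ) : ℂ) =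
      ∑ i, ∑ j, (x i : ℂ) * ((e i * starRingEnd ℂ (e j)) * (x j : ℂ)) := by
    rw [← Complex.mul_conj, map_sum, Finset.sum_mul_sum]
    refine Finset.sum_congr rfl fun i _ => Finset.sum_congr rfl fun j _ => ?_
    rw [map_mul, Complex.conj_ofReal]
    ring
  have h2 := congrArg Complex.re h
  rw [Complex.ofReal_re] at h2
  rw [h2]
  simp only [Complex.re_sum]
  refine Finset.sum_congr rfl fun i _ => Finset.sum_congr rfl fun j _ => ?_
  rw [Complex.re_ofReal_mul, Complex.re_mul_ofReal]

lemma qf_gram {K : Type} [Field K] [NumberField K] {ι : Type} [Fintype ι] (b : Basis ι ℚ K)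
    (c : InfinitePlace K → ℝ) (x : ι → ℝ) :
    qf (gram b c) x = ∑ w : InfinitePlace K,
      (w.mult : ℝ) * (c w * Complex.normSq (∑ i, (x i : ℂ) * w.embedding (b i))) := by
  simp only [qf, gram, dotProduct, Matrix.mulVec, Matrix.of_apply, normSq_sum, Finset.mul_sum,
    Finset.sum_mul]
  rw [Finset.sum_comm' (s := Finset.univ) (t := fun _ => Finset.univ) (t' := Finset.univ)
    (s' := fun _ => Finset.univ) (by simp) (f := fun (w : InfinitePlace K) i => ∑ j,
      (w.mult : ℝ) * (c w * (x i * ((w.embedding (b i) *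
        starRingEnd ℂ (w.embedding (b j))).re * x j))))]
  refine Finset.sum_congr rfl fun i _ => ?_
  rw [Finset.sum_comm]
  refine Finset.sum_congr rfl fun w _ => Finset.sum_congr rfl fun j _ => ?_
  ring

/-- a real vector orthogonal to all embeddings is zero -/
lemma eq_zero {K : Type} [Field K] [NumberField K] {ι : Type} [Fintype ι] [DecidableEq ι]
    (b : Basis ι ℚ K) (x : ι → ℝ)
    (h : ∀ w : InfinitePlace K, ∑ i, (x i : ℂ) * w.embedding (b i) = 0) : x = 0 := by
  have h1 : ∀ φ : K →+* ℂ, ∑ i, (x i : ℂ) * φ (b i) = 0 := by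
    intro φ
    rcases embedding_mk_eq φ with h2 | h2
    · have h3 := h (InfinitePlace.mk φ)
      rwa [h2] at h3
    · have h3 := h (InfinitePlace.mk φ)
      rw [h2] at h3
      have h4 := congrArg (starRingEnd ℂ) h3
      rw [map_sum, map_zero] at h4
      rw [← h4]
      refine Finset.sum_congr rfl fun i _ => ?_
      rw [map_mul, Complex.conj_ofReal, ComplexEmbedding.conjugate_coe_eq, Complex.conj_conj]
  have h5 : (Algebra.embeddingsMatrix ℚ ℂ b).transpose.mulVec (fun i => (x i : ℂ)) = 0 := by
    funext σ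
    simp only [Matrix.mulVec, dotProduct, Matrix.transpose_apply,
      Algebra.embeddingsMatrix_apply, Pi.zero_apply]
    rw [← h1 (σ : K →+* ℂ)]
    refine Finset.sum_congr rfl fun i _ => ?_
    rw [mul_comm]
    rfl
  have h6 : ((Algebra.traceMatrix ℚ b).map (algebraMap ℚ ℂ)).mulVec
      (fun i => (x i : ℂ)) = 0 := by
    rw [Algebra.traceMatrix_eq_embeddingsMatrix_mul_trans, ← Matrix.mulVec_mulVec, h5,
      Matrix.mulVec_zero]
  have h7 : ((Algebra.traceMatrix ℚ b).map (algebraMap ℚ ℂ)).det ≠ 0 := by
    have h8 : ((Algebra.traceMatrix ℚ b).map (algebraMap ℚ ℂ)).det =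
        algebraMap ℚ ℂ (Algebra.traceMatrix ℚ b).det := by
      rw [RingHom.map_det]; rfl
    rw [h8]
    intro h9
    have h10 := Algebra.discr_not_zero_of_basis ℚ b
    apply h10
    rw [Algebra.discr_def]
    exact (map_eq_zero (algebraMap ℚ ℂ)).1 h9
  have h11 := Matrix.eq_zero_of_mulVec_eq_zero h7 h6
  funext i
  have := congrFun h11 i
  simpa using this

end GRA

open GRA

theorem gra : S_GRA := by
  intro K _ _ ι _ _ b c hc
  refine ⟨Matrix.PosDef.of_dotProduct_mulVec_pos ?_ ?_, ?_⟩
  · ext i j
    simp only [gram, Matrix.conjTranspose_apply, Matrix.of_apply, star_trivial]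
    refine Finset.sum_congr rfl fun w _ => ?_
    congr 2
    simp only [Complex.mul_re, Complex.conj_re, Complex.conj_im]
    ring
  · intro x hx
    have h0 : star x = x := by
      funext i
      simp
    rw [h0]
    change 0 < qf (gram b c) x
    rw [qf_gram]
    have hnn : ∀ w : InfinitePlace K, 0 ≤
        (w.mult : ℝ) * (c w * Complex.normSq (∑ i, (x i : ℂ) * w.embedding (b i))) := by
      intro w
      have := hc w
      have h1 := Complex.normSq_nonneg (∑ i, (x i : ℂ) * w.embedding (b i))
      positivity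
    refine lt_of_le_of_ne (Finset.sum_nonneg fun w _ => hnn w) ?_
    intro h1
    apply hx
    apply eq_zero b x
    intro w
    have h2 := (Finset.sum_eq_zero_iff_of_nonneg (fun w _ => hnn w)).1 h1.symm w
      (Finset.mem_univ w)
    have h3 : (w.mult : ℝ) ≠ 0 := by
      have := w.mult_pos
      positivity
    have h4 := (hc w).ne'
    have h5 := (mul_eq_zero.1 ((mul_eq_zero.1 h2).resolve_left h3)).resolve_left h4
    exact Complex.normSq_eq_zero.1 h5
  · intro m
    rw [qf_gram, Q]
    refine Finset.sum_congr rfl fun w _ => ?_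
    congr 2
    rw [← InfinitePlace.norm_embedding_eq, Complex.sq_norm, map_sum]
    congr 1
    refine Finset.sum_congr rfl fun i _ => ?_
    rw [map_mul, map_intCast]
    push_cast
    rfl

end HEZ
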