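import Pool.Agent.HEZ.St

/-!
# Uniform summability of a Gaussian over the translates of a bounded set

A positive definite form is at least `δ ∑ y_i²`, so the Gaussian at `x + m` is at most a product of
one variable functions of the `m_i`, and such a product is summable.
-/

open scoped Real

namespace HEZ

namespace GSU

/-- A product of a summable nonnegative function of each coordinate is summable. -/
lemma summable_prod {ι : Type} [Fintype ι] [DecidableEq ι] (g : ℤ → ℝ) (hg0 : ∀ k, 0 ≤ g k)
    (hg : Summable g) : Summable fun m : ι → ℤ => ∏ i, g (m i) := by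
  classical
  refine summable_of_sum_le (c := ∏ _i : ι, ∑' k, g k)
    (fun m => Finset.prod_nonneg fun i _ => hg0 _) fun s => ?_
  have h1 : s ⊆ Fintype.piFinset (fun i : ι => s.image (fun m => m i)) := by
    intro m hm
    rw [Fintype.mem_piFinset]
    intro i
    exact Finset.mem_image_of_mem _ hm
  calc ∑ m ∈ s, ∏ i, g (m i)
      ≤ ∑ m ∈ Fintype.piFinset (fun i : ι => s.image (fun m => m i)), ∏ i, g (m i) :=
        Finset.sum_le_sum_of_subset_of_nonneg h1
          fun m _ _ => Finset.prod_nonneg fun i _ => hg0 _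
    _ = ∏ i : ι, ∑ k ∈ s.image (fun m => m i), g k := by
        rw [Finset.prod_univ_sum]
    _ ≤ ∏ _i : ι, ∑' k, g k := by
        refine Finset.prod_le_prod (fun i _ => Finset.sum_nonneg fun k _ => hg0 k) fun i _ => ?_
        exact hg.sum_le_tsum _ fun k _ => hg0 k

/-- Summability of a Gaussian over the integers. -/
lemma summable_gauss {c : ℝ} (hc : 0 < c) : Summable fun k : ℤ => Real.exp (-(c * (k : ℝ) ^ 2)) := by
  have h1 : Summable fun n : ℕ => (Real.exp (-c)) ^ n :=
    summable_geometric_of_lt_one (Real.exp_pos _).le (Real.exp_lt_one_iff.mpr (by linarith))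
  have key : ∀ n : ℕ, Real.exp (-(c * (n : ℝ) ^ 2)) ≤ (Real.exp (-c)) ^ n := by
    intro n
    rw [← Real.exp_nat_mul]
    apply Real.exp_le_exp.mpr
    have h2 : (n : ℝ) ≤ (n : ℝ) ^ 2 := by
      have : n ≤ n ^ 2 := Nat.le_self_pow (by norm_num) n
      exact_mod_cast this
    nlinarith
  refine Summable.of_nat_of_neg ?_ ?_
  · refine Summable.of_nonneg_of_le (fun n => (Real.exp_pos _).le) (fun n => ?_) h1
    simpa using key n
  · refine Summable.of_nonneg_of_le (fun n => (Real.exp_pos _).le) (fun n => ?_) h1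
    simpa using key n

end GSU

open GSU in
/-- `GSU`.  Uniform summability of a Gaussian over the translates of a bounded set. -/
theorem gsu (h1 : HEZ.S_PDL) : HEZ.S_GSU := by
  intro ι _ _ A hA R
  obtain ⟨δ, hδ, hq⟩ := h1 ι A hA
  refine ⟨fun m => ∏ i, (Real.exp (π * δ * R ^ 2) *
    Real.exp (-(π * δ / 2 * ((m i : ℤ) : ℝ) ^ 2))), ?_, ?_⟩
  · refine summable_prod (fun k : ℤ => Real.exp (π * δ * R ^ 2) *
      Real.exp (-(π * δ / 2 * (k : ℝ) ^ 2))) (fun k => by positivity) ?_
    exact (summable_gauss (by positivity)).mul_left _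
  · intro m x hx
    have h2 : ∀ i, (m i : ℝ) ^ 2 / 2 - R ^ 2 ≤ (x i + m i) ^ 2 := by
      intro i
      have h3 : x i ^ 2 ≤ R ^ 2 := by
        have h4 := hx i
        have h5 : |x i| ≤ |R| := h4.trans (le_abs_self R)
        exact sq_le_sq.mpr h5
      nlinarith [sq_nonneg (2 * x i + m i)]
    have h6 : δ * ∑ i, ((m i : ℝ) ^ 2 / 2 - R ^ 2) ≤ qf A (fun i => x i + m i) :=
      (mul_le_mul_of_nonneg_left (Finset.sum_le_sum fun i _ => h2 i) hδ.le).trans (hq _)
    have h7 : (∏ i, (Real.exp (π * δ * R ^ 2) * Real.exp (-(π * δ / 2 * (m i : ℝ) ^ 2)))) =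
        Real.exp (-π * (δ * ∑ i, ((m i : ℝ) ^ 2 / 2 - R ^ 2))) := by
      rw [Finset.mul_sum, Finset.mul_sum, Real.exp_sum]
      refine Finset.prod_congr rfl fun i _ => ?_
      rw [← Real.exp_add]
      congr 1
      ring
    show _ ≤ ∏ i, (Real.exp (π * δ * R ^ 2) * Real.exp (-(π * δ / 2 * (m i : ℝ) ^ 2)))
    rw [h7]
    apply Real.exp_le_exp.mpr
    have := Real.pi_pos
    nlinarith

end HEZ
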