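import Pool.Agent.HEZ.St

/-!
# HEZ, module IDL: a nonzero ideal is a lattice (helper10)
-/

open NumberField NumberField.InfinitePlace NumberField.Units Module MeasureTheory
open scoped Real nonZeroDivisors ENNReal

namespace HEZ

namespace IDL

variable (K : Type) [Field K]

lemma mem_idl (J : Ideal (𝓞 K)) (x : K) : x ∈ idl K J ↔ ∃ a ∈ J, (a : K) = x := by
  unfold idl
  rw [Submodule.mem_map]
  rfl

/-- the unit fractional ideal of `J` -/
noncomputable def fr [NumberField K] (J : Ideal (𝓞 K)) (hJ : J ≠ ⊥) : (FractionalIdeal (𝓞 K)⁰ K)ˣ :=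
  Units.mk0 (J : FractionalIdeal (𝓞 K)⁰ K) (FractionalIdeal.coeIdeal_ne_zero.2 hJ)

end IDL

open IDL in
theorem t_idl : S_IDL := by
  intro K _ _ J hJ
  refine ⟨?_, ?_, mem_idl K J⟩
  · set I := fr K J hJ with hI
    have hc : Fintype.card (Free.ChooseBasisIndex ℤ I) = finrank ℚ K :=
      (finrank_eq_card_basis (basisOfFractionalIdeal K I)).symm
    refine ⟨(basisOfFractionalIdeal K I).reindex (Fintype.equivFinOfCardEq hc), ?_⟩
    ext x
    rw [mem_idl]
    unfold lat
    rw [Basis.range_reindex, mem_span_basisOfFractionalIdeal, hI]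
    unfold fr
    rw [Units.val_mk0]
    show _ ↔ x ∈ (J : FractionalIdeal (𝓞 K)⁰ K)
    rw [FractionalIdeal.mem_coeIdeal]
  · intro e x hx
    rw [mem_idl] at hx ⊢
    obtain ⟨a, ha, rfl⟩ := hx
    exact ⟨(e : 𝓞 K) * a, J.mul_mem_left _ ha, by push_cast; rfl⟩

end HEZ
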