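import Pool.Agent.HEZ.St

/-!
# The leading term of the candidate at `s = 0`
-/

set_option autoImplicit false

open NumberField NumberField.InfinitePlace NumberField.Units Module MeasureTheory IsDedekindDomain
open scoped Real nonZeroDivisors ENNReal Topology

namespace HEZ

namespace LEA

section gamma

variable (K : Type) [Field K] [NumberField K]

lemma pi_ne : (π : ℂ) ≠ 0 := by exact_mod_cast Real.pi_ne_zero

lemma two_pi_ne : (2 * π : ℂ) ≠ 0 := mul_ne_zero two_ne_zero pi_ne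

/-- the inverse of the Gamma factor -/
lemma gamC_inv (z : ℂ) : (gamC K z)⁻¹ =
    ((π : ℂ) ^ (z / 2) * (Complex.Gamma (z / 2))⁻¹) ^ nrRealPlaces K *
      ((2 * π : ℂ) ^ z * (Complex.Gamma z)⁻¹) ^ nrComplexPlaces K := by
  unfold gamC
  rw [mul_inv, ← inv_pow, ← inv_pow, mul_inv, mul_inv, ← Complex.cpow_neg, ← Complex.cpow_neg,
    neg_neg, neg_neg]

/-- the part of the inverse of the Gamma factor without zero at `0` -/
noncomputable def EE (z : ℂ) : ℂ :=
  ((π : ℂ) ^ (z / 2) * (Complex.Gamma (z / 2 + 1))⁻¹) ^ nrRealPlaces K *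
    ((2 * π : ℂ) ^ z * (Complex.Gamma (z + 1))⁻¹) ^ nrComplexPlaces K

lemma gamC_inv_eq (z : ℂ) : (gamC K z)⁻¹ =
    (z / 2) ^ nrRealPlaces K * z ^ nrComplexPlaces K * EE K z := by
  rw [gamC_inv, EE, Complex.one_div_Gamma_eq_self_mul_one_div_Gamma_add_one (z / 2),
    Complex.one_div_Gamma_eq_self_mul_one_div_Gamma_add_one z]
  simp only [mul_pow]
  ring

lemma diff_cpow (a : ℂ) (ha : a ≠ 0) : Differentiable ℂ fun z : ℂ => a ^ z :=
  fun _ => (differentiableAt_id).const_cpow (Or.inl ha)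

lemma diff_EE : Differentiable ℂ (EE K) := by
  have h1 : Differentiable ℂ fun z : ℂ => (π : ℂ) ^ (z / 2) :=
    (diff_cpow _ pi_ne).comp (differentiable_id.div_const 2)
  have h2 : Differentiable ℂ fun z : ℂ => (Complex.Gamma (z / 2 + 1))⁻¹ :=
    Complex.differentiable_one_div_Gamma.comp ((differentiable_id.div_const 2).add_const 1)
  have h3 : Differentiable ℂ fun z : ℂ => (2 * π : ℂ) ^ z := diff_cpow _ two_pi_ne
  have h4 : Differentiable ℂ fun z : ℂ => (Complex.Gamma (z + 1))⁻¹ :=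
    Complex.differentiable_one_div_Gamma.comp (differentiable_id.add_const 1)
  exact ((h1.mul h2).pow _).mul ((h3.mul h4).pow _)

lemma EE_zero : EE K 0 = 1 := by
  unfold EE
  simp [Complex.Gamma_one]

lemma diff_inv : Differentiable ℂ fun z : ℂ => (gamC K z)⁻¹ := by
  have : (fun z : ℂ => (gamC K z)⁻¹) = fun z : ℂ =>
      (z / 2) ^ nrRealPlaces K * z ^ nrComplexPlaces K * EE K z := funext (gamC_inv_eq K)
  rw [this]
  exact (((differentiable_id.div_const 2).pow _).mul (differentiable_id.pow _)).mul (diff_EE K)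

lemma gamC_real (z : ℝ) : gamC K (z : ℂ) = ((gam K z : ℝ) : ℂ) := by
  unfold gamC gam
  push_cast
  rw [Complex.ofReal_cpow Real.pi_pos.le,
    Complex.ofReal_cpow (by positivity : (0 : ℝ) ≤ 2 * π), ← Complex.Gamma_ofReal,
    ← Complex.Gamma_ofReal]
  push_cast
  rfl

end gamma

section pair

variable (P : WeakFEPair ℂ) (n : ℂ) (z : ℂ)

lemma lam_eq (hk : (P.k : ℂ) = n / 2) (hf : P.f₀ = 1) :
    P.Λ (n * z / 2) = P.Λ₀ (n * z / 2) - 1 / (n * z / 2) - P.ε / (n / 2 - n * z / 2) * P.g₀ := by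
  unfold WeakFEPair.Λ
  rw [hf, hk, smul_eq_mul, mul_one, smul_eq_mul]

lemma an_lin : AnalyticAt ℂ (fun z : ℂ => n * z / 2) z := by fun_prop

lemma an_lam0 : AnalyticAt ℂ (fun z : ℂ => P.Λ₀ (n * z / 2)) z := by
  have h1 : Differentiable ℂ (fun z : ℂ => n * z / 2) := by fun_prop
  exact (P.differentiable_Λ₀.comp h1).analyticAt z

lemma mer_lam (hk : (P.k : ℂ) = n / 2) (hf : P.f₀ = 1) :
    MeromorphicAt (fun z : ℂ => P.Λ (n * z / 2)) z := by
  rw [show (fun z : ℂ => P.Λ (n * z / 2)) = fun z : ℂ => P.Λ₀ (n * z / 2) - 1 / (n * z / 2) -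
    P.ε / (n / 2 - n * z / 2) * P.g₀ from funext fun z => lam_eq P n z hk hf]
  have h1 : MeromorphicAt (fun z : ℂ => n * z / 2) z := (an_lin n z).meromorphicAt
  have h2 : MeromorphicAt (fun z : ℂ => n / 2 - n * z / 2) z := by
    have : AnalyticAt ℂ (fun z : ℂ => n / 2 - n * z / 2) z := by fun_prop
    exact this.meromorphicAt
  exact ((an_lam0 P n z).meromorphicAt.sub ((MeromorphicAt.const 1 z).div h1)).sub
    (((MeromorphicAt.const P.ε z).div h2).mul (MeromorphicAt.const P.g₀ z))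

lemma an_lam (hn : n ≠ 0) (hk : (P.k : ℂ) = n / 2) (hf : P.f₀ = 1) (h0 : z ≠ 0) (h1 : z ≠ 1) :
    AnalyticAt ℂ (fun z : ℂ => P.Λ (n * z / 2)) z := by
  rw [show (fun z : ℂ => P.Λ (n * z / 2)) = fun z : ℂ => P.Λ₀ (n * z / 2) - 1 / (n * z / 2) -
    P.ε / (n / 2 - n * z / 2) * P.g₀ from funext fun z => lam_eq P n z hk hf]
  have h3 : AnalyticAt ℂ (fun z : ℂ => n / 2 - n * z / 2) z := by fun_prop
  have h4 : n * z / 2 ≠ 0 := div_ne_zero (mul_ne_zero hn h0) two_ne_zero
  have h5 : n / 2 - n * z / 2 ≠ 0 := by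
    have : n / 2 - n * z / 2 = n * (1 - z) / 2 := by ring
    rw [this]
    exact div_ne_zero (mul_ne_zero hn (sub_ne_zero.2 (Ne.symm h1))) two_ne_zero
  exact ((an_lam0 P n z).sub (analyticAt_const.div (an_lin n z) h4)).sub
    ((analyticAt_const.div h3 h5).mul analyticAt_const)

/-- `z Λ(n z / 2)` -/
noncomputable def TT (z : ℂ) : ℂ :=
  z * P.Λ₀ (n * z / 2) - 2 / n - z * (P.ε / (n / 2 - n * z / 2) * P.g₀)

lemma TT_eq (hn : n ≠ 0) (hk : (P.k : ℂ) = n / 2) (hf : P.f₀ = 1) (h0 : z ≠ 0) :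
    z * P.Λ (n * z / 2) = TT P n z := by
  rw [lam_eq P n z hk hf, TT, mul_sub, mul_sub]
  congr 2
  field_simp

lemma an_TT (hn : n ≠ 0) : AnalyticAt ℂ (TT P n) 0 := by
  have h3 : AnalyticAt ℂ (fun z : ℂ => n / 2 - n * z / 2) 0 := by fun_prop
  have h5 : n / 2 - n * 0 / 2 ≠ 0 := by
    rw [mul_zero, zero_div, sub_zero]
    exact div_ne_zero hn two_ne_zero
  exact ((analyticAt_id.mul (an_lam0 P n 0)).sub analyticAt_const).sub
    (analyticAt_id.mul ((analyticAt_const.div h3 h5).mul analyticAt_const))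

lemma TT_zero : TT P n 0 = -(2 / n) := by
  unfold TT
  ring

end pair

end LEA

open LEA in
/-- the leading term of the candidate -/
theorem lea : S_LEA := by
  intro K _ _ J P hP Z hZ
  set n : ℂ := (finrank ℚ K : ℂ) with hn
  have hn0 : n ≠ 0 := by
    rw [hn]
    exact_mod_cast (finrank_pos (R := ℚ) (M := K)).ne'
  have hk : ∀ C, ((P C).k : ℂ) = n / 2 := by
    intro C
    rw [(hP C).2.1]
    push_cast
    rfl
  have hf : ∀ C, (P C).f₀ = 1 := fun C => (hP C).2.2
  have hN : ∀ C, ((Ideal.absNorm (J C : Ideal (𝓞 K)) : ℕ) : ℂ) ≠ 0 := by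
    intro C
    have : (J C : Ideal (𝓞 K)) ≠ ⊥ := nonZeroDivisors.ne_zero (J C).2
    exact_mod_cast fun h => this (Ideal.absNorm_eq_zero_iff.1 h)
  have hpow : ∀ C, Differentiable ℂ fun z : ℂ =>
      ((Ideal.absNorm (J C : Ideal (𝓞 K)) : ℕ) : ℂ) ^ z := fun C => diff_cpow _ (hN C)
  set A : ℂ := ((torsionOrder K : ℂ) * (cst K : ℂ))⁻¹ with hA
  have hZ' : Z = fun z : ℂ => A * (gamC K z)⁻¹ *
      ∑ C, (((Ideal.absNorm (J C : Ideal (𝓞 K)) : ℕ) : ℂ) ^ z * (P C).Λ (n * z / 2)) := by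
    funext z
    rw [hZ z, mul_inv, hA]
  have hinv := diff_inv K
  refine ⟨fun z => ?_, fun z h0 h1 => ?_, gamC_real K, ?_⟩
  · rw [hZ']
    exact ((MeromorphicAt.const A z).mul (hinv.analyticAt z).meromorphicAt).mul
      (MeromorphicAt.fun_sum fun C _ => ((hpow C).analyticAt z).meromorphicAt.mul
        (mer_lam (P C) n z (hk C) (hf C)))
  · rw [hZ']
    exact (analyticAt_const.mul (hinv.analyticAt z)).mul
      (Finset.analyticAt_fun_sum _ fun C _ => ((hpow C).analyticAt z).mul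
        (an_lam (P C) n z hn0 (hk C) (hf C) h0 h1))
  · set H : ℂ → ℂ := fun z => A * (1 / 2) ^ nrRealPlaces K * EE K z *
      ∑ C, (((Ideal.absNorm (J C : Ideal (𝓞 K)) : ℕ) : ℂ) ^ z * TT (P C) n z) with hH
    have hrank : nrRealPlaces K + nrComplexPlaces K = rank K + 1 := by
      have h1 := card_eq_nrRealPlaces_add_nrComplexPlaces (K := K)
      have h2 : 0 < Fintype.card (InfinitePlace K) := Fintype.card_pos
      unfold rank
      omega
    have hHan : AnalyticAt ℂ H 0 :=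
      (analyticAt_const.mul ((diff_EE K).analyticAt 0)).mul
        (Finset.analyticAt_fun_sum _ fun C _ => ((hpow C).analyticAt 0).mul
          (an_TT (P C) n hn0))
    have hw : (torsionOrder K : ℂ) ≠ 0 := by
      exact_mod_cast (torsionOrder_pos K).ne'
    have hR : (regulator K : ℂ) ≠ 0 := by
      exact_mod_cast (regulator_pos K).ne'
    have hh : (classNumber K : ℂ) ≠ 0 := by
      exact_mod_cast (Fintype.card_pos (α := ClassGroup (𝓞 K))).ne'
    have hH0 : H 0 = -(((classNumber K : ℝ) * regulator K / torsionOrder K : ℝ) : ℂ) := by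
      have h1 : ∑ C, (((Ideal.absNorm (J C : Ideal (𝓞 K)) : ℕ) : ℂ) ^ (0 : ℂ) *
          TT (P C) n 0) = (classNumber K : ℂ) * -(2 / n) := by
        simp only [Complex.cpow_zero, one_mul, TT_zero]
        rw [Finset.sum_const, nsmul_eq_mul]
        rfl
      have h2 : (2 : ℂ) ^ nrRealPlaces K * 2 ^ nrComplexPlaces K = 2 ^ rank K * 2 := by
        rw [← pow_add, hrank, pow_succ]
      rw [hH]
      simp only
      rw [EE_zero, h1, hA]
      unfold cst
      push_cast
      rw [← hn]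
      field_simp
      rw [one_div, inv_pow, ← h2]
      field_simp
    rw [← hH0]
    refine hHan.meromorphicTrailingCoeffAt_of_ne_zero_of_eq_nhdsNE (n := (rank K : ℤ)) ?_ ?_
    · rw [hH0]
      refine neg_ne_zero.2 ?_
      push_cast
      exact div_ne_zero (mul_ne_zero hh hR) hw
    · refine eventually_nhdsWithin_of_forall fun z hz => ?_
      have hz0 : z ≠ 0 := hz
      have h1 : ∑ C, (((Ideal.absNorm (J C : Ideal (𝓞 K)) : ℕ) : ℂ) ^ z * TT (P C) n z) =
          z * ∑ C, (((Ideal.absNorm (J C : Ideal (𝓞 K)) : ℕ) : ℂ) ^ z *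
            (P C).Λ (n * z / 2)) := by
        rw [Finset.mul_sum]
        refine Finset.sum_congr rfl fun C _ => ?_
        rw [← TT_eq (P C) n z hn0 (hk C) (hf C) hz0]
        ring
      have h2 : z ^ nrRealPlaces K * z ^ nrComplexPlaces K = z ^ rank K * z := by
        rw [← pow_add, hrank, pow_succ]
      rw [hZ']
      simp only
      rw [sub_zero, zpow_natCast, smul_eq_mul, hH]
      simp only
      rw [h1, gamC_inv_eq, div_pow, one_div, inv_pow]
      linear_combination (A * (2 ^ nrRealPlaces K)⁻¹ * EE K z *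
        ∑ C, (((Ideal.absNorm (J C : Ideal (𝓞 K)) : ℕ) : ℂ) ^ z * (P C).Λ (n * z / 2))) * h2

end HEZ
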