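import Pool.Agent.HEZ.St

/-!
# Module MEA of the project HEZ: measurability of the theta series in the coordinates of the torus
-/

open NumberField NumberField.InfinitePlace NumberField.Units Module MeasureTheory
open scoped Real nonZeroDivisors ENNReal

namespace HEZ

namespace MEA

variable (K : Type) [Field K] [NumberField K]

lemma yy_pos (u : Fin (rank K) → ℝ) (w : InfinitePlace K) : 0 < yy K u w := Real.exp_pos _

lemma yy_cont (w : InfinitePlace K) : Continuous fun u : Fin (rank K) → ℝ => yy K u w := by
  unfold yy
  fun_prop

lemma term_cont (t : ℝ) (x : K) : Continuous fun u : Fin (rank K) → ℝ =>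
    Real.exp (-π * Q K (fun w => t * yy K u w) x) := by
  unfold Q
  have h := yy_cont K
  refine Real.continuous_exp.comp (continuous_const.mul (continuous_finsetSum _ fun w _ => ?_))
  exact continuous_const.mul (((continuous_const.mul (h w))).mul continuous_const)

end MEA

open MEA in
theorem mea (h1 : HEZ.S_THI) : HEZ.S_MEA := by
  intro K _ _ ι _ _ b t ht
  have hK : Countable K := b.equivFun.toEquiv.injective.countable
  have hs : ∀ u : Fin (rank K) → ℝ,
      Summable fun x : lat b => Real.exp (-π * Q K (fun w => t * yy K u w) (x : K)) := fun u =>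
    (h1 K ι b).1 _ fun w => mul_pos ht (yy_pos K u w)
  have he : (fun u : Fin (rank K) → ℝ => theta K (lat b) (fun w => t * yy K u w)) =
      fun u => (∑' x : lat b,
        ENNReal.ofReal (Real.exp (-π * Q K (fun w => t * yy K u w) (x : K)))).toReal := by
    funext u
    unfold theta
    rw [← ENNReal.ofReal_tsum_of_nonneg (fun x => (Real.exp_pos _).le) (hs u)]
    exact (ENNReal.toReal_ofReal (tsum_nonneg fun x => (Real.exp_pos _).le)).symm
  rw [he]
  refine (Measurable.tsum fun x => ?_).ennreal_toReal
  exact (term_cont K t (x : K)).measurable.ennreal_ofReal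

end HEZ
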