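import Pool.Agent.HEZ.St

/-!
# The leading term of the Dedekind zeta function at `s = 0`: module MEL

The function `Λ` of the pair of an ideal at real points `z > 1`.
-/

open NumberField NumberField.InfinitePlace NumberField.Units Module MeasureTheory
open scoped Real nonZeroDivisors ENNReal

namespace HEZ

namespace MEL

variable (K : Type) [Field K] [NumberField K]

lemma cst_pos : 0 < cst K := by
  unfold cst
  have h1 : (0 : ℝ) < finrank ℚ K := by exact_mod_cast finrank_pos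
  have h2 := regulator_pos K
  positivity

lemma gam_pos {z : ℝ} (hz : 0 < z) : 0 < gam K z := by
  unfold gam
  have h1 : 0 < Real.Gamma (z / 2) := Real.Gamma_pos_of_pos (by linarith)
  have h2 : 0 < Real.Gamma z := Real.Gamma_pos_of_pos hz
  have h3 := Real.pi_pos
  positivity

lemma torsionOrder_pos' : (0 : ℝ) < torsionOrder K := by
  exact_mod_cast Nat.pos_of_ne_zero (torsionOrder_ne_zero K)

end MEL

theorem mel (h1 : S_UNF) (h2 : S_FIN) (h3 : S_IDL) : S_MEL := by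
  intro K _ _ J hJ P hP z hz
  classical
  obtain ⟨hPf, hPk, hP0⟩ := hP
  have hz0 : 0 < z := by linarith
  have hn : (0 : ℝ) < finrank ℚ K := by exact_mod_cast finrank_pos
  obtain ⟨b, hb⟩ := (h3 K J hJ).1
  have hfin := (h2 K _ b).2.2.1
  rw [← hb] at hfin
  set a : ℝ := (finrank ℚ K : ℝ) * z / 2 with ha
  have hM : HasMellin (P.f · - P.f₀) ((a : ℝ) : ℂ) (P.Λ ((a : ℝ) : ℂ)) := by
    apply P.hasMellin
    rw [hPk, Complex.ofReal_re, ha]
    nlinarith
  obtain ⟨hconv, hval⟩ := hM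
  set g : ℝ → ℝ := fun t => (ff K (idl K J) t - 1) * t ^ (a - 1) with hg
  have heq : ∀ t ∈ Set.Ioi (0 : ℝ),
      ((t : ℂ) ^ (((a : ℝ) : ℂ) - 1)) • (P.f t - P.f₀) = ((g t : ℝ) : ℂ) := by
    intro t ht
    have ht' : 0 < t := ht
    rw [hPf t ht', hP0, smul_eq_mul, hg]
    push_cast
    rw [mul_comm]
    congr 1
    rw [Complex.ofReal_cpow ht'.le]
    push_cast
    rfl
  have hint : IntegrableOn (fun t => ((g t : ℝ) : ℂ)) (Set.Ioi 0) := by
    have := hconv
    unfold MellinConvergent at this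
    exact (integrableOn_congr_fun heq measurableSet_Ioi).1 this
  have hint' : IntegrableOn g (Set.Ioi 0) := by
    have := hint.re
    unfold IntegrableOn
    simpa using this
  have hpos : ∀ t ∈ Set.Ioi (0 : ℝ), 0 ≤ g t := by
    intro t ht
    have ht' : 0 < t := ht
    have := hfin t ht'
    have h5 : 0 ≤ t ^ (a - 1) := Real.rpow_nonneg ht'.le _
    exact mul_nonneg (by linarith) h5
  have hae : 0 ≤ᵐ[volume.restrict (Set.Ioi (0 : ℝ))] g := by
    rw [Filter.EventuallyLE, ae_restrict_iff' measurableSet_Ioi]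
    exact Filter.Eventually.of_forall hpos
  have hI : ENNReal.ofReal (∫ t in Set.Ioi (0 : ℝ), g t) =
      ∫⁻ t in Set.Ioi (0 : ℝ), ENNReal.ofReal (g t) :=
    ofReal_integral_eq_lintegral_ofReal hint' hae
  have hU := h1 K J hJ z hz0
  rw [← ha] at hU
  have hI2 : ENNReal.ofReal (∫ t in Set.Ioi (0 : ℝ), g t) =
      (torsionOrder K : ℝ≥0∞) * ∑' I : Cls K J, ENNReal.ofReal (cst K * gam K z *
      ((Ideal.absNorm I.1 : ℝ) * (Ideal.absNorm J : ℝ)) ^ (-z)) := by
    rw [hI, ← hU]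
  have hNJ : (0 : ℝ) < (Ideal.absNorm J : ℝ) := by
    have : Ideal.absNorm J ≠ 0 := by
      rw [Ne, Ideal.absNorm_eq_zero_iff]; exact hJ
    exact_mod_cast Nat.pos_of_ne_zero this
  set C : ℝ := cst K * gam K z * (Ideal.absNorm J : ℝ) ^ (-z) with hC
  have hCpos : 0 < C := mul_pos (mul_pos (MEL.cst_pos K) (MEL.gam_pos K hz0))
    (Real.rpow_pos_of_pos hNJ _)
  have hterm : ∀ I : Cls K J, cst K * gam K z *
      ((Ideal.absNorm I.1 : ℝ) * (Ideal.absNorm J : ℝ)) ^ (-z) =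
      C * (Ideal.absNorm I.1 : ℝ) ^ (-z) := by
    intro I
    rw [Real.mul_rpow (Nat.cast_nonneg _) hNJ.le, hC]
    ring
  simp_rw [hterm] at hI2
  have hw : (torsionOrder K : ℝ≥0∞) ≠ 0 := by
    exact_mod_cast torsionOrder_ne_zero K
  have hne : (∑' I : Cls K J, ENNReal.ofReal (C * (Ideal.absNorm I.1 : ℝ) ^ (-z))) ≠ ⊤ := by
    intro htop
    rw [htop, ENNReal.mul_top hw] at hI2
    exact ENNReal.ofReal_ne_top hI2
  have hnn : ∀ I : Cls K J, 0 ≤ C * (Ideal.absNorm I.1 : ℝ) ^ (-z) := fun I =>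
    mul_nonneg hCpos.le (Real.rpow_nonneg (Nat.cast_nonneg _) _)
  have hsum : Summable fun I : Cls K J => C * (Ideal.absNorm I.1 : ℝ) ^ (-z) := by
    have := ENNReal.summable_toReal hne
    refine this.congr ?_
    intro I
    rw [ENNReal.toReal_ofReal (hnn I)]
  have hsum' : Summable fun I : Cls K J => (Ideal.absNorm I.1 : ℝ) ^ (-z) :=
    (summable_mul_left_iff hCpos.ne').1 hsum
  refine ⟨hsum', ?_⟩
  have hval2 : P.Λ ((a : ℝ) : ℂ) = (((∫ t in Set.Ioi (0 : ℝ), g t) : ℝ) : ℂ) := by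
    rw [← hval, mellin, setIntegral_congr_fun measurableSet_Ioi heq]
    exact integral_complex_ofReal
  rw [hval2]
  congr 1
  have h6 : (∑' I : Cls K J, ENNReal.ofReal (C * (Ideal.absNorm I.1 : ℝ) ^ (-z))) =
      ENNReal.ofReal (∑' I : Cls K J, C * (Ideal.absNorm I.1 : ℝ) ^ (-z)) :=
    (ENNReal.ofReal_tsum_of_nonneg hnn hsum).symm
  rw [h6] at hI2
  have h7 : 0 ≤ ∫ t in Set.Ioi (0 : ℝ), g t := setIntegral_nonneg measurableSet_Ioi hpos
  have h8 : 0 ≤ ∑' I : Cls K J, C * (Ideal.absNorm I.1 : ℝ) ^ (-z) := tsum_nonneg hnn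
  have h9 := congrArg ENNReal.toReal hI2
  rw [ENNReal.toReal_ofReal h7, ENNReal.toReal_mul, ENNReal.toReal_ofReal h8,
    ENNReal.toReal_natCast, tsum_mul_left] at h9
  rw [h9, hC]
  ring

end HEZ
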