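import Pool.Agent.HEZ.St

/-!
# The integral for one element
-/

set_option autoImplicit false

open NumberField NumberField.InfinitePlace NumberField.Units Module MeasureTheory
open scoped Real nonZeroDivisors ENNReal

namespace HEZ

namespace ONE

/-- the factor at one place -/
noncomputable def ff1 (a b s : ℝ) : ℝ := Real.exp (-a * Real.exp s + b * s)

lemma ff1_cont (a b : ℝ) : Continuous (ff1 a b) := by
  unfold ff1
  fun_prop

lemma ff1_nonneg (a b s : ℝ) : 0 ≤ ff1 a b s := (Real.exp_pos _).le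

lemma ff1_int (h : S_GAM) {a b : ℝ} (ha : 0 < a) (hb : 0 < b) : Integrable (ff1 a b) := by
  refine ⟨(ff1_cont a b).aestronglyMeasurable, ?_⟩
  rw [hasFiniteIntegral_iff_ofReal (Filter.Eventually.of_forall fun s => ff1_nonneg a b s)]
  have h1 := h a b ha hb
  simp only [ff1]
  rw [h1]
  exact ENNReal.ofReal_lt_top

lemma ff1_val (h : S_GAM) {a b : ℝ} (ha : 0 < a) (hb : 0 < b) :
    ∫ s, ff1 a b s = a ^ (-b) * Real.Gamma b := by
  rw [integral_eq_lintegral_of_nonneg_ae (Filter.Eventually.of_forall fun s => ff1_nonneg a b s)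
    (ff1_cont a b).aestronglyMeasurable]
  have h1 := h a b ha hb
  simp only [ff1]
  rw [h1, ENNReal.toReal_ofReal]
  exact mul_nonneg (Real.rpow_nonneg ha.le _) (Real.Gamma_pos_of_pos hb).le

lemma lint_prod (h : S_GAM) {ι : Type} [Fintype ι] (a b : ι → ℝ) (ha : ∀ i, 0 < a i)
    (hb : ∀ i, 0 < b i) : ∫⁻ s : ι → ℝ, ENNReal.ofReal (∏ i, ff1 (a i) (b i) (s i)) =
      ENNReal.ofReal (∏ i, (a i ^ (-b i) * Real.Gamma (b i))) := by
  have h1 : Integrable (fun s : ι → ℝ => ∏ i, ff1 (a i) (b i) (s i)) :=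
    Integrable.fintype_prod fun i => ff1_int h (ha i) (hb i)
  rw [← ofReal_integral_eq_lintegral_ofReal h1 (Filter.Eventually.of_forall fun s =>
    Finset.prod_nonneg fun i _ => ff1_nonneg _ _ _)]
  rw [integral_fintype_prod_volume_eq_prod (fun i => ff1 (a i) (b i))]
  congr 1
  exact Finset.prod_congr rfl fun i _ => ff1_val h (ha i) (hb i)

section Field

variable {K : Type} [Field K] [NumberField K]

open scoped Classical in
lemma prod_val (x : K) (hx : x ≠ 0) (z : ℝ) :
    ∏ w : InfinitePlace K, ((π * w.mult * (w x) ^ 2) ^ (-(z * w.mult / 2)) *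
      Real.Gamma (z * w.mult / 2)) =
      gam K z * |((Algebra.norm ℚ x : ℚ) : ℝ)| ^ (-z) := by
  have hpos : ∀ w : InfinitePlace K, 0 < w x := fun w => pos_iff.mpr hx
  have h1 : |((Algebra.norm ℚ x : ℚ) : ℝ)| ^ (-z) =
      ∏ w : InfinitePlace K, (w x ^ mult w) ^ (-z) := by
    rw [Real.finsetProd_rpow _ _ (fun w _ => by have := hpos w; positivity),
      prod_eq_abs_norm]
    push_cast
    rfl
  rw [h1, gam, prod_eq_prod_mul_prod, prod_eq_prod_mul_prod]
  have h2 : ∏ w : {w : InfinitePlace K // IsReal w},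
      ((π * (w.1.mult : ℝ) * (w.1 x) ^ 2) ^ (-(z * w.1.mult / 2)) *
        Real.Gamma (z * w.1.mult / 2)) =
      (π ^ (-(z / 2)) * Real.Gamma (z / 2)) ^ nrRealPlaces K *
        ∏ w : {w : InfinitePlace K // IsReal w}, (w.1 x ^ mult w.1) ^ (-z) := by
    rw [nrRealPlaces, ← Finset.card_univ, ← Finset.prod_const, ← Finset.prod_mul_distrib]
    refine Finset.prod_congr rfl fun w _ => ?_
    rw [mult_isReal]
    have := hpos w.1
    rw [Nat.cast_one, mul_one, mul_one, pow_one, Real.mul_rpow Real.pi_pos.le (by positivity),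
      ← Real.rpow_natCast (w.1 x) 2, ← Real.rpow_mul this.le]
    have e : ((2 : ℕ) : ℝ) * -(z / 2) = -z := by push_cast; ring
    rw [e]
    ring
  have h3 : ∏ w : {w : InfinitePlace K // IsComplex w},
      ((π * (w.1.mult : ℝ) * (w.1 x) ^ 2) ^ (-(z * w.1.mult / 2)) *
        Real.Gamma (z * w.1.mult / 2)) =
      ((2 * π) ^ (-z) * Real.Gamma z) ^ nrComplexPlaces K *
        ∏ w : {w : InfinitePlace K // IsComplex w}, (w.1 x ^ mult w.1) ^ (-z) := by
    rw [nrComplexPlaces, ← Finset.card_univ, ← Finset.prod_const, ← Finset.prod_mul_distrib]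
    refine Finset.prod_congr rfl fun w _ => ?_
    rw [mult_isComplex]
    have := hpos w.1
    have e1 : z * ((2 : ℕ) : ℝ) / 2 = z := by push_cast; ring
    have e2 : π * ((2 : ℕ) : ℝ) = 2 * π := by push_cast; ring
    rw [e1, e2, Real.mul_rpow (by positivity) (by positivity)]
    ring
  rw [h2, h3]
  ring

lemma expo (x : K) (z τ : ℝ) (u : Fin (rank K) → ℝ) :
    Real.exp (-π * Q K (fun w => Real.exp τ * yy K u w) x + (finrank ℚ K : ℝ) * z / 2 * τ) =
      ∏ w : InfinitePlace K, ff1 (π * w.mult * (w x) ^ 2) (z * w.mult / 2)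
        (τ + ∑ i, 2 * u i * Real.log (w (fundSystem K i : K))) := by
  simp only [ff1]
  rw [← Real.exp_sum]
  congr 1
  rw [Finset.sum_add_distrib]
  congr 1
  · rw [Q, Finset.mul_sum]
    refine Finset.sum_congr rfl fun w _ => ?_
    rw [yy, ← Real.exp_add]
    ring
  · have h1 : ∑ w : InfinitePlace K, (z * (w.mult : ℝ) / 2) *
        (τ + ∑ i, 2 * u i * Real.log (w (fundSystem K i : K))) =
        z / 2 * ((∑ w : InfinitePlace K, (w.mult : ℝ)) * τ +
          ∑ i, 2 * u i * ∑ w : InfinitePlace K,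
            (w.mult : ℝ) * Real.log (w (fundSystem K i : K))) := by
      rw [mul_add, Finset.sum_mul, Finset.mul_sum]
      simp only [Finset.mul_sum]
      rw [Finset.sum_comm (s := (Finset.univ : Finset (Fin (rank K)))), ← Finset.sum_add_distrib]
      refine Finset.sum_congr rfl fun w _ => ?_
      rw [mul_add, Finset.mul_sum]
      congr 1
      · ring
      · refine Finset.sum_congr rfl fun i _ => ?_
        ring
    rw [h1]
    have h2 : ∑ w : InfinitePlace K, (w.mult : ℝ) = (finrank ℚ K : ℝ) := by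
      rw [← sum_mult_eq (K := K)]
      push_cast
      rfl
    have h3 : ∀ i, ∑ w : InfinitePlace K,
        (w.mult : ℝ) * Real.log (w (fundSystem K i : K)) = 0 := fun i =>
      sum_mult_mul_log (fundSystem K i)
    simp only [h3, mul_zero, Finset.sum_const_zero]
    rw [h2]
    ring

end Field

end ONE

open ONE

theorem one (h1 : S_CHV) (h2 : S_GAM) : S_ONE := by
  intro K _ _ x hx z hz
  have ha : ∀ w : InfinitePlace K, 0 < π * (w.mult : ℝ) * (w x) ^ 2 := by
    intro w
    have h3 : 0 < w x := pos_iff.mpr hx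
    have h4 : (0 : ℝ) < w.mult := by
      have := w.mult_pos
      positivity
    positivity
  have hb : ∀ w : InfinitePlace K, 0 < z * (w.mult : ℝ) / 2 := by
    intro w
    have h4 : (0 : ℝ) < w.mult := by
      have := w.mult_pos
      positivity
    positivity
  simp only [expo]
  have hm : Measurable (fun s : InfinitePlace K → ℝ => ENNReal.ofReal
      (∏ w : InfinitePlace K, ff1 (π * w.mult * (w x) ^ 2) (z * w.mult / 2) (s w))) := by
    refine (Continuous.measurable ?_).ennreal_ofReal
    exact continuous_finsetProd _ fun w _ => (ff1_cont _ _).comp (continuous_apply w)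
  rw [h1 K (fun s : InfinitePlace K → ℝ => ENNReal.ofReal
      (∏ w : InfinitePlace K, ff1 (π * w.mult * (w x) ^ 2) (z * w.mult / 2) (s w))) hm,
    lint_prod h2 (fun w : InfinitePlace K => π * w.mult * (w x) ^ 2)
      (fun w : InfinitePlace K => z * w.mult / 2) ha hb, prod_val x hx z]
  rw [← ENNReal.ofReal_mul (by unfold cst; have := regulator_pos K; positivity)]
  congr 1
  ring

end HEZ
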