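import Pool.Agent.HEZ.St

/-!
# Project ABS, module ORB: the nonzero elements of `J` by ideals and units
-/

set_option autoImplicit false

open NumberField NumberField.InfinitePlace NumberField.Units Module MeasureTheory
open scoped Real nonZeroDivisors ENNReal

namespace HEZ

namespace ORB

variable {K : Type} [Field K] [NumberField K]

lemma span_gen (J : Ideal (𝓞 K)) (I : Cls K J) : Ideal.span {gen K J I} = I.1 * J := by
  have := I.2.2
  exact Ideal.span_singleton_generator (I.1 * J)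

lemma gen_ne (J : Ideal (𝓞 K)) (hJ : J ≠ ⊥) (I : Cls K J) : gen K J I ≠ 0 := by
  intro h
  have h1 := span_gen J I
  rw [h, Ideal.span_singleton_zero] at h1
  rcases Ideal.mul_eq_bot.1 h1.symm with h2 | h2
  · exact I.2.1 h2
  · exact hJ h2

lemma norm_gen (J : Ideal (𝓞 K)) (I : Cls K J) :
    |((Algebra.norm ℚ (gen K J I : K) : ℚ) : ℝ)| =
      (Ideal.absNorm I.1 : ℝ) * (Ideal.absNorm J : ℝ) := by
  have h1 := congrArg Ideal.absNorm (span_gen J I)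
  rw [Ideal.absNorm_span_singleton, map_mul] at h1
  have h2 : (Algebra.norm ℚ (gen K J I : K) : ℚ) = ((Algebra.norm ℤ (gen K J I) : ℤ) : ℚ) :=
    (Algebra.coe_norm_int (gen K J I)).symm
  rw [h2]
  have h3 : |(((Algebra.norm ℤ (gen K J I) : ℤ) : ℚ) : ℝ)| =
      ((Algebra.norm ℤ (gen K J I)).natAbs : ℝ) := by
    rw [Nat.cast_natAbs]
    push_cast
    rfl
  rw [h3, h1]
  push_cast
  rfl

lemma mem_idl (J : Ideal (𝓞 K)) (x : K) : x ∈ idl K J ↔ ∃ a ∈ J, (a : K) = x := by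
  unfold idl
  rw [Submodule.mem_map]
  rfl

lemma el_mem (J : Ideal (𝓞 K)) (I : Cls K J) (e : (𝓞 K)ˣ) :
    ((e : 𝓞 K) : K) * (gen K J I : K) ∈ idl K J := by
  rw [mem_idl]
  have h0 : I.1 * J ≤ J := Ideal.mul_le_right
  have h2 : gen K J I ∈ J := by
    refine h0 ?_
    rw [← span_gen J I]
    exact Ideal.mem_span_singleton_self _
  have h3 : (e : 𝓞 K) * gen K J I ∈ J := Ideal.mul_mem_left J _ h2
  refine ⟨(e : 𝓞 K) * gen K J I, h3, ?_⟩
  exact map_mul (algebraMap (𝓞 K) K) _ _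

lemma el_ne (J : Ideal (𝓞 K)) (hJ : J ≠ ⊥) (I : Cls K J) (e : (𝓞 K)ˣ) :
    ((e : 𝓞 K) : K) * (gen K J I : K) ≠ 0 := by
  have h1 : ((e : 𝓞 K) : K) ≠ 0 := by
    rw [Ne, RingOfIntegers.coe_eq_zero_iff]
    exact e.ne_zero
  have h2 : (gen K J I : K) ≠ 0 := by
    rw [Ne, RingOfIntegers.coe_eq_zero_iff]
    exact gen_ne J hJ I
  exact mul_ne_zero h1 h2

/-- the map of the bijection -/
noncomputable def toEl (J : Ideal (𝓞 K)) (hJ : J ≠ ⊥) (p : Cls K J × (𝓞 K)ˣ) :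
    {x : K // x ∈ idl K J ∧ x ≠ 0} :=
  ⟨((p.2 : 𝓞 K) : K) * (gen K J p.1 : K), el_mem J p.1 p.2, el_ne J hJ p.1 p.2⟩

lemma toEl_inj (J : Ideal (𝓞 K)) (hJ : J ≠ ⊥) : Function.Injective (toEl (K := K) J hJ) := by
  rintro ⟨I, e⟩ ⟨I', e'⟩ h
  have h1 : ((e : 𝓞 K) : K) * (gen K J I : K) = ((e' : 𝓞 K) : K) * (gen K J I' : K) :=
    congrArg Subtype.val h
  have h2 : (e : 𝓞 K) * gen K J I = (e' : 𝓞 K) * gen K J I' := by
    apply RingOfIntegers.coe_injective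
    push_cast
    exact h1
  have h3 : I.1 * J = I'.1 * J := by
    rw [← span_gen J I, ← span_gen J I', Ideal.span_singleton_eq_span_singleton]
    refine ⟨e * e'⁻¹, ?_⟩
    have h4 : gen K J I * (e : 𝓞 K) = (e' : 𝓞 K) * gen K J I' := by
      rw [mul_comm]
      exact h2
    rw [Units.val_mul, ← mul_assoc, h4, mul_comm (e' : 𝓞 K), mul_assoc, Units.mul_inv, mul_one]
  have h5 : I.1 = I'.1 := mul_right_cancel₀ (b := J) (by simpa using hJ) h3
  have h6 : I = I' := Subtype.ext h5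
  subst h6
  have h7 : (e : 𝓞 K) = e' := mul_right_cancel₀ (gen_ne J hJ I) h2
  rw [Units.ext h7]

lemma toEl_surj (J : Ideal (𝓞 K)) (hJ : J ≠ ⊥) : Function.Surjective (toEl (K := K) J hJ) := by
  rintro ⟨x, hx, hx0⟩
  obtain ⟨a, ha, rfl⟩ := (mem_idl J x).1 hx
  have ha0 : a ≠ 0 := fun h => hx0 (by rw [h]; rfl)
  have h1 : J ∣ Ideal.span {a} := Ideal.dvd_span_singleton.2 ha
  obtain ⟨I, hI⟩ := h1
  have h2 : I * J = Ideal.span {a} := by rw [mul_comm, hI]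
  have hI0 : I ≠ ⊥ := by
    rintro rfl
    rw [Ideal.bot_mul] at h2
    exact ha0 (Ideal.span_singleton_eq_bot.1 h2.symm)
  let I' : Cls K J := ⟨I, hI0, ⟨⟨a, h2⟩⟩⟩
  have h3 : Ideal.span {gen K J I'} = Ideal.span {a} := (span_gen J I').trans h2
  obtain ⟨u, hu⟩ := Ideal.span_singleton_eq_span_singleton.1 h3
  refine ⟨(I', u), Subtype.ext ?_⟩
  show ((u : 𝓞 K) : K) * (gen K J I' : K) = (a : K)
  rw [← hu, mul_comm]
  push_cast
  rfl

end ORB

theorem orb : S_ORB := by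
  intro K _ _ J hJ
  refine ⟨fun I => ⟨ORB.gen_ne J hJ I, ORB.norm_gen J I⟩, fun F => ?_⟩
  have h1 := (Equiv.ofBijective (ORB.toEl J hJ) ⟨ORB.toEl_inj J hJ, ORB.toEl_surj J hJ⟩).tsum_eq
    (fun x : {x : K // x ∈ idl K J ∧ x ≠ 0} => F x)
  rw [← h1]
  exact ENNReal.tsum_prod (f := fun (I : Cls K J) (e : (𝓞 K)ˣ) =>
    F (((e : 𝓞 K) : K) * (gen K J I : K)))

end HEZ
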