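import Pool.Agent.HEZ.St

/-!
# Poisson summation on `ℝ^n`
-/

open MeasureTheory Set
open scoped Real Topology

namespace HEZ.PER

variable {ι : Type} [Fintype ι]

/-- The quotient map onto the torus. -/
def qt (x : ι → ℝ) : UnitAddTorus ι := fun i => (x i : UnitAddCircle)

theorem qt_open : IsOpenQuotientMap (qt (ι := ι)) := by
  have h : ∀ _ : ι, IsOpenQuotientMap (fun x : ℝ => (x : UnitAddCircle)) :=
    fun _ => QuotientAddGroup.isOpenQuotientMap_mk
  exact IsOpenQuotientMap.piMap h

/-- Equality in the torus. -/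
theorem qt_eq {x y : ι → ℝ} (h : qt x = qt y) : ∃ k : ι → ℤ, x = fun i => y i + k i := by
  have h1 : ∀ i, ∃ n : ℤ, (n : ℝ) = x i - y i := by
    intro i
    have := congrFun h i
    simp only [qt] at this
    rw [← sub_eq_zero, ← AddCircle.coe_sub, AddCircle.coe_eq_zero_iff] at this
    obtain ⟨n, hn⟩ := this
    exact ⟨n, by simpa using hn⟩
  choose k hk using h1
  exact ⟨k, by funext i; rw [hk i]; ring⟩

theorem qt_add (x : ι → ℝ) (k : ι → ℤ) : qt (fun i => x i + k i) = qt x := by
  funext i
  simp only [qt]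
  rw [AddCircle.coe_add]
  have : (((k i : ℤ) : ℝ) : UnitAddCircle) = 0 := by
    rw [AddCircle.coe_eq_zero_iff]; exact ⟨k i, by simp⟩
  rw [this, add_zero]

/-- The character on `ℝ^n`. -/
noncomputable def ch (k : ι → ℤ) (x : ι → ℝ) : ℂ :=
  Complex.exp (-2 * π * Complex.I * (∑ i, (k i : ℂ) * (x i : ℂ)))

theorem ch_cont (k : ι → ℤ) : Continuous (ch k) := by
  unfold ch; fun_prop

theorem ch_norm (k : ι → ℤ) (x : ι → ℝ) : ‖ch k x‖ = 1 := by
  unfold ch
  have : (-2 * π * Complex.I * (∑ i, (k i : ℂ) * (x i : ℂ))) =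
      ((-2 * π * (∑ i, (k i : ℝ) * (x i : ℝ)) : ℝ) : ℂ) * Complex.I := by
    push_cast; ring
  rw [this, Complex.norm_exp_ofReal_mul_I]

theorem ch_mF (k : ι → ℤ) (x : ι → ℝ) : UnitAddTorus.mFourier (-k) (qt x) = ch k x := by
  simp only [UnitAddTorus.mFourier, ContinuousMap.coe_mk, qt, Pi.neg_apply, fourier_coe_apply]
  rw [← Complex.exp_sum]
  unfold ch
  congr 1
  rw [Finset.mul_sum]
  refine Finset.sum_congr rfl fun i _ => ?_
  push_cast
  ring

theorem ch_add (k : ι → ℤ) (x : ι → ℝ) (m : ι → ℤ) : ch k (fun i => x i + m i) = ch k x := by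
  rw [← ch_mF, ← ch_mF, qt_add]

/-- The cubes. -/
def cube (m : ι → ℤ) : Set (ι → ℝ) := {x | ∀ i, x i ∈ Ioc (m i : ℝ) (m i + 1)}

theorem cube_eq (m : ι → ℤ) : cube m = Set.pi Set.univ fun i => Ioc (m i : ℝ) (m i + 1) := by
  ext x; simp [cube, Set.mem_pi]

theorem cube_meas (m : ι → ℤ) : MeasurableSet (cube m) := by
  rw [cube_eq]; exact MeasurableSet.univ_pi fun i => measurableSet_Ioc

theorem cube_vol (m : ι → ℤ) : volume (cube m) = 1 := by
  rw [cube_eq, volume_pi_pi]; simp

theorem cube_disj : Pairwise (Function.onFun Disjoint (cube (ι := ι))) := by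
  intro m m' hne
  rw [Function.onFun, Set.disjoint_left]
  intro x hx hx'
  apply hne
  funext i
  have h1 := hx i
  have h2 := hx' i
  rw [Set.mem_Ioc] at h1 h2
  have a : (m i : ℝ) < m' i + 1 := by linarith
  have b : (m' i : ℝ) < m i + 1 := by linarith
  have a' : m i < m' i + 1 := by exact_mod_cast a
  have b' : m' i < m i + 1 := by exact_mod_cast b
  omega

theorem cube_union : (⋃ m : ι → ℤ, cube m) = Set.univ := by
  rw [Set.eq_univ_iff_forall]
  intro x
  rw [Set.mem_iUnion]
  refine ⟨fun i => ⌈x i⌉ - 1, fun i => ?_⟩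
  rw [Set.mem_Ioc]
  push_cast
  constructor
  · linarith [Int.ceil_lt_add_one (x i)]
  · linarith [Int.le_ceil (x i)]

theorem cube_bound {x : ι → ℝ} (hx : x ∈ cube (0 : ι → ℤ)) : ∀ i, |x i| ≤ 1 := by
  intro i
  have := hx i
  simp only [Pi.zero_apply, Int.cast_zero, zero_add, mem_Ioc] at this
  rw [abs_le]; constructor <;> linarith

/-- Translation of the integral over a cube. -/
theorem cube_int {E : Type} [NormedAddCommGroup E] [NormedSpace ℝ E] (g : (ι → ℝ) → E)
    (m : ι → ℤ) : ∫ x in cube m, g x = ∫ x in cube 0, g (fun i => x i + m i) := by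
  have h1 := (measurePreserving_add_right (volume : Measure (ι → ℝ))
    (fun i => (m i : ℝ))).setIntegral_preimage_emb
      (MeasurableEquiv.addRight (fun i => (m i : ℝ))).measurableEmbedding g (cube m)
  rw [← h1]
  have h2 : (fun x : ι → ℝ => x + fun i => (m i : ℝ)) ⁻¹' cube m = cube 0 := by
    ext x
    simp only [cube, Set.mem_preimage, Set.mem_ofPred_eq, Pi.add_apply, Set.mem_Ioc,
      Pi.zero_apply, Int.cast_zero, zero_add]
    constructor
    · intro h i; constructor <;> linarith [(h i).1, (h i).2]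
    · intro h i; constructor <;> linarith [(h i).1, (h i).2]
  rw [h2]
  rfl

variable (f : (ι → ℝ) → ℂ)

/-- The hypothesis of uniform summability. -/
def Hyp : Prop := ∀ R : ℝ, ∃ u : (ι → ℤ) → ℝ, Summable u ∧ ∀ (m : ι → ℤ) (x : ι → ℝ),
  (∀ i, |x i| ≤ R) → ‖f (fun i => x i + m i)‖ ≤ u m

/-- The periodization. -/
noncomputable def per (x : ι → ℝ) : ℂ := ∑' m : ι → ℤ, f (fun i => x i + m i)

variable {f}

theorem per_cont (hc : Continuous f) (h : Hyp f) : Continuous (per f) := by
  rw [continuous_iff_continuousAt]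
  intro x
  obtain ⟨u, hu, hb⟩ := h (∑ i, |x i| + 1)
  let s : Set (ι → ℝ) := Set.pi Set.univ fun i => {t : ℝ | |t| < ∑ i, |x i| + 1}
  have hs : IsOpen s := isOpen_set_pi Set.finite_univ fun i _ =>
    isOpen_lt continuous_abs continuous_const
  have hx : x ∈ s := by
    intro i _
    have := Finset.single_le_sum (f := fun i => |x i|) (fun i _ => abs_nonneg (x i))
      (Finset.mem_univ i)
    simp only [Set.mem_ofPred_eq]
    linarith
  have hco : ContinuousOn (fun y => ∑' m : ι → ℤ, f (fun i => y i + m i)) s := by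
    refine continuousOn_tsum (fun m => (hc.comp (by fun_prop)).continuousOn) hu ?_
    intro m y hy
    exact hb m y fun i => (hy i (Set.mem_univ i)).le
  exact hco.continuousAt (hs.mem_nhds hx)

theorem per_add (x : ι → ℝ) (k : ι → ℤ) : per f (fun i => x i + k i) = per f x := by
  unfold per
  rw [← (Equiv.addLeft k).tsum_eq (fun m : ι → ℤ => f (fun i => x i + m i))]
  refine tsum_congr fun m => ?_
  congr 1
  funext i
  simp only [Equiv.coe_addLeft, Pi.add_apply]
  push_cast
  ring

/-- The periodization on the torus. -/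
noncomputable def tor (f : (ι → ℝ) → ℂ) (y : UnitAddTorus ι) : ℂ :=
  per f (Function.surjInv (qt_open (ι := ι)).surjective y)

theorem tor_qt (x : ι → ℝ) : tor f (qt x) = per f x := by
  unfold tor
  obtain ⟨k, hk⟩ := qt_eq (Function.surjInv_eq (qt_open (ι := ι)).surjective (qt x))
  rw [hk, per_add]

theorem tor_cont (hc : Continuous f) (h : Hyp f) : Continuous (tor f) := by
  rw [← (qt_open (ι := ι)).continuous_comp_iff]
  have : tor f ∘ qt = per f := by funext x; exact tor_qt x
  rw [this]
  exact per_cont hc h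

theorem main (hc : Continuous f) (h : Hyp f) (k : ι → ℤ) :
    UnitAddTorus.mFourierCoeff (tor f) k = ∫ x : ι → ℝ, ch k x * f x := by
  obtain ⟨u, hu, hb⟩ := h 1
  have hgc : Continuous fun x => ch k x * f x := (ch_cont k).mul hc
  -- integrability on the cubes
  have hfin : ∀ m : ι → ℤ, IntegrableOn (fun x => ch k x * f x) (cube m) := by
    intro m
    have hK : IsCompact (Set.pi Set.univ fun i => Icc (m i : ℝ) (m i + 1)) :=
      isCompact_univ_pi fun i => isCompact_Icc
    refine (hgc.continuousOn.integrableOn_compact hK).mono_set ?_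
    rw [cube_eq]
    exact Set.pi_mono fun i _ => Ioc_subset_Icc_self
  have hbd : ∀ m : ι → ℤ, ∫ x in cube m, ‖ch k x * f x‖ ≤ u m := by
    intro m
    rw [cube_int]
    have h1 : ∫ x in cube (0 : ι → ℤ), ‖ch k (fun i => x i + m i) * f (fun i => x i + m i)‖ ≤
        ∫ _ in cube (0 : ι → ℤ), u m := by
      refine setIntegral_mono_on ?_ ?_ (cube_meas 0) ?_
      · have hK : IsCompact (Set.pi Set.univ fun i : ι => Icc ((0 : ι → ℤ) i : ℝ)
            ((0 : ι → ℤ) i + 1)) := isCompact_univ_pi fun i => isCompact_Icc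
        refine (ContinuousOn.integrableOn_compact hK ?_).mono_set ?_
        · exact ((hgc.comp (by fun_prop : Continuous fun x : ι → ℝ =>
            fun i => x i + (m i : ℝ))).norm).continuousOn
        · rw [cube_eq]
          exact Set.pi_mono fun i _ => Ioc_subset_Icc_self
      · exact integrableOn_const (by rw [cube_vol]; simp)
      · intro x hx
        rw [norm_mul, ch_norm, one_mul]
        exact hb m x (cube_bound hx)
    refine h1.trans ?_
    rw [setIntegral_const]
    simp [Measure.real, cube_vol]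
  have hsum : Summable fun m : ι → ℤ => ∫ x in cube m, ‖ch k x * f x‖ :=
    Summable.of_nonneg_of_le (fun m => integral_nonneg fun x => norm_nonneg _) hbd hu
  have hint : IntegrableOn (fun x => ch k x * f x) (⋃ m : ι → ℤ, cube m) :=
    integrableOn_iUnion_of_summable_integral_norm hfin hsum
  have hR := hasSum_integral_iUnion (fun m => cube_meas m) cube_disj hint
  rw [cube_union, Measure.restrict_univ] at hR
  -- the coefficient
  rw [UnitAddTorus.mFourierCoeff_eq_integral _ _ (0 : ι → ℝ)]
  have hset : {x : ι → ℝ | ∀ i, x i ∈ Ioc ((0 : ι → ℝ) i) ((0 : ι → ℝ) i + 1)} =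
      cube (0 : ι → ℤ) := by
    ext x; simp [cube]
  rw [hset]
  have hL : ∫ x in cube (0 : ι → ℤ),
      UnitAddTorus.mFourier (-k) (fun i => (x i : UnitAddCircle)) •
        tor f (fun i => (x i : UnitAddCircle)) =
      ∫ x in cube (0 : ι → ℤ), ∑' m : ι → ℤ,
        ch k (fun i => x i + m i) * f (fun i => x i + m i) := by
    refine setIntegral_congr_fun (cube_meas 0) fun x _ => ?_
    have e1 : UnitAddTorus.mFourier (-k) (fun i => (x i : UnitAddCircle)) = ch k x := ch_mF k x
    have e2 : tor f (fun i => (x i : UnitAddCircle)) = per f x := tor_qt x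
    simp only [e1, e2, smul_eq_mul, ch_add, per]
    rw [tsum_mul_left]
  rw [hL]
  have hF := hasSum_integral_of_summable_integral_norm
    (μ := (volume : Measure (ι → ℝ)).restrict (cube (0 : ι → ℤ)))
    (F := fun (m : ι → ℤ) (x : ι → ℝ) => ch k (fun i => x i + m i) * f (fun i => x i + m i))
    (fun m => by
      have hK : IsCompact (Set.pi Set.univ fun i : ι => Icc ((0 : ι → ℤ) i : ℝ)
          ((0 : ι → ℤ) i + 1)) := isCompact_univ_pi fun i => isCompact_Icc
      refine (ContinuousOn.integrableOn_compact hK ?_).mono_set ?_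
      · exact (hgc.comp (by fun_prop : Continuous fun x : ι → ℝ =>
          fun i => x i + (m i : ℝ))).continuousOn
      · rw [cube_eq]
        exact Set.pi_mono fun i _ => Ioc_subset_Icc_self)
    (by
      have : (fun m : ι → ℤ => ∫ x in cube (0 : ι → ℤ),
          ‖ch k (fun i => x i + m i) * f (fun i => x i + m i)‖) =
          fun m : ι → ℤ => ∫ x in cube m, ‖ch k x * f x‖ := by
        funext m; rw [cube_int (fun x => ‖ch k x * f x‖) m]
      rw [this]; exact hsum)
  rw [← hF.tsum_eq, ← hR.tsum_eq]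
  refine tsum_congr fun m => ?_
  rw [cube_int (fun x => ch k x * f x) m]

end HEZ.PER

namespace HEZ

theorem per : S_PER := by
  intro ι _ f hc h hs
  have hco := PER.tor_cont hc h
  let F : C(UnitAddTorus ι, ℂ) := ⟨PER.tor f, hco⟩
  have hcoef : ∀ k, UnitAddTorus.mFourierCoeff F k = ∫ x : ι → ℝ,
      Complex.exp (-2 * π * Complex.I * (∑ i, (k i : ℂ) * (x i : ℂ))) * f x := by
    intro k
    exact PER.main hc h k
  have hsF : Summable (UnitAddTorus.mFourierCoeff F) := by
    have : UnitAddTorus.mFourierCoeff F = fun k : ι → ℤ => ∫ x : ι → ℝ,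
      Complex.exp (-2 * π * Complex.I * (∑ i, (k i : ℂ) * (x i : ℂ))) * f x := by
      funext k; exact hcoef k
    rw [this]; exact hs
  have h1 := (UnitAddTorus.hasSum_mFourier_series_apply_of_summable hsF
    (PER.qt (0 : ι → ℝ))).tsum_eq
  have h2 : F (PER.qt (0 : ι → ℝ)) = ∑' m : ι → ℤ, f (fun i => (m i : ℝ)) := by
    change PER.tor f (PER.qt (0 : ι → ℝ)) = _
    rw [PER.tor_qt]
    unfold PER.per
    refine tsum_congr fun m => ?_
    simp
  rw [← h2, ← h1]
  refine tsum_congr fun k => ?_
  rw [hcoef k]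
  have h3 : UnitAddTorus.mFourier k (PER.qt (0 : ι → ℝ)) = 1 := by
    have := PER.ch_mF (-k) (0 : ι → ℝ)
    rw [neg_neg] at this
    rw [this]
    simp [PER.ch]
  rw [h3, smul_eq_mul, mul_one]

end HEZ
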