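import Pool.Agent.HEZ.St

/-!
# The inversion formula for the theta series of a positive definite matrix
-/

open NumberField NumberField.InfinitePlace NumberField.Units Module MeasureTheory IsDedekindDomain
open scoped Real nonZeroDivisors ENNReal

namespace HEZ

namespace POI

theorem summable_gauss (h1 : S_GSU) {ι : Type} [Fintype ι] [DecidableEq ι] (A : Matrix ι ι ℝ)
    (hA : A.PosDef) :
    Summable fun m : ι → ℤ => Real.exp (-π * qf A (fun i => (m i : ℝ))) := by
  obtain ⟨u, hu, h⟩ := h1 ι A hA 0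
  refine Summable.of_nonneg_of_le (fun m => (Real.exp_pos _).le) (fun m => ?_) hu
  have h2 := h m (fun _ => 0) (fun i => by simp)
  simpa using h2

theorem continuous_qf {ι : Type} [Fintype ι] (A : Matrix ι ι ℝ) : Continuous (qf A) := by
  unfold qf
  simp only [dotProduct, Matrix.mulVec]
  fun_prop

end POI

open POI in
theorem poi (h1 : HEZ.S_GSU) (h2 : HEZ.S_GFT) (h3 : HEZ.S_PER) : HEZ.S_POI := by
  intro ι _ _ A hA
  refine ⟨summable_gauss h1 A hA, ?_⟩
  have hk : ∀ k : ι → ℤ, ∫ x : ι → ℝ,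
      Complex.exp (-2 * π * Complex.I * (∑ i, (k i : ℂ) * (x i : ℂ))) *
        ((Real.exp (-π * qf A x) : ℝ) : ℂ) =
      (((Real.sqrt A.det)⁻¹ * Real.exp (-π * qf A⁻¹ (fun i => (k i : ℝ))) : ℝ) : ℂ) := by
    intro k
    have h4 := h2 ι A hA (fun i => (k i : ℝ))
    simp only [Complex.ofReal_intCast] at h4
    exact h4
  have hsum : Summable fun k : ι → ℤ =>
      (Real.sqrt A.det)⁻¹ * Real.exp (-π * qf A⁻¹ (fun i => (k i : ℝ))) :=
    (summable_gauss h1 A⁻¹ hA.inv).mul_left _
  have h5 := h3 ι (fun x => ((Real.exp (-π * qf A x) : ℝ) : ℂ)) (by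
    have := continuous_qf A
    fun_prop) (fun R => by
      obtain ⟨u, hu, h⟩ := h1 ι A hA R
      refine ⟨u, hu, fun m x hx => ?_⟩
      rw [Complex.norm_real, Real.norm_of_nonneg (Real.exp_pos _).le]
      exact h m x hx) (by
      simp only [hk]
      exact Complex.ofRealCLM.summable hsum)
  simp only [hk] at h5
  rw [← Complex.ofReal_tsum, ← Complex.ofReal_tsum] at h5
  have h6 := Complex.ofReal_injective h5
  rw [h6, tsum_mul_left]

end HEZ
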