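import Pool.Agent.HEZ.St

/-!
# Exponential decay of the theta series, uniform in the weights

The form `Q_1` is bounded below by a positive constant on the nonzero vectors of the lattice, so a
factor `exp (-δ t)` can be taken out of every term of the series except the one of the vector `0`.
-/

open NumberField NumberField.InfinitePlace NumberField.Units Module
open scoped Real

namespace HEZ

namespace THD

/-- A nonzero integer vector has a sum of squares of at least one. -/
lemma one_le_sum_sq {ι : Type} [Fintype ι] (m : ι → ℤ) (hm : m ≠ 0) :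
    (1 : ℝ) ≤ ∑ i, (m i : ℝ) ^ 2 := by
  obtain ⟨i, hi⟩ := Function.ne_iff.mp hm
  have h1 : (1 : ℤ) ≤ m i ^ 2 := by
    have hi' : m i ≠ 0 := hi
    have : 0 < m i ^ 2 := by positivity
    omega
  have h2 : (1 : ℝ) ≤ (m i : ℝ) ^ 2 := by exact_mod_cast h1
  exact h2.trans (Finset.single_le_sum (f := fun i => (m i : ℝ) ^ 2)
    (fun j _ => sq_nonneg _) (Finset.mem_univ i))

/-- The form with weights at least `s a` is at least `s` times the form with weights `a`. -/
lemma Q_ge {K : Type} [Field K] [NumberField K] (c c' : InfinitePlace K → ℝ)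
    (h : ∀ w, c w ≤ c' w) (x : K) : Q K c x ≤ Q K c' x := by
  unfold Q
  refine Finset.sum_le_sum fun w _ => ?_
  have h1 : (0 : ℝ) ≤ (w x) ^ 2 := sq_nonneg _
  have h2 : (0 : ℝ) ≤ (w.mult : ℝ) := Nat.cast_nonneg _
  exact mul_le_mul_of_nonneg_left (mul_le_mul_of_nonneg_right (h w) h1) h2

lemma Q_const {K : Type} [Field K] [NumberField K] (a : ℝ) (x : K) :
    Q K (fun _ => a) x = a * Q K (fun _ => 1) x := by
  unfold Q
  rw [Finset.mul_sum]
  refine Finset.sum_congr rfl fun w _ => ?_
  ring

lemma Q_zero {K : Type} [Field K] [NumberField K] (c : InfinitePlace K → ℝ) :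
    Q K c 0 = 0 := by
  unfold Q
  refine Finset.sum_eq_zero fun w _ => ?_
  simp

end THD

open THD in
/-- `THD`.  Exponential decay of the theta series, uniform in the weights. -/
theorem thd (h1 : HEZ.S_THI) (h2 : HEZ.S_GRA) (h3 : HEZ.S_PDL) : HEZ.S_THD := by
  classical
  intro K _ _ ι _ _ b c₀ hc₀
  obtain ⟨hsum, -⟩ := h1 K ι b
  obtain ⟨hpd, hm⟩ := h2 K ι b (fun _ => 1) (fun _ => one_pos)
  obtain ⟨d, hd, hq⟩ := h3 ι _ hpd
  have hlow : ∀ x : lat b, x ≠ 0 → d ≤ Q K (fun _ => 1) (x : K) := by
    rintro ⟨x, hx⟩ hx0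
    obtain ⟨m, rfl⟩ := (Submodule.mem_span_range_iff_exists_fun ℤ).mp hx
    have hm0 : m ≠ 0 := by
      rintro rfl
      apply hx0
      ext
      simp
    have h4 : (∑ i, m i • b i : K) = ∑ i, (m i : K) * b i := by
      refine Finset.sum_congr rfl fun i _ => ?_
      rw [zsmul_eq_mul]
    show d ≤ Q K (fun _ => 1) (∑ i, m i • b i : K)
    rw [h4, hm m]
    have h5 := hq (fun i => (m i : ℝ))
    have h6 := one_le_sum_sq m hm0
    nlinarith
  refine ⟨Real.exp (π * c₀ * d) * theta K (lat b) (fun _ => c₀), π * c₀ * d,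
    by positivity, fun t ht c hc => ?_⟩
  have ht0 : 0 < t := by linarith
  have hc0 : ∀ w, 0 < t * c w := fun w => mul_pos ht0 (hc₀.trans_le (hc w))
  have hS := hsum (fun w => t * c w) hc0
  have hS0 := hsum (fun _ => c₀) (fun _ => hc₀)
  have hkey : ∀ x : lat b, (if x = 0 then 0 else Real.exp (-π * Q K (fun w => t * c w) (x : K))) ≤
      Real.exp (-(π * c₀ * d) * (t - 1)) * Real.exp (-π * Q K (fun _ => c₀) (x : K)) := by
    intro x
    split_ifs with hx
    · positivity
    · rw [← Real.exp_add]
      apply Real.exp_le_exp.mpr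
      have h7 : Q K (fun _ => t * c₀) (x : K) ≤ Q K (fun w => t * c w) (x : K) :=
        Q_ge _ _ (fun w => mul_le_mul_of_nonneg_left (hc w) ht0.le) _
      rw [Q_const (t * c₀)] at h7
      rw [Q_const c₀]
      have h8 := hlow x hx
      have h9 : (t - 1) * c₀ * d ≤ (t - 1) * c₀ * Q K (fun _ => 1) (x : K) :=
        mul_le_mul_of_nonneg_left h8 (mul_nonneg (by linarith) hc₀.le)
      have hpi := Real.pi_pos
      have h10 : (t - 1) * c₀ * d + c₀ * Q K (fun _ => 1) (x : K) ≤
          Q K (fun w => t * c w) (x : K) := by linarith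
      have h11 := mul_le_mul_of_nonneg_left h10 hpi.le
      linarith
  have hsplit : theta K (lat b) (fun w => t * c w) = Real.exp (-π * Q K (fun w => t * c w) (0 : K)) +
      ∑' x : lat b, (if x = 0 then 0 else Real.exp (-π * Q K (fun w => t * c w) (x : K))) := by
    unfold theta
    have := hS.tsum_eq_add_tsum_ite (0 : lat b)
    rw [this]
    rfl
  rw [hsplit, Q_zero, mul_zero, Real.exp_zero, add_sub_cancel_left]
  have hSum1 : Summable fun x : lat b =>
      (if x = 0 then 0 else Real.exp (-π * Q K (fun w => t * c w) (x : K))) := by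
    refine Summable.of_nonneg_of_le (fun x => ?_) (fun x => hkey x) (hS0.mul_left _)
    split_ifs <;> positivity
  calc ∑' x : lat b, (if x = 0 then 0 else Real.exp (-π * Q K (fun w => t * c w) (x : K)))
      ≤ ∑' x : lat b, Real.exp (-(π * c₀ * d) * (t - 1)) *
          Real.exp (-π * Q K (fun _ => c₀) (x : K)) :=
        hSum1.tsum_le_tsum hkey (hS0.mul_left _)
    _ = Real.exp (-(π * c₀ * d) * (t - 1)) * theta K (lat b) (fun _ => c₀) := by
        rw [tsum_mul_left]
        rfl
    _ = Real.exp (π * c₀ * d) * theta K (lat b) (fun _ => c₀) * Real.exp (-(π * c₀ * d) * t) := by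
        have : Real.exp (-(π * c₀ * d) * (t - 1)) =
            Real.exp (π * c₀ * d) * Real.exp (-(π * c₀ * d) * t) := by
          rw [← Real.exp_add]
          congr 1
          ring
        rw [this]
        ring

end HEZ
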