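import Pool.Agent.HEZ.St

/-!
# HEZ, module THI: the inversion formula for the theta series of a lattice (helper23)
-/

set_option autoImplicit false

open NumberField NumberField.InfinitePlace NumberField.Units Module MeasureTheory
open scoped Real nonZeroDivisors ENNReal

namespace HEZ

namespace THI

variable {K : Type} [Field K] [NumberField K] {ι : Type} [Fintype ι]

/-- Coordinates of the lattice. -/
theorem exists_equiv (b : Basis ι ℚ K) : ∃ e : (ι → ℤ) ≃ lat b,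
    ∀ m : ι → ℤ, ((e m : lat b) : K) = ∑ i, (m i : K) * b i := by
  let B : Basis ι ℤ (Submodule.span ℤ (Set.range b)) := b.restrictScalars ℤ
  have hB : ∀ m : ι → ℤ, ((B.equivFun.symm m : Submodule.span ℤ (Set.range b)) : K) =
      ∑ i, (m i : K) * b i := by
    intro m
    rw [Basis.equivFun_symm_apply, Submodule.coe_sum]
    refine Finset.sum_congr rfl fun i _ => ?_
    rw [Submodule.coe_smul, Basis.restrictScalars_apply, zsmul_eq_mul]
  exact ⟨B.equivFun.symm.toEquiv, hB⟩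

theorem key [DecidableEq ι] (h1 : S_POI) (h2 : S_GRA) (b : Basis ι ℚ K)
    (c : InfinitePlace K → ℝ) (hc : ∀ w, 0 < c w) :
    (Summable fun x : lat b => Real.exp (-π * Q K c (x : K))) ∧
      theta K (lat b) c = ∑' m : ι → ℤ, Real.exp (-π * qf (gram b c) (fun i => (m i : ℝ))) := by
  obtain ⟨e, he⟩ := exists_equiv b
  obtain ⟨hp, hq⟩ := h2 K ι b c hc
  have hfe : ∀ m : ι → ℤ, Real.exp (-π * Q K c ((e m : lat b) : K)) =
      Real.exp (-π * qf (gram b c) (fun i => (m i : ℝ))) := by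
    intro m
    rw [he m, hq m]
  constructor
  · rw [← e.summable_iff]
    refine (h1 ι (gram b c) hp).1.congr fun m => ?_
    exact (hfe m).symm
  · rw [theta, ← e.tsum_eq]
    exact tsum_congr hfe

theorem sqrt_prod (c : InfinitePlace K → ℝ) (hc : ∀ w, 0 < c w) :
    Real.sqrt (∏ w, c⁻¹ w ^ w.mult) = (∏ w, c w ^ ((w.mult : ℝ) / 2))⁻¹ := by
  have h0 : (0 : ℝ) ≤ ∏ w, c⁻¹ w ^ w.mult :=
    Finset.prod_nonneg fun w _ => pow_nonneg (inv_nonneg.2 (hc w).le) _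
  have h1 : (0 : ℝ) ≤ (∏ w, c w ^ ((w.mult : ℝ) / 2))⁻¹ :=
    inv_nonneg.2 (Finset.prod_nonneg fun w _ => Real.rpow_nonneg (hc w).le _)
  rw [Real.sqrt_eq_iff_mul_self_eq h0 h1, ← Finset.prod_inv_distrib, ← Finset.prod_mul_distrib]
  refine Finset.prod_congr rfl fun w _ => ?_
  rw [← mul_inv, ← Real.rpow_add (hc w), add_halves, Real.rpow_natCast, Pi.inv_apply, inv_pow]

end THI

open THI in
theorem thi (h1 : HEZ.S_POI) (h2 : HEZ.S_GRA) (h3 : HEZ.S_GIN) (h4 : HEZ.S_GDE) :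
    HEZ.S_THI := by
  intro K _ _ ι _ _ b
  refine ⟨fun c hc => (key h1 h2 b c hc).1, ?_⟩
  obtain ⟨κ, hκ, hdet⟩ := h4 K ι b
  refine ⟨(Real.sqrt κ)⁻¹, inv_pos.2 (Real.sqrt_pos.2 hκ), fun c hc => ?_⟩
  have hc' : ∀ w, 0 < c⁻¹ w := fun w => inv_pos.2 (hc w)
  rw [(key h1 h2 b c⁻¹ hc').2, (h1 ι (gram b c⁻¹) (h2 K ι b c⁻¹ hc').1).2, h3 K ι b c hc,
    ← (key h1 h2 (dualB b) c hc).2, hdet c⁻¹ hc', Real.sqrt_mul hκ.le, sqrt_prod c hc, mul_inv,
    inv_inv]

end HEZ
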