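import Pool.Agent.HEZ.St

/-!
# Monotonicity of the theta series in the weights
-/

open NumberField NumberField.InfinitePlace NumberField.Units Module MeasureTheory IsDedekindDomain
open scoped Real nonZeroDivisors ENNReal

namespace HEZ

namespace THM

variable {K : Type} [Field K] [NumberField K]

theorem Q_zero (c : InfinitePlace K → ℝ) : Q K c 0 = 0 := by
  unfold Q
  refine Finset.sum_eq_zero fun w _ => ?_
  rw [map_zero]
  ring

theorem Q_mono {c c' : InfinitePlace K → ℝ} (h : ∀ w, c w ≤ c' w) (x : K) :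
    Q K c x ≤ Q K c' x := by
  unfold Q
  refine Finset.sum_le_sum fun w _ => ?_
  exact mul_le_mul_of_nonneg_left (mul_le_mul_of_nonneg_right (h w) (sq_nonneg _))
    (Nat.cast_nonneg _)

end THM

open THM in
theorem thm (h1 : HEZ.S_THI) : HEZ.S_THM := by
  intro K _ _ ι _ _ b c c' hc hcc
  have hs := (h1 K ι b).1 c hc
  have hs' := (h1 K ι b).1 c' fun w => (hc w).trans_le (hcc w)
  refine ⟨?_, ?_⟩
  · have h2 := hs.le_tsum (0 : lat b) fun x _ => (Real.exp_pos _).le
    have h3 : Real.exp (-π * Q K c ((0 : lat b) : K)) = 1 := by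
      rw [ZeroMemClass.coe_zero, Q_zero, mul_zero, Real.exp_zero]
    rw [h3] at h2
    exact h2
  · refine hs'.tsum_le_tsum (fun x => Real.exp_le_exp.2 ?_) hs
    have h4 := Q_mono hcc (x : K)
    have h5 := mul_le_mul_of_nonneg_left h4 Real.pi_pos.le
    linarith

end HEZ
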