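import Pool.Agent.HEZ.St

/-!
# The translates of the box tile `ℝ^r` (module TIL)
-/

open MeasureTheory
open scoped ENNReal

namespace HEZ

namespace TIL

/-- the half open cube with corner `k` -/
def cube {r : ℕ} (k : Fin r → ℤ) : Set (Fin r → ℝ) :=
  (fun (u : Fin r → ℝ) (i : Fin r) => ⌊u i⌋) ⁻¹' {k}

lemma mem_cube {r : ℕ} (k : Fin r → ℤ) (u : Fin r → ℝ) : u ∈ cube k ↔ ∀ i, ⌊u i⌋ = k i := by
  unfold cube
  rw [Set.mem_preimage, Set.mem_singleton_iff, funext_iff]

lemma measurable_fl (r : ℕ) :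
    Measurable (fun (u : Fin r → ℝ) (i : Fin r) => ⌊u i⌋) :=
  measurable_pi_lambda _ fun i => Int.measurable_floor.comp (measurable_pi_apply i)

lemma cube_meas {r : ℕ} (k : Fin r → ℤ) : MeasurableSet (cube k) :=
  measurable_fl r (measurableSet_singleton k)

lemma cube_zero (r : ℕ) : cube (0 : Fin r → ℤ) =
    Set.pi Set.univ fun i : Fin r => Set.Ico ((0 : Fin r → ℝ) i) ((1 : Fin r → ℝ) i) := by
  ext u
  rw [mem_cube, Set.mem_univ_pi]
  refine forall_congr' fun i => ?_
  simp only [Pi.zero_apply, Pi.one_apply]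
  rw [Int.floor_eq_zero_iff]

lemma shift {r : ℕ} (h : (Fin r → ℝ) → ℝ≥0∞) (k : Fin r → ℤ) :
    ∫⁻ u in cube k, h u = ∫⁻ u in cube (0 : Fin r → ℤ), h (fun i => u i + k i) := by
  rw [← lintegral_indicator (cube_meas k), ← lintegral_indicator (cube_meas 0),
    ← lintegral_add_right_eq_self _ (fun i => (k i : ℝ))]
  refine lintegral_congr fun u => ?_
  have h1 : (u + fun i => (k i : ℝ)) ∈ cube k ↔ u ∈ cube (0 : Fin r → ℤ) := by
    rw [mem_cube, mem_cube]
    refine forall_congr' fun i => ?_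
    rw [Pi.add_apply, Int.floor_add_intCast, Pi.zero_apply]
    omega
  by_cases h2 : u ∈ cube (0 : Fin r → ℤ)
  · rw [Set.indicator_of_mem (h1.2 h2), Set.indicator_of_mem h2]
    rfl
  · rw [Set.indicator_of_notMem (fun h3 => h2 (h1.1 h3)), Set.indicator_of_notMem h2]

end TIL

open TIL in
/-- Module TIL. -/
theorem til : S_TIL := by
  intro r h _
  have h1 : (⋃ k : Fin r → ℤ, cube k) = Set.univ := by
    rw [Set.eq_univ_iff_forall]
    intro u
    rw [Set.mem_iUnion]
    exact ⟨fun i => ⌊u i⌋, (mem_cube _ _).2 fun i => rfl⟩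
  have h2 : Pairwise (Function.onFun Disjoint (cube (r := r))) := by
    intro k l hkl
    rw [Function.onFun, Set.disjoint_left]
    intro u hu hv
    rw [mem_cube] at hu hv
    exact hkl (funext fun i => (hu i).symm.trans (hv i))
  have h3 : ∫⁻ u : Fin r → ℝ, h u = ∑' k : Fin r → ℤ, ∫⁻ u in cube k, h u := by
    rw [← lintegral_iUnion cube_meas h2, h1, Measure.restrict_univ]
  rw [h3]
  refine tsum_congr fun k => ?_
  rw [shift, cube_zero]
  exact setLIntegral_congr (Measure.univ_pi_Ico_ae_eq_Icc)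

end HEZ
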