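import Pool.Agent.HEZ.St

/-!
# HEZ, module UNA: the averaged theta series minus one, as an integral of a sum
-/

open NumberField NumberField.InfinitePlace NumberField.Units Module MeasureTheory IsDedekindDomain
open scoped Real nonZeroDivisors ENNReal

namespace HEZ

namespace UNA

variable {K : Type} [Field K] [NumberField K]

lemma Q_zero (c : InfinitePlace K → ℝ) : Q K c 0 = 0 := by
  unfold Q
  refine Finset.sum_eq_zero fun w _ => ?_
  rw [map_zero]
  ring

/-- the theta series is one plus the sum over the nonzero elements -/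
lemma theta_eq (S : Submodule ℤ K) (c : InfinitePlace K → ℝ)
    (hs : Summable fun x : S => Real.exp (-π * Q K c (x : K))) :
    ENNReal.ofReal (theta K S c) = 1 + ∑' x : {x : K // x ∈ S ∧ x ≠ 0},
      ENNReal.ofReal (Real.exp (-π * Q K c x)) := by
  classical
  unfold theta
  rw [ENNReal.ofReal_tsum_of_nonneg (fun x => (Real.exp_pos _).le) hs]
  obtain ⟨F, hF⟩ : ∃ F : K → ℝ≥0∞, F = fun x => ENNReal.ofReal (Real.exp (-π * Q K c x)) :=
    ⟨_, rfl⟩
  have h0 : F 0 = 1 := by
    rw [hF]
    simp only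
    rw [Q_zero, mul_zero, Real.exp_zero, ENNReal.ofReal_one]
  have e1 : ∑' x : S, ENNReal.ofReal (Real.exp (-π * Q K c (x : K))) = ∑' x : S, F x := by
    rw [hF]
  have e2 : ∑' x : {x : K // x ∈ S ∧ x ≠ 0}, ENNReal.ofReal (Real.exp (-π * Q K c x)) =
      ∑' x : {x : K // x ∈ S ∧ x ≠ 0}, F x := by
    rw [hF]
  rw [e1, e2, ENNReal.tsum_eq_add_tsum_ite (0 : S)]
  have h0' : F ((0 : S) : K) = 1 := h0
  rw [h0']
  congr 1
  have e3 : ∑' x : S, (if x = 0 then (0 : ℝ≥0∞) else F x) =
      ∑' x : K, Set.indicator (S : Set K) (fun x => if x = 0 then (0 : ℝ≥0∞) else F x) x := by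
    rw [← tsum_subtype]
    refine tsum_congr fun x => ?_
    by_cases hx : x = 0
    · have hx' : (x : K) = 0 := by rw [hx]; rfl
      rw [if_pos hx, if_pos hx']
    · have hx' : ¬ (x : K) = 0 := fun h => hx (Subtype.ext h)
      rw [if_neg hx, if_neg hx']
  have e4 : ∑' x : {x : K // x ∈ S ∧ x ≠ 0}, F x =
      ∑' x : K, Set.indicator {x : K | x ∈ S ∧ x ≠ 0} F x := by
    rw [← tsum_subtype]
    rfl
  rw [e4]
  refine Eq.trans (tsum_congr fun x => ?_) (e3.trans (tsum_congr fun x => ?_))
  · by_cases hx : x = 0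
    · rw [if_pos hx, if_pos hx]
    · rw [if_neg hx, if_neg hx]
  unfold Set.indicator
  by_cases hx : x = 0
  · subst hx
    have h1 : ¬ ((0 : K) ∈ {x : K | x ∈ S ∧ x ≠ 0}) := fun h => h.2 rfl
    rw [if_neg h1]
    by_cases h2 : (0 : K) ∈ (S : Set K)
    · rw [if_pos h2]
      exact if_pos rfl
    · rw [if_neg h2]
  · by_cases hS : x ∈ S
    · have h1 : x ∈ {x : K | x ∈ S ∧ x ≠ 0} := ⟨hS, hx⟩
      have h2 : x ∈ (S : Set K) := hS
      rw [if_pos h1, if_pos h2]
      exact if_neg hx
    · have h1 : ¬ x ∈ {x : K | x ∈ S ∧ x ≠ 0} := fun h => hS h.1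
      have h2 : ¬ x ∈ (S : Set K) := hS
      rw [if_neg h1, if_neg h2]

lemma theta_sub (S : Submodule ℤ K) (c : InfinitePlace K → ℝ)
    (hs : Summable fun x : S => Real.exp (-π * Q K c (x : K))) :
    0 ≤ theta K S c - 1 ∧ ENNReal.ofReal (theta K S c - 1) =
      ∑' x : {x : K // x ∈ S ∧ x ≠ 0}, ENNReal.ofReal (Real.exp (-π * Q K c x)) := by
  have h1 := theta_eq S c hs
  constructor
  · have h2 : 1 ≤ ENNReal.ofReal (theta K S c) := by
      rw [h1]
      exact le_self_add
    have h3 := ENNReal.one_le_ofReal.1 h2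
    linarith
  · rw [ENNReal.ofReal_sub _ zero_le_one, h1, ENNReal.ofReal_one,
      ENNReal.add_sub_cancel_left ENNReal.one_ne_top]

end UNA

open UNA in
/-- **UNA.** -/
theorem una (h1 : S_FIN) (h2 : S_THI) (h3 : S_MEA) : S_UNA := by
  intro K _ _ ι _ _ b a
  obtain ⟨hint, -, -, -⟩ := h1 K ι b
  obtain ⟨hsum, -⟩ := h2 K ι b
  have hvol : volume (Set.Icc (0 : Fin (rank K) → ℝ) 1) = 1 := by
    rw [Real.volume_Icc_pi]
    simp
  -- the averaged theta series
  have hff : ∀ t : ℝ, 0 < t → ENNReal.ofReal (ff K (lat b) t - 1) =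
      ∫⁻ u in Set.Icc (0 : Fin (rank K) → ℝ) 1, ∑' x : {x : K // x ∈ lat b ∧ x ≠ 0},
        ENNReal.ofReal (Real.exp (-π * Q K (fun w => t * yy K u w) x)) := by
    intro t ht
    have hpos : ∀ (u : Fin (rank K) → ℝ) (w : InfinitePlace K), 0 < t * yy K u w :=
      fun u w => mul_pos ht (Real.exp_pos _)
    have hth := fun u : Fin (rank K) → ℝ =>
      theta_sub (lat b) (fun w => t * yy K u w) (hsum _ (hpos u))
    have e1 : ff K (lat b) t - 1 = ∫ u in Set.Icc (0 : Fin (rank K) → ℝ) 1,
        (theta K (lat b) (fun w => t * yy K u w) - 1) := by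
      rw [integral_sub (hint t ht) (by
        refine integrableOn_const ?_
        rw [hvol]
        exact ENNReal.one_ne_top), setIntegral_const]
      unfold ff
      rw [Measure.real, hvol]
      simp
    rw [e1, ofReal_integral_eq_lintegral_ofReal]
    · refine lintegral_congr fun u => ?_
      exact (hth u).2
    · refine (hint t ht).sub ?_
      refine integrableOn_const ?_
      rw [hvol]
      exact ENNReal.one_ne_top
    · exact Filter.Eventually.of_forall fun u => (hth u).1
  -- the change of variables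
  have himg : Real.exp '' Set.univ = Set.Ioi (0 : ℝ) := by
    rw [Set.image_univ, Real.range_exp]
  rw [← himg, lintegral_image_eq_lintegral_abs_deriv_mul MeasurableSet.univ
    (fun x _ => (Real.hasDerivAt_exp x).hasDerivWithinAt) Real.exp_injective.injOn,
    Measure.restrict_univ]
  refine lintegral_congr fun τ => ?_
  have e1 : ENNReal.ofReal |Real.exp τ| * ENNReal.ofReal ((ff K (lat b) (Real.exp τ) - 1) *
      Real.exp τ ^ (a - 1)) = ENNReal.ofReal (ff K (lat b) (Real.exp τ) - 1) *
        ENNReal.ofReal (Real.exp (a * τ)) := by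
    rw [← ENNReal.ofReal_mul (abs_nonneg _), abs_of_pos (Real.exp_pos τ),
      ← ENNReal.ofReal_mul' (Real.exp_pos _).le]
    congr 1
    rw [← Real.exp_mul]
    have e2 : Real.exp (a * τ) = Real.exp τ * Real.exp (τ * (a - 1)) := by
      rw [← Real.exp_add]
      congr 1
      ring
    rw [e2]
    ring
  rw [e1, hff _ (Real.exp_pos τ), ← lintegral_mul_const' _ _ ENNReal.ofReal_ne_top]
  refine lintegral_congr fun u => ?_
  rw [← ENNReal.tsum_mul_right]
  refine tsum_congr fun x => ?_
  rw [← ENNReal.ofReal_mul (Real.exp_pos _).le, ← Real.exp_add]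

end HEZ
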