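import Pool.Agent.HEZ.St

/-!
# Module UNF: unfolding
-/

set_option autoImplicit false

open NumberField NumberField.InfinitePlace NumberField.Units Module MeasureTheory
open scoped Real nonZeroDivisors ENNReal

namespace HEZ

namespace UNF

variable (K : Type) [Field K] [NumberField K]

lemma countable_ideal : Countable (Ideal (𝓞 K)) := by
  have h : (Set.univ : Set (Ideal (𝓞 K))) = ⋃ n : ℕ, {I : Ideal (𝓞 K) | Ideal.absNorm I = n} := by
    ext I
    simp
  rw [← Set.countable_univ_iff, h]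
  exact Set.countable_iUnion fun n => (Ideal.finite_setOfPred_absNorm_eq n).countable

lemma countable_cls (J : Ideal (𝓞 K)) : Countable (Cls K J) := by
  have := countable_ideal K
  unfold Cls
  infer_instance

/-- the function of `x` -/
noncomputable def FF (a τ : ℝ) (u : Fin (rank K) → ℝ) (x : K) : ℝ≥0∞ :=
  ENNReal.ofReal (Real.exp (-π * Q K (fun w => Real.exp τ * yy K u w) x + a * τ))

lemma FF_cont (a : ℝ) (x : K) : Continuous fun p : ℝ × (Fin (rank K) → ℝ) =>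
    -π * Q K (fun w => Real.exp p.1 * yy K p.2 w) x + a * p.1 := by
  unfold Q yy
  fun_prop

lemma FF_meas (a : ℝ) (x : K) : Measurable fun p : ℝ × (Fin (rank K) → ℝ) => FF K a p.1 p.2 x := by
  unfold FF
  exact (Real.continuous_exp.comp (FF_cont K a x)).measurable.ennreal_ofReal

lemma FF_meas' (a τ : ℝ) (x : K) : Measurable fun u : Fin (rank K) → ℝ => FF K a τ u x :=
  Measurable.of_uncurry_left (f := fun (t : ℝ) (u : Fin (rank K) → ℝ) => FF K a t u x)
    (FF_meas K a x)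

lemma FF_tor (a τ : ℝ) (u : Fin (rank K) → ℝ) (x : K) (ζ e : (𝓞 K)ˣ) (hζ : ζ ∈ torsion K) :
    FF K a τ u ((((ζ * e : (𝓞 K)ˣ) : 𝓞 K) : K) * x) = FF K a τ u (((e : 𝓞 K) : K) * x) := by
  have h1 : ∀ w : InfinitePlace K, w ((((ζ * e : (𝓞 K)ˣ) : 𝓞 K) : K) * x) =
      w (((e : 𝓞 K) : K) * x) := by
    intro w
    have h2 : w ((ζ : 𝓞 K) : K) = 1 := (mem_torsion K).1 hζ w
    have h3 : ((((ζ * e : (𝓞 K)ˣ) : 𝓞 K) : K) * x) = ((ζ : 𝓞 K) : K) * (((e : 𝓞 K) : K) * x) := by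
      push_cast
      ring
    rw [h3, map_mul, h2, one_mul]
  unfold FF Q
  congr 3
  congr 1
  refine Finset.sum_congr rfl fun w _ => ?_
  rw [h1 w]

lemma integrand (h4 : S_ORB) (h5 : S_UNT) (h7 : S_YYP) (J : Ideal (𝓞 K)) (hJ : J ≠ ⊥) (a τ : ℝ)
    (u : Fin (rank K) → ℝ) :
    ∑' x : {x : K // x ∈ idl K J ∧ x ≠ 0}, FF K a τ u x =
      ∑' I : Cls K J, (torsionOrder K : ℝ≥0∞) * ∑' k : Fin (rank K) → ℤ,
        FF K a τ (fun i => u i + k i) (gen K J I : K) := by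
  rw [(h4 K J hJ).2 (fun x => FF K a τ u x)]
  refine tsum_congr fun I => ?_
  rw [h5 K (fun e => FF K a τ u (((e : 𝓞 K) : K) * (gen K J I : K)))
    (fun ζ e hζ => FF_tor K a τ u _ ζ e hζ)]
  congr 1
  refine tsum_congr fun k => ?_
  unfold FF
  rw [(h7 K).2.2.1 u k (Real.exp τ) (gen K J I : K)]

lemma inner (h4 : S_ORB) (h5 : S_UNT) (h6 : S_TIL) (h7 : S_YYP) (J : Ideal (𝓞 K)) (hJ : J ≠ ⊥)
    (a τ : ℝ) :
    ∫⁻ u in Set.Icc (0 : Fin (rank K) → ℝ) 1, ∑' x : {x : K // x ∈ idl K J ∧ x ≠ 0},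
        FF K a τ u x =
      ∑' I : Cls K J, (torsionOrder K : ℝ≥0∞) * ∫⁻ u : Fin (rank K) → ℝ,
        FF K a τ u (gen K J I : K) := by
  have := countable_cls K J
  have hsh : ∀ (x : K) (k : Fin (rank K) → ℤ), Measurable fun u : Fin (rank K) → ℝ =>
      FF K a τ (fun i => u i + k i) x := by
    intro x k
    have h1 : Measurable fun u : Fin (rank K) → ℝ => (fun i => u i + (k i : ℝ)) :=
      measurable_pi_lambda _ fun i => (measurable_pi_apply i).add_const _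
    exact (FF_meas' K a τ x).comp h1
  rw [lintegral_congr (fun u => integrand K h4 h5 h7 J hJ a τ u)]
  rw [lintegral_tsum]
  · refine tsum_congr fun I => ?_
    rw [lintegral_const_mul' _ _ (ENNReal.natCast_ne_top _)]
    congr 1
    rw [lintegral_tsum (fun k => (hsh _ k).aemeasurable),
      h6 (rank K) (fun u => FF K a τ u (gen K J I : K)) (FF_meas' K a τ _)]
  · intro I
    exact ((Measurable.tsum fun k => hsh _ k).const_mul _).aemeasurable

end UNF

open UNF in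
theorem unf (h1 : S_IDL) (h2 : S_UNA) (h3 : S_ONE) (h4 : S_ORB) (h5 : S_UNT) (h6 : S_TIL)
    (h7 : S_YYP) : S_UNF := by
  intro K _ _ J hJ z hz
  have := countable_cls K J
  obtain ⟨⟨b, hb⟩, -, -⟩ := h1 K J hJ
  have e1 : ∫⁻ t in Set.Ioi (0 : ℝ), ENNReal.ofReal ((ff K (idl K J) t - 1) *
      t ^ ((finrank ℚ K : ℝ) * z / 2 - 1)) =
      ∫⁻ τ : ℝ, ∫⁻ u in Set.Icc (0 : Fin (rank K) → ℝ) 1,
        ∑' x : {x : K // x ∈ idl K J ∧ x ≠ 0}, FF K ((finrank ℚ K : ℝ) * z / 2) τ u x := by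
    rw [hb]
    exact h2 K _ b ((finrank ℚ K : ℝ) * z / 2)
  rw [e1, lintegral_congr (fun τ => inner K h4 h5 h6 h7 J hJ ((finrank ℚ K : ℝ) * z / 2) τ)]
  have hm : ∀ I : Cls K J, Measurable fun τ : ℝ => ∫⁻ u : Fin (rank K) → ℝ,
      FF K ((finrank ℚ K : ℝ) * z / 2) τ u (gen K J I : K) := fun I =>
    (FF_meas K ((finrank ℚ K : ℝ) * z / 2) (gen K J I : K)).lintegral_prod_right'
  rw [lintegral_tsum (fun I => ((hm I).const_mul _).aemeasurable), ← ENNReal.tsum_mul_left]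
  refine tsum_congr fun I => ?_
  rw [lintegral_const_mul' _ _ (ENNReal.natCast_ne_top _)]
  congr 1
  obtain ⟨hg, hN⟩ := (h4 K J hJ).1 I
  have hg' : (gen K J I : K) ≠ 0 := by
    intro h
    exact hg (by exact_mod_cast h)
  have e2 := h3 K (gen K J I : K) hg' z hz
  rw [hN] at e2
  exact e2

end HEZ
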