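import Pool.Agent.HEZ.St

/-!
# Module UNT: sums over the units
-/

open NumberField NumberField.InfinitePlace NumberField.Units Module
open scoped Real nonZeroDivisors ENNReal

namespace HEZ

namespace UNT

variable (K : Type) [Field K] [NumberField K]

/-- the units as products of a root of unity and powers of the fundamental units -/
noncomputable def par (p : torsion K × (Fin (rank K) → ℤ)) : (𝓞 K)ˣ :=
  p.1 * ∏ i, fundSystem K i ^ p.2 i

lemma par_bij : Function.Bijective (par K) := by
  constructor
  · intro p q h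
    exact (exist_unique_eq_mul_prod K (par K p)).unique rfl h
  · intro x
    obtain ⟨p, hp, _⟩ := exist_unique_eq_mul_prod K x
    exact ⟨p, hp.symm⟩

end UNT

/-- `UNT`. -/
theorem unt : S_UNT := by
  intro K _ _ F hF
  rw [← Equiv.tsum_eq (Equiv.ofBijective _ (UNT.par_bij K)) F]
  have h1 : ∀ p : torsion K × (Fin (rank K) → ℤ),
      F (Equiv.ofBijective _ (UNT.par_bij K) p) = F (∏ i, fundSystem K i ^ p.2 i) :=
    fun p => hF p.1 _ p.1.2
  rw [tsum_congr h1]
  rw [ENNReal.tsum_prod (f := fun (_ : torsion K) (k : Fin (rank K) → ℤ) =>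
    F (∏ i, fundSystem K i ^ k i))]
  haveI : Fintype (torsion K) := Fintype.ofFinite _
  rw [tsum_fintype, Finset.sum_const, nsmul_eq_mul, Finset.card_univ, ← Nat.card_eq_fintype_card]
  rfl

end HEZ
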