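import Pool.Agent.HEZ.St

/-!
# Module UPE: invariance of the theta series under units
-/

open NumberField NumberField.InfinitePlace NumberField.Units Module
open scoped Real nonZeroDivisors

namespace HEZ

namespace UPE

variable {K : Type} [Field K] [NumberField K]

lemma unit_mul (e : (𝓞 K)ˣ) (x : K) :
    (((e⁻¹ : (𝓞 K)ˣ) : 𝓞 K) : K) * (((e : 𝓞 K) : K) * x) = x := by
  rw [← mul_assoc, ← map_mul, ← Units.val_mul, inv_mul_cancel, Units.val_one, map_one, one_mul]

/-- multiplication by a unit as a permutation of a stable lattice -/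
noncomputable def mulE (S : Submodule ℤ K) (hS : UStable S) (e : (𝓞 K)ˣ) : S ≃ S where
  toFun x := ⟨((e : 𝓞 K) : K) * x, hS e x x.2⟩
  invFun x := ⟨(((e⁻¹ : (𝓞 K)ˣ) : 𝓞 K) : K) * x, hS e⁻¹ x x.2⟩
  left_inv x := Subtype.ext (unit_mul e x)
  right_inv x := Subtype.ext (by
    have := unit_mul e⁻¹ (x : K)
    rwa [inv_inv] at this)

end UPE

/-- `UPE`. -/
theorem upe (h1 : S_YYP) : S_UPE := by
  intro K _ _ S hS u k t
  unfold theta
  rw [← Equiv.tsum_eq (UPE.mulE S hS (∏ i, fundSystem K i ^ k i))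
    (fun x : S => Real.exp (-π * Q K (fun w => t * yy K u w) (x : K)))]
  refine tsum_congr fun x => ?_
  rw [(h1 K).2.2.1 u k t (x : K)]
  rfl

end HEZ
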