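import Pool.Agent.HEZ.St

/-!
# The points of the norm one surface (module YYP)
-/

open NumberField NumberField.InfinitePlace NumberField.Units Module
open scoped Real

namespace HEZ

namespace YYP

variable (K : Type) [Field K] [NumberField K]

lemma prod_one (u : Fin (rank K) → ℝ) : ∏ w, yy K u w ^ ((w.mult : ℝ) / 2) = 1 := by
  have h1 : ∀ w : InfinitePlace K, yy K u w ^ ((w.mult : ℝ) / 2) =
      Real.exp (∑ i, u i * ((w.mult : ℝ) * Real.log (w (fundSystem K i : K)))) := by
    intro w
    unfold yy
    rw [← Real.exp_mul, Finset.sum_mul]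
    congr 1
    refine Finset.sum_congr rfl fun i _ => ?_
    ring
  rw [Finset.prod_congr rfl fun w _ => h1 w, ← Real.exp_sum, Finset.sum_comm]
  have h2 : ∑ i, ∑ w : InfinitePlace K,
      u i * ((w.mult : ℝ) * Real.log (w (fundSystem K i : K))) = 0 := by
    refine Finset.sum_eq_zero fun i _ => ?_
    rw [← Finset.mul_sum, sum_mult_mul_log, mul_zero]
  rw [h2, Real.exp_zero]

lemma abs_unit (w : InfinitePlace K) (k : Fin (rank K) → ℤ) :
    w (((∏ i, fundSystem K i ^ k i : (𝓞 K)ˣ) : 𝓞 K) : K) =
      Real.exp (∑ i, k i * Real.log (w (fundSystem K i : K))) := by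
  have h1 : ((((∏ i, fundSystem K i ^ k i : (𝓞 K)ˣ) : 𝓞 K) : K)) =
      ∏ i, (fundSystem K i : K) ^ k i := by
    rw [_root_.Units.coe_prod]
    change (algebraMap (𝓞 K) K) (∏ i, ((fundSystem K i ^ k i : (𝓞 K)ˣ) : 𝓞 K)) = _
    rw [map_prod]
    refine Finset.prod_congr rfl fun i _ => ?_
    exact NumberField.Units.coe_zpow _ _
  rw [h1, map_prod, Real.exp_sum]
  refine Finset.prod_congr rfl fun i _ => ?_
  have h2 : 0 < w (fundSystem K i : K) := by
    rw [InfinitePlace.pos_iff]
    exact coe_ne_zero _
  rw [map_zpow₀, mul_comm, ← Real.rpow_def_of_pos h2, Real.rpow_intCast]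

end YYP

open YYP in
/-- Module YYP. -/
theorem yyp : S_YYP := by
  intro K _ _
  refine ⟨prod_one K, ?_, ?_, ?_⟩
  · intro u
    funext w
    rw [Pi.inv_apply]
    unfold yy
    rw [← Real.exp_neg, ← Finset.sum_neg_distrib]
    congr 1
    refine Finset.sum_congr rfl fun i _ => ?_
    rw [Pi.neg_apply]
    ring
  · intro u k t x
    unfold Q
    refine Finset.sum_congr rfl fun w _ => ?_
    have h1 : yy K (fun i => u i + k i) w = yy K u w *
        w (((∏ i, fundSystem K i ^ k i : (𝓞 K)ˣ) : 𝓞 K) : K) ^ 2 := by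
      rw [abs_unit, ← Real.exp_nat_mul]
      unfold yy
      rw [← Real.exp_add]
      congr 1
      rw [Finset.mul_sum, ← Finset.sum_add_distrib]
      refine Finset.sum_congr rfl fun i _ => ?_
      push_cast
      ring
    beta_reduce
    rw [map_mul, h1]
    ring
  · refine ⟨Real.exp (-∑ w : InfinitePlace K, ∑ i, 2 * |Real.log (w (fundSystem K i : K))|),
      Real.exp_pos _, ?_⟩
    intro u hu w
    unfold yy
    refine Real.exp_le_exp.2 ?_
    have h1 : ∑ i, 2 * |Real.log (w (fundSystem K i : K))| ≤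
        ∑ w : InfinitePlace K, ∑ i, 2 * |Real.log (w (fundSystem K i : K))| :=
      Finset.single_le_sum
        (f := fun w : InfinitePlace K => ∑ i, 2 * |Real.log (w (fundSystem K i : K))|)
        (fun w _ => Finset.sum_nonneg fun i _ => by positivity) (Finset.mem_univ w)
    have h2 : -∑ i, 2 * |Real.log (w (fundSystem K i : K))| ≤
        ∑ i, 2 * u i * Real.log (w (fundSystem K i : K)) := by
      rw [← Finset.sum_neg_distrib]
      refine Finset.sum_le_sum fun i _ => ?_
      have h3 := hu.1 i
      have h4 := hu.2 i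
      simp only [Pi.zero_apply, Pi.one_apply] at h3 h4
      have h5 := neg_abs_le (Real.log (w (fundSystem K i : K)))
      have h6 := abs_nonneg (Real.log (w (fundSystem K i : K)))
      nlinarith
    linarith

end HEZ
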