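import Pool.Agent.HEZ.PDM
import Pool.Agent.HEZ.GSU
import Pool.Agent.HEZ.GFT
import Pool.Agent.HEZ.PER
import Pool.Agent.HEZ.POI
import Pool.Agent.HEZ.GRA
import Pool.Agent.HEZ.GIN
import Pool.Agent.HEZ.GDE
import Pool.Agent.HEZ.THI
import Pool.Agent.HEZ.DUS
import Pool.Agent.HEZ.YYP
import Pool.Agent.HEZ.UPE
import Pool.Agent.HEZ.THM
import Pool.Agent.HEZ.THD
import Pool.Agent.HEZ.MEA
import Pool.Agent.HEZ.FIN
import Pool.Agent.HEZ.FEQ
import Pool.Agent.HEZ.IDL
import Pool.Agent.HEZ.WFE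
import Pool.Agent.HEZ.CHV
import Pool.Agent.HEZ.GAM
import Pool.Agent.HEZ.ONE
import Pool.Agent.HEZ.ORB
import Pool.Agent.HEZ.UNT
import Pool.Agent.HEZ.TIL
import Pool.Agent.HEZ.UNA
import Pool.Agent.HEZ.UNF
import Pool.Agent.HEZ.MEL
import Pool.Agent.HEZ.CLS
import Pool.Agent.HEZ.DED
import Pool.Agent.HEZ.DAN
import Pool.Agent.HEZ.EUR
import Pool.Agent.HEZ.EAN
import Pool.Agent.HEZ.EUL
import Pool.Agent.HEZ.LEA
import Pool.Agent.HEZ.END
import Pool.Agent.HEZ.LNK

/-!
# The leading term of the Dedekind zeta function at `s = 0`: assembly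
-/

namespace HEZ

theorem t_poi : S_POI := poi (gsu pdm) gft per
theorem t_thi : S_THI := thi t_poi gra gin gde
theorem t_upe : S_UPE := upe yyp
theorem t_thm : S_THM := thm t_thi
theorem t_thd : S_THD := thd t_thi gra pdm
theorem t_mea : S_MEA := mea t_thi
theorem t_fin : S_FIN := fin yyp t_thi t_thm t_thd t_mea
theorem t_feq : S_FEQ := feq t_thi dus yyp t_upe
theorem t_wfe : S_WFE := wfe t_idl t_fin t_feq dus
theorem t_one : S_ONE := one chv gam_thm
theorem t_una : S_UNA := una t_fin t_thi t_mea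
theorem t_unf : S_UNF := unf t_idl t_una t_one orb unt til yyp
theorem t_mel : S_MEL := mel t_unf t_fin t_idl
theorem t_ean : S_EAN := ean eur
theorem t_eul : S_EUL := eul eur t_ean dan

/-- `ζ_K` has a meromorphic continuation to `ℂ` with trailing coefficient `-h R / w` at `0`. -/
theorem t_end : S_END := the_end t_wfe t_mel cls ded dan t_eul lea

/-- The same for the Artin `L`-series of the trivial character. -/
theorem zeta0 : S_ZETA0 := lnk t_end

end HEZ
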