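import Mathlib

/-!
# The leading term of the Dedekind zeta function at `s = 0`: definitions

The method is that of Hecke: theta functions of lattices in a number field, averaged over the torus
of the units, and their Mellin transforms.
-/

open NumberField NumberField.InfinitePlace NumberField.Units Module MeasureTheory
open scoped Real nonZeroDivisors ENNReal

namespace HEZ

/-- The quadratic form of a matrix. -/
noncomputable def qf {ι : Type} [Fintype ι] (A : Matrix ι ι ℝ) (x : ι → ℝ) : ℝ :=
  x ⬝ᵥ A.mulVec x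

section Field

variable (K : Type) [Field K] [NumberField K]

/-- The weighted trace form `Q_c(x) = ∑_w mult(w) c_w |x|_w²`. -/
noncomputable def Q (c : InfinitePlace K → ℝ) (x : K) : ℝ :=
  ∑ w : InfinitePlace K, (w.mult : ℝ) * (c w * (w x) ^ 2)

variable {K}

/-- The lattice spanned by a basis of `K` over `ℚ`. -/
def lat {ι : Type} (b : Basis ι ℚ K) : Submodule ℤ K := Submodule.span ℤ (Set.range b)

variable (K) in
/-- The theta series of a lattice `S` in `K` with weights `c_w`. -/
noncomputable def theta (S : Submodule ℤ K) (c : InfinitePlace K → ℝ) : ℝ :=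
  ∑' x : S, Real.exp (-π * Q K c (x : K))

/-- The Gram matrix of `Q_c` in a basis. -/
noncomputable def gram {ι : Type} (b : Basis ι ℚ K) (c : InfinitePlace K → ℝ) : Matrix ι ι ℝ :=
  Matrix.of fun i j => ∑ w : InfinitePlace K,
    (w.mult : ℝ) * (c w * (w.embedding (b i) * starRingEnd ℂ (w.embedding (b j))).re)

/-- The dual basis for the trace form. -/
noncomputable def dualB {ι : Type} [Finite ι] [DecidableEq ι] (b : Basis ι ℚ K) : Basis ι ℚ K :=
  (Algebra.traceForm ℚ K).dualBasis (traceForm_nondegenerate ℚ K) b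

/-- Stability under multiplication by units. -/
def UStable (S : Submodule ℤ K) : Prop :=
  ∀ (e : (𝓞 K)ˣ), ∀ x ∈ S, (((e : 𝓞 K) : K)) * x ∈ S

variable (K)

/-- The point of the norm one surface with logarithmic coordinates `u`:
`y(u)_w = ∏_i |ε_i|_w ^ (2 u_i)`. -/
noncomputable def yy (u : Fin (rank K) → ℝ) (w : InfinitePlace K) : ℝ :=
  Real.exp (∑ i, 2 * u i * Real.log (w (fundSystem K i : K)))

/-- The average over the torus of the theta series of `S` at the points `t y(u)`. -/
noncomputable def ff (S : Submodule ℤ K) (t : ℝ) : ℝ :=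
  ∫ u in Set.Icc (0 : Fin (rank K) → ℝ) 1, theta K S (fun w => t * yy K u w)

/-- The Gamma factor, for real `z`. -/
noncomputable def gam (z : ℝ) : ℝ :=
  (π ^ (-(z / 2)) * Real.Gamma (z / 2)) ^ nrRealPlaces K *
    ((2 * π) ^ (-z) * Real.Gamma z) ^ nrComplexPlaces K

/-- The Gamma factor, for complex `z`. -/
noncomputable def gamC (z : ℂ) : ℂ :=
  ((π : ℂ) ^ (-(z / 2)) * Complex.Gamma (z / 2)) ^ nrRealPlaces K *
    ((2 * π : ℂ) ^ (-z) * Complex.Gamma z) ^ nrComplexPlaces K

/-- The constant of the change of variables: the inverse of the determinant of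
`(τ, u) ↦ (τ + ∑_i 2 u_i log |ε_i|_w)_w`. -/
noncomputable def cst : ℝ :=
  2 ^ nrComplexPlaces K / (finrank ℚ K * 2 ^ rank K * regulator K)

/-- An ideal as a lattice in `K`. -/
noncomputable def idl (J : Ideal (𝓞 K)) : Submodule ℤ K :=
  (J.restrictScalars ℤ).map ((Algebra.linearMap (𝓞 K) K).restrictScalars ℤ)

/-- The nonzero ideals `I` such that `I J` is principal. -/
def Cls (J : Ideal (𝓞 K)) : Type :=
  {I : Ideal (𝓞 K) // I ≠ ⊥ ∧ Submodule.IsPrincipal (I * J)}

/-- A generator of `I J`. -/
noncomputable def gen (J : Ideal (𝓞 K)) (I : Cls K J) : 𝓞 K :=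
  @Submodule.IsPrincipal.generator _ _ _ _ _ (I.1 * J) I.2.2

/-- A `WeakFEPair` for the ideal `J`. -/
def IsPair (J : Ideal (𝓞 K)) (P : WeakFEPair ℂ) : Prop :=
  (∀ t : ℝ, 0 < t → P.f t = ((ff K (idl K J) t : ℝ) : ℂ)) ∧ P.k = (finrank ℚ K : ℝ) / 2 ∧ P.f₀ = 1

end Field

end HEZ
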