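import Pool.Agent.HEZ.St

namespace HEZ

theorem pdm : S_PDL := by
  classical
  intro ι _ _ A hA
  -- `A = Bᵀ B` would do; we use compactness of the unit sphere of the Euclidean norm
  have hc : Continuous fun x : ι → ℝ => qf A x := by
    unfold qf
    simp only [dotProduct, Matrix.mulVec]
    fun_prop
  have hcs : Continuous fun x : ι → ℝ => ∑ i, x i ^ 2 := by fun_prop
  by_cases hι : IsEmpty ι
  · refine ⟨1, one_pos, fun x => ?_⟩
    simp [qf]
  rw [not_isEmpty_iff] at hι
  let S : Set (ι → ℝ) := {x | ∑ i, x i ^ 2 = 1}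
  have hSc : IsCompact S := by
    refine Metric.isCompact_of_isClosed_isBounded (isClosed_eq hcs continuous_const) ?_
    refine (Metric.isBounded_iff_subset_closedBall 0).mpr ⟨1, fun x hx => ?_⟩
    rw [Metric.mem_closedBall, dist_zero_right, pi_norm_le_iff_of_nonneg zero_le_one]
    intro i
    have h1 : x i ^ 2 ≤ 1 := by
      have : x i ^ 2 ≤ ∑ j, x j ^ 2 :=
        Finset.single_le_sum (f := fun j => x j ^ 2) (fun j _ => sq_nonneg _) (Finset.mem_univ i)
      have h2 : ∑ j, x j ^ 2 = 1 := hx
      linarith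
    rw [Real.norm_eq_abs]
    exact abs_le_one_iff_mul_self_le_one.mpr (by nlinarith)
  have hSn : S.Nonempty := by
    obtain ⟨i⟩ := hι
    refine ⟨Pi.single i 1, ?_⟩
    change ∑ j, (Pi.single i 1 : ι → ℝ) j ^ 2 = 1
    rw [Finset.sum_eq_single i]
    · simp
    · intro j _ hj
      simp [Pi.single_eq_of_ne hj]
    · simp
  obtain ⟨x0, hx0, hmin⟩ := hSc.exists_isMinOn hSn hc.continuousOn
  have hx0ne : x0 ≠ 0 := by
    intro h
    have : ∑ i, x0 i ^ 2 = 1 := hx0
    rw [h] at this
    simp at this
  refine ⟨qf A x0, ?_, fun x => ?_⟩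
  · have := hA.dotProduct_mulVec_pos hx0ne
    simpa [qf] using this
  · by_cases hx : ∑ i, x i ^ 2 = 0
    · have hx' : x = 0 := by
        funext i
        have := (Finset.sum_eq_zero_iff_of_nonneg (fun i _ => sq_nonneg (x i))).mp hx i
          (Finset.mem_univ i)
        simpa using this
      subst hx'
      simp [qf]
    · have hpos : 0 < ∑ i, x i ^ 2 :=
        lt_of_le_of_ne (Finset.sum_nonneg fun i _ => sq_nonneg _) (Ne.symm hx)
      set r := Real.sqrt (∑ i, x i ^ 2) with hr
      have hrpos : 0 < r := Real.sqrt_pos.mpr hpos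
      have hr2 : r ^ 2 = ∑ i, x i ^ 2 := Real.sq_sqrt hpos.le
      have hy : (fun i => x i / r) ∈ S := by
        change ∑ i, (x i / r) ^ 2 = 1
        simp_rw [div_pow]
        rw [← Finset.sum_div, hr2, div_self hx]
      have h1 : qf A x0 ≤ qf A (fun i => x i / r) := hmin hy
      have h2 : qf A (fun i => x i / r) = qf A x / r ^ 2 := by
        have : (fun i => x i / r) = r⁻¹ • x := by
          funext i
          simp [div_eq_inv_mul]
        rw [this]
        unfold qf
        rw [Matrix.mulVec_smul, dotProduct_smul, smul_dotProduct, smul_eq_mul, smul_eq_mul]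
        field_simp
      rw [h2, le_div_iff₀ (by positivity), hr2] at h1
      exact h1

end HEZ
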