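import Pool.Agent.HEZ.Defs

/-!
# The leading term of the Dedekind zeta function at `s = 0`: statements

Every module `X` proves `theorem HEZ.x : HEZ.S_X` in the file `Pool/Agent/HEZ/X.lean`.
-/

open NumberField NumberField.InfinitePlace NumberField.Units Module MeasureTheory IsDedekindDomain
open scoped Real nonZeroDivisors ENNReal

namespace HEZ

/-! ### Gaussians on `ℝ^n` and Poisson summation -/

/-- `PDL`.  A positive definite form is bounded below by a multiple of the square of the norm. -/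
def S_PDL : Prop := ∀ (ι : Type) [Fintype ι] [DecidableEq ι] (A : Matrix ι ι ℝ), A.PosDef →
  ∃ δ : ℝ, 0 < δ ∧ ∀ x : ι → ℝ, δ * ∑ i, x i ^ 2 ≤ qf A x

/-- `GSU`.  Uniform summability of a Gaussian over the translates of a bounded set. -/
def S_GSU : Prop := ∀ (ι : Type) [Fintype ι] [DecidableEq ι] (A : Matrix ι ι ℝ), A.PosDef →
  ∀ R : ℝ, ∃ u : (ι → ℤ) → ℝ, Summable u ∧ ∀ (m : ι → ℤ) (x : ι → ℝ), (∀ i, |x i| ≤ R) →
    Real.exp (-π * qf A (fun i => x i + m i)) ≤ u m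

/-- `GFT`.  The Fourier transform of a Gaussian. -/
def S_GFT : Prop := ∀ (ι : Type) [Fintype ι] [DecidableEq ι] (A : Matrix ι ι ℝ), A.PosDef →
  ∀ k : ι → ℝ, ∫ x : ι → ℝ, Complex.exp (-2 * π * Complex.I * (∑ i, (k i : ℂ) * (x i : ℂ))) *
    ((Real.exp (-π * qf A x) : ℝ) : ℂ) =
      (((Real.sqrt A.det)⁻¹ * Real.exp (-π * qf A⁻¹ k) : ℝ) : ℂ)

/-- `PER`.  Poisson summation on `ℝ^n`. -/
def S_PER : Prop := ∀ (ι : Type) [Fintype ι] (f : (ι → ℝ) → ℂ), Continuous f →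
  (∀ R : ℝ, ∃ u : (ι → ℤ) → ℝ, Summable u ∧ ∀ (m : ι → ℤ) (x : ι → ℝ), (∀ i, |x i| ≤ R) →
    ‖f (fun i => x i + m i)‖ ≤ u m) →
  (Summable fun k : ι → ℤ =>
    ∫ x : ι → ℝ, Complex.exp (-2 * π * Complex.I * (∑ i, (k i : ℂ) * (x i : ℂ))) * f x) →
  ∑' m : ι → ℤ, f (fun i => (m i : ℝ)) =
    ∑' k : ι → ℤ, ∫ x : ι → ℝ, Complex.exp (-2 * π * Complex.I * (∑ i, (k i : ℂ) * (x i : ℂ))) * f x

/-- `POI`.  The inversion formula for the theta series of a positive definite matrix. -/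
def S_POI : Prop := ∀ (ι : Type) [Fintype ι] [DecidableEq ι] (A : Matrix ι ι ℝ), A.PosDef →
  (Summable fun m : ι → ℤ => Real.exp (-π * qf A (fun i => (m i : ℝ)))) ∧
  ∑' m : ι → ℤ, Real.exp (-π * qf A (fun i => (m i : ℝ))) =
    (Real.sqrt A.det)⁻¹ * ∑' m : ι → ℤ, Real.exp (-π * qf A⁻¹ (fun i => (m i : ℝ)))

/-! ### Gram matrices -/

/-- `GRA`.  The Gram matrix is positive definite and represents `Q_c`. -/
def S_GRA : Prop := ∀ (K : Type) [Field K] [NumberField K] (ι : Type) [Fintype ι] [DecidableEq ι]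
  (b : Basis ι ℚ K) (c : InfinitePlace K → ℝ), (∀ w, 0 < c w) →
    (gram b c).PosDef ∧ ∀ m : ι → ℤ,
      Q K c (∑ i, (m i : K) * b i) = qf (gram b c) (fun i => (m i : ℝ))

/-- `GIN`.  The Gram matrix of the dual basis is the inverse. -/
def S_GIN : Prop := ∀ (K : Type) [Field K] [NumberField K] (ι : Type) [Fintype ι] [DecidableEq ι]
  (b : Basis ι ℚ K) (c : InfinitePlace K → ℝ), (∀ w, 0 < c w) →
    (gram b c⁻¹)⁻¹ = gram (dualB b) c

/-- `GDE`.  The determinant of the Gram matrix. -/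
def S_GDE : Prop := ∀ (K : Type) [Field K] [NumberField K] (ι : Type) [Fintype ι] [DecidableEq ι]
  (b : Basis ι ℚ K), ∃ κ : ℝ, 0 < κ ∧ ∀ c : InfinitePlace K → ℝ, (∀ w, 0 < c w) →
    (gram b c).det = κ * ∏ w, c w ^ w.mult

/-- `THI`.  The inversion formula for the theta series of a lattice in `K`. -/
def S_THI : Prop := ∀ (K : Type) [Field K] [NumberField K] (ι : Type) [Fintype ι] [DecidableEq ι]
  (b : Basis ι ℚ K),
    (∀ c : InfinitePlace K → ℝ, (∀ w, 0 < c w) →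
      Summable fun x : lat b => Real.exp (-π * Q K c (x : K))) ∧
    ∃ ε : ℝ, 0 < ε ∧ ∀ c : InfinitePlace K → ℝ, (∀ w, 0 < c w) →
      theta K (lat b) c⁻¹ =
        ε * (∏ w, c w ^ ((w.mult : ℝ) / 2)) * theta K (lat (dualB b)) c

/-- `DUS`.  The dual of a lattice stable under units is stable under units. -/
def S_DUS : Prop := ∀ (K : Type) [Field K] [NumberField K] (ι : Type) [Fintype ι] [DecidableEq ι]
  (b : Basis ι ℚ K), UStable (lat b) → UStable (lat (dualB b))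

/-! ### The torus of units -/

/-- `YYP`.  The points `y(u)`. -/
def S_YYP : Prop := ∀ (K : Type) [Field K] [NumberField K],
  (∀ u : Fin (rank K) → ℝ, ∏ w, yy K u w ^ ((w.mult : ℝ) / 2) = 1) ∧
  (∀ u : Fin (rank K) → ℝ, (fun w => yy K (-u) w) = (fun w => yy K u w)⁻¹) ∧
  (∀ (u : Fin (rank K) → ℝ) (k : Fin (rank K) → ℤ) (t : ℝ) (x : K),
    Q K (fun w => t * yy K (fun i => u i + k i) w) x =
      Q K (fun w => t * yy K u w) ((((∏ i, fundSystem K i ^ k i : (𝓞 K)ˣ) : 𝓞 K) : K) * x)) ∧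
  ∃ c : ℝ, 0 < c ∧ ∀ u ∈ Set.Icc (0 : Fin (rank K) → ℝ) 1, ∀ w, c ≤ yy K u w

/-- `UPE`.  Invariance of the theta series under units. -/
def S_UPE : Prop := ∀ (K : Type) [Field K] [NumberField K] (S : Submodule ℤ K), UStable S →
  ∀ (u : Fin (rank K) → ℝ) (k : Fin (rank K) → ℤ) (t : ℝ),
    theta K S (fun w => t * yy K (fun i => u i + k i) w) = theta K S (fun w => t * yy K u w)

/-- `THM`.  Monotonicity of the theta series in the weights. -/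
def S_THM : Prop := ∀ (K : Type) [Field K] [NumberField K] (ι : Type) [Fintype ι] [DecidableEq ι]
  (b : Basis ι ℚ K) (c c' : InfinitePlace K → ℝ), (∀ w, 0 < c w) → (∀ w, c w ≤ c' w) →
    1 ≤ theta K (lat b) c ∧ theta K (lat b) c' ≤ theta K (lat b) c

/-- `THD`.  Exponential decay of the theta series, uniform in the weights. -/
def S_THD : Prop := ∀ (K : Type) [Field K] [NumberField K] (ι : Type) [Fintype ι] [DecidableEq ι]
  (b : Basis ι ℚ K) (c₀ : ℝ), 0 < c₀ → ∃ C δ : ℝ, 0 < δ ∧ ∀ t : ℝ, 1 ≤ t →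
    ∀ c : InfinitePlace K → ℝ, (∀ w, c₀ ≤ c w) →
      theta K (lat b) (fun w => t * c w) - 1 ≤ C * Real.exp (-δ * t)

/-- `MEA`.  Measurability. -/
def S_MEA : Prop := ∀ (K : Type) [Field K] [NumberField K] (ι : Type) [Fintype ι] [DecidableEq ι]
  (b : Basis ι ℚ K) (t : ℝ), 0 < t →
    Measurable fun u : Fin (rank K) → ℝ => theta K (lat b) (fun w => t * yy K u w)

/-- `FIN`.  Integrability on the box, monotonicity and decay of the averaged theta series. -/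
def S_FIN : Prop := ∀ (K : Type) [Field K] [NumberField K] (ι : Type) [Fintype ι] [DecidableEq ι]
  (b : Basis ι ℚ K),
    (∀ t : ℝ, 0 < t → IntegrableOn (fun u => theta K (lat b) (fun w => t * yy K u w))
      (Set.Icc (0 : Fin (rank K) → ℝ) 1)) ∧
    AntitoneOn (ff K (lat b)) (Set.Ioi 0) ∧
    (∀ t : ℝ, 0 < t → 1 ≤ ff K (lat b) t) ∧
    ∃ C δ : ℝ, 0 < δ ∧ ∀ t : ℝ, 1 ≤ t → ff K (lat b) t - 1 ≤ C * Real.exp (-δ * t)

/-- `FEQ`.  The functional equation of the averaged theta series. -/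
def S_FEQ : Prop := ∀ (K : Type) [Field K] [NumberField K] (ι : Type) [Fintype ι] [DecidableEq ι]
  (b : Basis ι ℚ K), UStable (lat b) → ∃ ε : ℝ, 0 < ε ∧ ∀ t : ℝ, 0 < t →
    ff K (lat b) (1 / t) = ε * t ^ ((finrank ℚ K : ℝ) / 2) * ff K (lat (dualB b)) t

/-- `IDL`.  A nonzero ideal is a lattice, stable under units. -/
def S_IDL : Prop := ∀ (K : Type) [Field K] [NumberField K] (J : Ideal (𝓞 K)), J ≠ ⊥ →
  (∃ b : Basis (Fin (finrank ℚ K)) ℚ K, idl K J = lat b) ∧ UStable (idl K J) ∧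
    ∀ x : K, x ∈ idl K J ↔ ∃ a ∈ J, (a : K) = x

/-- `WFE`.  The pair of an ideal. -/
def S_WFE : Prop := ∀ (K : Type) [Field K] [NumberField K] (J : Ideal (𝓞 K)), J ≠ ⊥ →
  ∃ P : WeakFEPair ℂ, IsPair K J P

/-! ### The Mellin transform: one element -/

/-- `CHV`.  The change of variables. -/
def S_CHV : Prop := ∀ (K : Type) [Field K] [NumberField K]
  (g : (InfinitePlace K → ℝ) → ℝ≥0∞), Measurable g →
    ∫⁻ τ : ℝ, ∫⁻ u : Fin (rank K) → ℝ,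
      g (fun w => τ + ∑ i, 2 * u i * Real.log (w (fundSystem K i : K))) =
        ENNReal.ofReal (cst K) * ∫⁻ s : InfinitePlace K → ℝ, g s

/-- `GAM`.  The Gamma integral in logarithmic coordinates. -/
def S_GAM : Prop := ∀ a b : ℝ, 0 < a → 0 < b →
  ∫⁻ s : ℝ, ENNReal.ofReal (Real.exp (-a * Real.exp s + b * s)) =
    ENNReal.ofReal (a ^ (-b) * Real.Gamma b)

/-- `ONE`.  The integral for one element. -/
def S_ONE : Prop := ∀ (K : Type) [Field K] [NumberField K] (x : K), x ≠ 0 → ∀ z : ℝ, 0 < z →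
  ∫⁻ τ : ℝ, ∫⁻ u : Fin (rank K) → ℝ,
    ENNReal.ofReal (Real.exp (-π * Q K (fun w => Real.exp τ * yy K u w) x +
      (finrank ℚ K : ℝ) * z / 2 * τ)) =
    ENNReal.ofReal (cst K * gam K z * |((Algebra.norm ℚ x : ℚ) : ℝ)| ^ (-z))

/-! ### Unfolding -/

/-- `ORB`.  The nonzero elements of `J` by ideals and units. -/
def S_ORB : Prop := ∀ (K : Type) [Field K] [NumberField K] (J : Ideal (𝓞 K)), J ≠ ⊥ →
  (∀ I : Cls K J, gen K J I ≠ 0 ∧
    |((Algebra.norm ℚ (gen K J I : K) : ℚ) : ℝ)| =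
      (Ideal.absNorm I.1 : ℝ) * (Ideal.absNorm J : ℝ)) ∧
  ∀ F : K → ℝ≥0∞, ∑' x : {x : K // x ∈ idl K J ∧ x ≠ 0}, F x =
    ∑' I : Cls K J, ∑' e : (𝓞 K)ˣ, F (((e : 𝓞 K) : K) * (gen K J I : K))

/-- `UNT`.  Sums over the units. -/
def S_UNT : Prop := ∀ (K : Type) [Field K] [NumberField K] (F : (𝓞 K)ˣ → ℝ≥0∞),
  (∀ (ζ e : (𝓞 K)ˣ), ζ ∈ torsion K → F (ζ * e) = F e) →
    ∑' e : (𝓞 K)ˣ, F e =
      (torsionOrder K : ℝ≥0∞) * ∑' k : Fin (rank K) → ℤ, F (∏ i, fundSystem K i ^ k i)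

/-- `TIL`.  The translates of the box tile `ℝ^r`. -/
def S_TIL : Prop := ∀ (r : ℕ) (h : (Fin r → ℝ) → ℝ≥0∞), Measurable h →
  ∫⁻ u : Fin r → ℝ, h u =
    ∑' k : Fin r → ℤ, ∫⁻ u in Set.Icc (0 : Fin r → ℝ) 1, h (fun i => u i + k i)

/-- `UNA`.  The averaged theta series minus one, as an integral of a sum. -/
def S_UNA : Prop := ∀ (K : Type) [Field K] [NumberField K] (ι : Type) [Fintype ι] [DecidableEq ι]
  (b : Basis ι ℚ K) (a : ℝ),
    ∫⁻ t in Set.Ioi (0 : ℝ), ENNReal.ofReal ((ff K (lat b) t - 1) * t ^ (a - 1)) =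
      ∫⁻ τ : ℝ, ∫⁻ u in Set.Icc (0 : Fin (rank K) → ℝ) 1, ∑' x : {x : K // x ∈ lat b ∧ x ≠ 0},
        ENNReal.ofReal (Real.exp (-π * Q K (fun w => Real.exp τ * yy K u w) x + a * τ))

/-- `UNF`.  Unfolding. -/
def S_UNF : Prop := ∀ (K : Type) [Field K] [NumberField K] (J : Ideal (𝓞 K)), J ≠ ⊥ →
  ∀ z : ℝ, 0 < z →
    ∫⁻ t in Set.Ioi (0 : ℝ), ENNReal.ofReal ((ff K (idl K J) t - 1) *
      t ^ ((finrank ℚ K : ℝ) * z / 2 - 1)) =
    (torsionOrder K : ℝ≥0∞) * ∑' I : Cls K J, ENNReal.ofReal (cst K * gam K z *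
      ((Ideal.absNorm I.1 : ℝ) * (Ideal.absNorm J : ℝ)) ^ (-z))

/-- `MEL`.  The function `Λ` of the pair of an ideal at real points `z > 1`. -/
def S_MEL : Prop := ∀ (K : Type) [Field K] [NumberField K] (J : Ideal (𝓞 K)), J ≠ ⊥ →
  ∀ P : WeakFEPair ℂ, IsPair K J P → ∀ z : ℝ, 1 < z →
    (Summable fun I : Cls K J => ((Ideal.absNorm I.1 : ℝ)) ^ (-z)) ∧
    P.Λ (((finrank ℚ K : ℝ) * z / 2 : ℝ) : ℂ) =
      ((torsionOrder K * cst K * gam K z * (Ideal.absNorm J : ℝ) ^ (-z) *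
        ∑' I : Cls K J, (Ideal.absNorm I.1 : ℝ) ^ (-z) : ℝ) : ℂ)

/-! ### The Dedekind zeta function -/

/-- `CLS`.  The ideals by ideal classes. -/
def S_CLS : Prop := ∀ (K : Type) [Field K] [NumberField K]
  (J : ClassGroup (𝓞 K) → (Ideal (𝓞 K))⁰), (∀ C, ClassGroup.mk0 (J C) = C) →
    ∀ F : Ideal (𝓞 K) → ℝ≥0∞, ∑' I : {I : Ideal (𝓞 K) // I ≠ ⊥}, F I =
      ∑ C : ClassGroup (𝓞 K), ∑' I : Cls K (J C : Ideal (𝓞 K)), F I.1

/-- `DED`.  The Dedekind zeta function at real points `z > 1`. -/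
def S_DED : Prop := ∀ (K : Type) [Field K] [NumberField K] (z : ℝ), 1 < z →
  (Summable fun I : {I : Ideal (𝓞 K) // I ≠ ⊥} => (Ideal.absNorm I.1 : ℝ) ^ (-z)) →
    dedekindZeta K z = ((∑' I : {I : Ideal (𝓞 K) // I ≠ ⊥}, (Ideal.absNorm I.1 : ℝ) ^ (-z) : ℝ) : ℂ)

/-- `DAN`.  The Dedekind zeta function is analytic for `Re s > 1`. -/
def S_DAN : Prop := ∀ (K : Type) [Field K] [NumberField K] (s : ℂ), 1 < s.re →
  AnalyticAt ℂ (dedekindZeta K) s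

/-- `EUR`.  The Euler product at real points. -/
def S_EUR : Prop := ∀ (K : Type) [Field K] [NumberField K] (z : ℝ), 1 < z →
  (Summable fun p : HeightOneSpectrum (𝓞 K) × ℕ =>
    1 / (((p.2 + 1 : ℕ) : ℝ) * (Ideal.absNorm p.1.asIdeal : ℝ) ^ (((p.2 + 1 : ℕ) : ℝ) * z))) ∧
  dedekindZeta K z = ((Real.exp (∑' p : HeightOneSpectrum (𝓞 K) × ℕ,
    1 / (((p.2 + 1 : ℕ) : ℝ) * (Ideal.absNorm p.1.asIdeal : ℝ) ^ (((p.2 + 1 : ℕ) : ℝ) * z))) : ℝ) : ℂ)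

/-- `EAN`.  The logarithm of the Euler product is analytic for `Re s > 1`. -/
def S_EAN : Prop := ∀ (K : Type) [Field K] [NumberField K] (s : ℂ), 1 < s.re →
  AnalyticAt ℂ (fun s : ℂ => ∑' p : HeightOneSpectrum (𝓞 K) × ℕ,
    1 / (((p.2 + 1 : ℕ) : ℂ) * (Ideal.absNorm p.1.asIdeal : ℂ) ^ (((p.2 + 1 : ℕ) : ℂ) * s))) s

/-- `EUL`.  The Euler product. -/
def S_EUL : Prop := ∀ (K : Type) [Field K] [NumberField K] (s : ℂ), 1 < s.re →
  dedekindZeta K s = Complex.exp (∑' p : HeightOneSpectrum (𝓞 K) × ℕ,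
    1 / (((p.2 + 1 : ℕ) : ℂ) * (Ideal.absNorm p.1.asIdeal : ℂ) ^ (((p.2 + 1 : ℕ) : ℂ) * s)))

/-- `LEA`.  Meromorphy and the trailing coefficient at `0` of the candidate. -/
def S_LEA : Prop := ∀ (K : Type) [Field K] [NumberField K]
  (J : ClassGroup (𝓞 K) → (Ideal (𝓞 K))⁰) (P : ClassGroup (𝓞 K) → WeakFEPair ℂ),
    (∀ C, IsPair K (J C : Ideal (𝓞 K)) (P C)) →
    ∀ Z : ℂ → ℂ, (∀ z, Z z = (torsionOrder K * cst K * gamC K z : ℂ)⁻¹ *
      ∑ C, ((Ideal.absNorm (J C : Ideal (𝓞 K)) : ℂ) ^ z * (P C).Λ ((finrank ℚ K : ℂ) * z / 2))) →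
    (∀ z, MeromorphicAt Z z) ∧ (∀ z : ℂ, z ≠ 0 → z ≠ 1 → AnalyticAt ℂ Z z) ∧
    (∀ z : ℝ, gamC K (z : ℂ) = ((gam K z : ℝ) : ℂ)) ∧
      meromorphicTrailingCoeffAt Z 0 =
        -(((classNumber K : ℝ) * regulator K / torsionOrder K : ℝ) : ℂ)

/-- The final statement: `ζ_K` has a meromorphic continuation to `ℂ` with leading coefficient
`-h R / w` at `0`. -/
def S_END : Prop := ∀ (K : Type) [Field K] [NumberField K], ∃ Z : ℂ → ℂ,
  (∀ z, MeromorphicAt Z z) ∧ (∀ s : ℂ, 1 < s.re → Z s = dedekindZeta K s) ∧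
  (∀ s : ℂ, 1 < s.re → Z s = Complex.exp (∑' p : HeightOneSpectrum (𝓞 K) × ℕ,
    1 / (((p.2 + 1 : ℕ) : ℂ) * (Ideal.absNorm p.1.asIdeal : ℂ) ^ (((p.2 + 1 : ℕ) : ℂ) * s)))) ∧
  meromorphicTrailingCoeffAt Z 0 = -(((classNumber K : ℝ) * regulator K / torsionOrder K : ℝ) : ℂ)

end HEZ
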