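import Pool.Agent.HEZ.St

/-!
# HEZ, module WFE (helper20): the pair of an ideal
-/

open NumberField NumberField.InfinitePlace NumberField.Units Module MeasureTheory Set Filter
open Asymptotics
open scoped Real nonZeroDivisors ENNReal

namespace HEZ

namespace WFE

lemma loc {h : ℝ → ℝ} (hh : AntitoneOn h (Ioi 0)) :
    LocallyIntegrableOn (fun t : ℝ => ((h t : ℝ) : ℂ)) (Ioi 0) := by
  have h1 : LocallyIntegrableOn h (Ioi 0) := by
    rw [locallyIntegrableOn_iff isOpen_Ioi.isLocallyClosed]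
    intro k hk hkc
    exact (hh.mono hk).integrableOn_isCompact hkc
  intro x hx
  obtain ⟨s, hs, h2⟩ := h1 x hx
  exact ⟨s, hs, h2.ofReal⟩

lemma top {h : ℝ → ℝ} (h1 : ∀ t : ℝ, 0 < t → 1 ≤ h t) {C δ : ℝ} (hδ : 0 < δ)
    (h2 : ∀ t : ℝ, 1 ≤ t → h t - 1 ≤ C * Real.exp (-δ * t)) (r : ℝ) :
    (fun t : ℝ => ((h t : ℝ) : ℂ) - 1) =O[atTop] (fun t : ℝ => t ^ r) := by
  have h3 := (isLittleO_exp_neg_mul_rpow_atTop hδ r).isBigO
  refine IsBigO.trans ?_ h3
  refine IsBigO.of_bound C ?_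
  filter_upwards [eventually_ge_atTop 1] with t ht
  have h4 : ((h t : ℝ) : ℂ) - 1 = ((h t - 1 : ℝ) : ℂ) := by push_cast; rfl
  have h5 := h1 t (by linarith)
  rw [h4, Complex.norm_real, Real.norm_of_nonneg (by linarith),
    Real.norm_of_nonneg (Real.exp_pos _).le]
  exact h2 t ht

end WFE

open WFE in
theorem wfe (h1 : S_IDL) (h2 : S_FIN) (h3 : S_FEQ) (_h4 : S_DUS) : S_WFE := by
  intro K _ _ J hJ
  obtain ⟨⟨b, hb⟩, hU, -⟩ := h1 K J hJ
  have hUb : UStable (lat b) := hb ▸ hU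
  obtain ⟨-, hanti, hone, C, δ, hδ, hdec⟩ := h2 K _ b
  obtain ⟨-, hanti', hone', C', δ', hδ', hdec'⟩ := h2 K _ (dualB b)
  obtain ⟨ε, hε, hfeq⟩ := h3 K _ b hUb
  refine ⟨{ f := fun t => ((ff K (lat b) t : ℝ) : ℂ)
            g := fun t => ((ff K (lat (dualB b)) t : ℝ) : ℂ)
            k := (finrank ℚ K : ℝ) / 2
            ε := (ε : ℂ)
            f₀ := 1
            g₀ := 1
            hf_int := loc hanti
            hg_int := loc hanti'
            hk := ?_
            hε := ?_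
            h_feq := ?_
            hf_top := top hone hδ hdec
            hg_top := top hone' hδ' hdec' }, ?_, rfl, rfl⟩
  · have : 0 < finrank ℚ K := finrank_pos
    positivity
  · exact_mod_cast hε.ne'
  · intro x hx
    show ((ff K (lat b) (1 / x) : ℝ) : ℂ) = _
    rw [hfeq x hx, smul_eq_mul]
    push_cast
    rfl
  · intro t _
    rw [hb]

end HEZ
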